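import Pool.Agent.H97.Tag.Plan2

/-!
# Existence of the offsets of the blocks
-/

set_option autoImplicit false

namespace Pool.Agent.H97.Tag

open Finset

theorem exists_seq (m : ℕ) (base : ℕ → ℤ) (B lo hi : ℤ) (q : ℕ → ℕ) (r : ℕ → ℤ) (real : ℕ → Prop)
    (hq : ∀ j, 0 < q j ∧ (q j : ℤ) ≤ B) (hb : ∀ j, j + 1 < m → base j + B ≤ base (j + 1))
    (hlo : 0 ≤ lo) (hlh : ∀ j < m, lo ≤ base j ∧ base j + B ≤ hi) (hB : 0 < B) :
    ∃ δ : ℕ → ℕ, (∀ j < m, real j → (δ j : ℤ) = base j) ∧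
      (∀ j < m, ¬ real j → (q j : ℤ) ∣ δ j - r j) ∧
      (∀ j, j + 1 < m → δ j < δ (j + 1)) ∧ (∀ j < m, lo ≤ δ j ∧ (δ j : ℤ) ≤ hi) := by
  classical
  have key : ∀ j, ∃ d : ℤ, base j ≤ d ∧ d < base j + B ∧ (real j → d = base j) ∧
      (¬ real j → (q j : ℤ) ∣ d - r j) := by
    intro j
    by_cases h : real j
    · exact ⟨base j, le_rfl, by omega, fun _ => rfl, fun h' => absurd h h'⟩
    · have h1 := Int.emod_nonneg (r j - base j) (show (q j : ℤ) ≠ 0 by have := (hq j).1; omega)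
      have h2 := Int.emod_lt_of_pos (r j - base j) (show (0 : ℤ) < q j by have := (hq j).1; omega)
      refine ⟨base j + (r j - base j) % q j, by omega, by have := (hq j).2; omega,
        fun h' => absurd h' h, fun _ => ?_⟩
      have h3 := Int.emod_add_mul_ediv (r j - base j) (q j)
      exact ⟨-((r j - base j) / q j), by linarith⟩
  choose d hd1 hd2 hd3 hd4 using key
  have hnn : ∀ j < m, ((d j).toNat : ℤ) = d j := by
    intro j hj
    have := hlh j hj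
    have := hd1 j
    exact Int.toNat_of_nonneg (by omega)
  refine ⟨fun j => (d j).toNat, ?_, ?_, ?_, ?_⟩
  · intro j hj h
    rw [hnn j hj]
    exact hd3 j h
  · intro j hj h
    rw [hnn j hj]
    exact hd4 j h
  · intro j hj
    have h1 := hnn j (by omega)
    have h2 := hnn (j + 1) hj
    have h3 := hb j hj
    have h4 := hd2 j
    have h5 := hd1 (j + 1)
    dsimp only
    omega
  · intro j hj
    rw [hnn j hj]
    have := hlh j hj
    have := hd1 j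
    have := hd2 j
    constructor <;> omega

/-- The offsets of real blocks. -/
def Dl (κ ν C G V E : ℤ) (tl : ℕ → ℤ) (la : ℕ → ℤ) (x a : ℕ) : ℤ :=
  κ * ν ^ 3 * (κ * ν ^ 4 * (C + (x + 1) * G) + tl x) - (κ * ν ^ 3 * (C + (a + 1) * G) + la a) -
    V - κ * E

/-- The main term of the offsets. -/
theorem Dl_main (κ ν G V H e0 : ℤ) (tl : ℕ → ℤ) (la : ℕ → ℤ) (x a : ℕ) :
    Dl κ ν ((ν - 1) * (κ * ν ^ 2 + 1) * H) G V ((ν - 1) * (κ ^ 2 * ν ^ 9 * H + e0)) tl la x a =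
      ((ν - 1) * H * (κ ^ 2 * ν ^ 7 - κ ^ 2 * ν ^ 5 - κ * ν ^ 3) - κ * (ν - 1) * e0) +
      (κ ^ 2 * ν ^ 7 * ((x + 1) * G) - κ * ν ^ 3 * ((a + 1) * G) + κ * ν ^ 3 * tl x - la a - V) := by
  unfold Dl
  ring

theorem Dl_gap {κ ν C G V E : ℤ} {tl la : ℕ → ℤ} {M : ℕ} {N : ℤ} (hν : 3 ≤ ν) (hκ : (M : ℤ) + 2 ≤ κ)
    (hG : G = 2 * N * ν) (hN : 0 < N) {x a x' a' : ℕ} (hx' : x' < M) (ha' : a' < M) (ha : a < M)
    (htl : ∀ x, x ≤ M → 0 ≤ tl x ∧ tl x ≤ N) (hla : ∀ x, x ≤ M → 0 ≤ la x ∧ la x ≤ N)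
    (hlm : a' < a → la a' ≤ la a) (hxM : x < M)
    (h : x < x' ∨ (x = x' ∧ a' < a)) :
    Dl κ ν C G V E tl la x a + 2 * N * (κ * ν ^ 4) ≤ Dl κ ν C G V E tl la x' a' := by
  have hκ0 : 0 < κ := by omega
  have hκ3 : 0 < κ * ν ^ 3 := by positivity
  have hG0 : 0 < G := by rw [hG]; positivity
  unfold Dl
  rcases h with h | ⟨rfl, h⟩
  · have h1 : (x : ℤ) + 1 ≤ x' := by omega
    have h2 : κ ^ 2 * ν ^ 7 * G ≤ κ ^ 2 * ν ^ 7 * ((x' - x) * G) := by
      have : 1 * G ≤ ((x' : ℤ) - x) * G := by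
        apply mul_le_mul_of_nonneg_right _ hG0.le
        omega
      rw [one_mul] at this
      exact mul_le_mul_of_nonneg_left this (by positivity)
    have h3 : κ * ν ^ 3 * (((a' : ℤ) - a) * G) ≤ κ * ν ^ 3 * (M * G) := by
      apply mul_le_mul_of_nonneg_left _ hκ3.le
      apply mul_le_mul_of_nonneg_right _ hG0.le
      omega
    have h4 : κ * ν ^ 3 * (tl x - tl x') ≤ κ * ν ^ 3 * N := by
      apply mul_le_mul_of_nonneg_left _ hκ3.le
      have := htl x hxM.le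
      have := htl x' hx'.le
      omega
    have h5 : la a' - la a ≤ N := by
      have := hla a ha.le
      have := hla a' ha'.le
      omega
    have h6 : κ * ν ^ 3 * ((M + 2) * G) ≤ κ ^ 2 * ν ^ 7 * G := by
      have hν4 : (1 : ℤ) ≤ ν ^ 4 := by
        have : 0 < ν ^ 4 := by positivity
        omega
      have : ((M : ℤ) + 2) * 1 ≤ κ * ν ^ 4 := mul_le_mul hκ hν4 (by norm_num) hκ0.le
      rw [mul_one] at this
      calc κ * ν ^ 3 * ((M + 2) * G) ≤ κ * ν ^ 3 * (κ * ν ^ 4 * G) := by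
            apply mul_le_mul_of_nonneg_left _ hκ3.le
            exact mul_le_mul_of_nonneg_right this hG0.le
        _ = _ := by ring
    have h7 : κ * ν ^ 3 * (2 * G) = 4 * N * (κ * ν ^ 4) := by rw [hG]; ring
    have h8 : N ≤ κ * ν ^ 3 * N := by nlinarith
    have h9 : κ * ν ^ 3 * N * 3 ≤ N * (κ * ν ^ 4) := by
      have : κ * ν ^ 3 * N * 3 ≤ κ * ν ^ 3 * N * ν := mul_le_mul_of_nonneg_left hν (by positivity)
      calc _ ≤ _ := this
        _ = _ := by ring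
    have h10 : 0 < N * (κ * ν ^ 4) := by positivity
    nlinarith
  · have h1 : (a' : ℤ) + 1 ≤ a := by omega
    have h2 : κ * ν ^ 3 * G ≤ κ * ν ^ 3 * (((a : ℤ) - a') * G) := by
      apply mul_le_mul_of_nonneg_left _ hκ3.le
      have : 1 * G ≤ ((a : ℤ) - a') * G := by
        apply mul_le_mul_of_nonneg_right _ hG0.le
        omega
      rwa [one_mul] at this
    have h3 : κ * ν ^ 3 * G = 2 * N * (κ * ν ^ 4) := by rw [hG]; ring
    have h4 := hlm h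
    nlinarith

/-- The properties of the final data. -/
structure IsDat (ν R M K N : ℕ) (T : List (ℕ × ℕ)) (tl h : ℕ → ℕ) (D : Dat) : Prop where
  off : D.Off
  Epos : 0 < D.E
  dvdE : (ν - 1) ∣ D.E
  Emod : ∃ z, D.E = ν ^ 2 * z + ν + 1
  c_eq : ∀ x, D.c x = ν ^ K * h x + tl x
  cell : ∀ y < M, D.c y + D.E + 1 ≤ R * D.E
  real : ∀ j < D.m, D.life j = K → D.c (D.cl j) / ν + D.δ j + Wf ν (K - 1) + ν ^ (K - 4) * D.E =
    ν ^ (K - 1) * D.c (tgT T (j / N))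
  dummy : ∀ j < D.m, D.life j < K → ν ^ D.life j ∣
    D.c (D.cl j) / ν + D.δ j + Wf ν (D.life j) + D.E * D.pw (D.cl j) j + ν ^ (D.life j - 1)

theorem U_pos {κ ν : ℤ} (hκ : 1 ≤ κ) (hν : 3 ≤ ν) :
    1 ≤ κ ^ 2 * ν ^ 7 - κ ^ 2 * ν ^ 5 - κ * ν ^ 3 := by
  have h1 : κ ≤ κ ^ 2 := by nlinarith
  have h2 : κ * ν ^ 3 ≤ κ ^ 2 * ν ^ 5 := by
    have : ν ^ 3 ≤ ν ^ 5 := pow_le_pow_right₀ (by omega) (by norm_num)
    exact mul_le_mul h1 this (by positivity) (by positivity)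
  have h3 : κ ^ 2 * ν ^ 5 * 9 ≤ κ ^ 2 * ν ^ 7 := by
    have : κ ^ 2 * ν ^ 7 = κ ^ 2 * ν ^ 5 * ν ^ 2 := by ring
    rw [this]
    apply mul_le_mul_of_nonneg_left _ (by positivity)
    nlinarith
  have h4 : 0 < κ ^ 2 * ν ^ 5 := by positivity
  omega

end Pool.Agent.H97.Tag
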