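import Pool.Agent.H97.Tag.Main

/-!
# Undecidability for binary tag systems: final forms
-/

set_option autoImplicit false

namespace Pool.Agent.H97.Tag

open Relation

/-- The step relation which also acts on nonempty words shorter than `ν`. -/
def FStep (ν : ℕ) (w : Bool → List Bool) (S T : List Bool) : Prop :=
  ∃ a t, S = a :: t ∧ T = (S ++ w a).drop ν

theorem FStep.det {ν : ℕ} {w : Bool → List Bool} (S T T' : List Bool) (h : FStep ν w S T)
    (h' : FStep ν w S T') : T = T' := by
  obtain ⟨a, t, rfl, rfl⟩ := h
  obtain ⟨a', t', e, rfl⟩ := h'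
  obtain ⟨rfl, rfl⟩ := List.cons.inj e
  rfl

theorem TStep.free {ν : ℕ} {w : Bool → List Bool} {S T : List Bool} (h : TStep ν w S T) :
    FStep ν w S T := h.2

/-- A reduction of an undecidable set. -/
theorem not_computable_of {α : Type*} [Primcodable α] {q : ℕ → Prop} {p : α → Prop} {f : ℕ → α}
    (hf : Computable f) (hq : ¬ ComputablePred q) (h : ∀ n, q n ↔ p (f n)) :
    ¬ ComputablePred p := fun hp =>
  hq (ComputablePred.computable_of_manyOneReducible ⟨f, hf, h⟩ hp)

/-- The fixed binary tag systems: the set of words from which the run ends, the set of words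
from which the word `0 ^ (ν - 1)` is reached, and the set of words from which the empty word is
reached if short words are also rewritten, are not computable. -/
theorem fixed (ν : ℕ) (hν : 3 ≤ ν) : ∃ (w1 : List Bool) (S : ℕ → List Bool) (q : ℕ → Prop),
    Computable S ∧ ¬ ComputablePred q ∧
    (∀ n, q n ↔ ∃ T, ReflTransGen (TStep ν (rule w1)) (S n) T ∧ T.length < ν) ∧
    (∀ n, q n ↔ ReflTransGen (TStep ν (rule w1)) (S n) (List.replicate (ν - 1) false)) ∧
    (∀ n, q n ↔ ReflTransGen (FStep ν (rule w1)) (S n) []) ∧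
    (∀ n, q n ↔ ReflTransGen (FStep ν (rule w1)) (S n) (List.replicate (ν - 1) false)) := by
  obtain ⟨w1, S, q, hS, hq, h1, h2⟩ := core ν hν
  have hfree : ∀ {a b : List Bool}, ReflTransGen (TStep ν (rule w1)) a b →
      ReflTransGen (FStep ν (rule w1)) a b := fun h => ReflTransGen.mono (fun _ _ => TStep.free) _ _ h
  have hlast : FStep ν (rule w1) (List.replicate (ν - 1) false) [] := by
    refine ⟨false, List.replicate (ν - 2) false, ?_, ?_⟩
    · rw [← List.replicate_succ]; congr 1; omega
    · have : rule w1 false = List.replicate 1 false := rfl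
      rw [this, List.replicate_append_replicate, List.drop_replicate]
      have : ν - 1 + 1 - ν = 0 := by omega
      rw [this]
      rfl
  have hne : ∀ n, ¬ q n → ∀ T : List Bool, T.length < ν →
      ¬ ReflTransGen (TStep ν (rule w1)) (S n) T := by
    intro n hn T hT
    obtain ⟨I, hI, hI2⟩ := h2 n hn
    refine no_term (r := TStep ν (rule w1)) (fun a b c => tstep_det) hI2 ?_ hI
    intro b hb
    have := hb.1
    omega
  have hne2 : ∀ n, ¬ q n → ¬ ReflTransGen (FStep ν (rule w1)) (S n) [] := by
    intro n hn
    obtain ⟨I, hI, hI2⟩ := h2 n hn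
    refine no_term (r := FStep ν (rule w1)) FStep.det (I := I) ?_ ?_ hI
    · intro a ha
      obtain ⟨b, hb, hab⟩ := hI2 a ha
      exact ⟨b, hb, TransGen.mono (fun _ _ => TStep.free) _ _ hab⟩
    · rintro b ⟨a, t, h, _⟩
      exact absurd h (by simp)
  refine ⟨w1, S, q, hS, hq, ?_, ?_, ?_, ?_⟩
  · intro n
    constructor
    · intro h
      exact ⟨_, h1 n h, by simp; omega⟩
    · rintro ⟨T, hT, hlt⟩
      by_contra hcon
      exact hne n hcon T hlt hT
  · intro n
    refine ⟨h1 n, fun h => ?_⟩
    by_contra hcon
    exact hne n hcon _ (by simp; omega) h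
  · intro n
    refine ⟨fun h => (hfree (h1 n h)).tail hlast, fun h => ?_⟩
    by_contra hcon
    exact hne2 n hcon h
  · intro n
    refine ⟨fun h => hfree (h1 n h), fun h => ?_⟩
    by_contra hcon
    exact hne2 n hcon (h.tail hlast)

end Pool.Agent.H97.Tag
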