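import Pool.Agent.H97.Tag.Weight

/-!
# The list of blocks
-/

set_option autoImplicit false

namespace Pool.Agent.H97.Tag

open Finset

/-! ### The list of batches -/

/-- The pairs (target, class) of the batches, with increasing target and decreasing class. -/
def tlist (M : ℕ) (P : ℕ → List ℕ) : List (ℕ × ℕ) :=
  (List.range M).flatMap (fun x =>
    ((List.range M).reverse.filter (fun a => decide (x ∈ P a))).map (fun a => (x, a)))

theorem tlist_mem {M : ℕ} {P : ℕ → List ℕ} {p : ℕ × ℕ} (h : p ∈ tlist M P) :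
    p.1 < M ∧ p.2 < M ∧ p.1 ∈ P p.2 := by
  unfold tlist at h
  rw [List.mem_flatMap] at h
  obtain ⟨x, hx, h⟩ := h
  rw [List.mem_map] at h
  obtain ⟨a, ha, rfl⟩ := h
  rw [List.mem_filter, List.mem_reverse, List.mem_range, decide_eq_true_eq] at ha
  rw [List.mem_range] at hx
  exact ⟨hx, ha.1, ha.2⟩

theorem tlist_pairwise (M : ℕ) (P : ℕ → List ℕ) :
    (tlist M P).Pairwise (fun p q => p.1 < q.1 ∨ (p.1 = q.1 ∧ q.2 < p.2)) := by
  unfold tlist
  rw [List.pairwise_flatMap]
  constructor
  · intro x _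
    rw [List.pairwise_map]
    refine List.Pairwise.imp (R := fun a b => b < a) (fun h => Or.inr ⟨rfl, h⟩) ?_
    apply List.Pairwise.filter
    rw [List.pairwise_reverse]
    exact List.pairwise_lt_range
  · refine List.Pairwise.imp ?_ (List.pairwise_lt_range (n := M))
    intro x y hxy p hp q hq
    rw [List.mem_map] at hp hq
    obtain ⟨a, _, rfl⟩ := hp
    obtain ⟨b, _, rfl⟩ := hq
    exact Or.inl hxy

theorem filter_eq_of_mem {M : ℕ} {l : List ℕ} (h1 : l.Pairwise (· < ·)) (h2 : ∀ x ∈ l, x < M) :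
    (List.range M).filter (fun x => decide (x ∈ l)) = l := by
  apply List.Perm.eq_of_pairwise' (r := (· < ·)) ?_ ?_ ?_
  · exact List.pairwise_lt_range.filter _
  · exact h1
  · rw [List.perm_ext_iff_of_nodup]
    · intro x
      rw [List.mem_filter, List.mem_range, decide_eq_true_eq]
      exact ⟨fun h => h.2, fun h => ⟨h2 x h, h⟩⟩
    · exact List.nodup_range.filter _
    · exact h1.imp (fun h => ne_of_lt h)

theorem filter_range_eq {M a : ℕ} (ha : a < M) :
    (List.range M).reverse.filter (fun b => decide (b = a)) = [a] := by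
  have : (List.range M).filter (fun b => decide (b = a)) = [a] := by
    have h := filter_eq_of_mem (M := M) (l := [a]) (by simp) (by simpa using ha)
    rw [← h]
    simp
  rw [List.filter_reverse, this]
  rfl

theorem tlist_filter {M : ℕ} {P : ℕ → List ℕ} {a : ℕ} (ha : a < M)
    (h1 : (P a).Pairwise (· < ·)) (h2 : ∀ x ∈ P a, x < M) :
    (tlist M P).filter (fun p => decide (p.2 = a)) = (P a).map (fun x => (x, a)) := by
  have key : ∀ x, (((List.range M).reverse.filter (fun a => decide (x ∈ P a))).map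
      (fun a => (x, a))).filter (fun p => decide (p.2 = a)) =
      if x ∈ P a then [(x, a)] else [] := by
    intro x
    rw [List.filter_map]
    have e1 : ((fun p : ℕ × ℕ => decide (p.2 = a)) ∘ fun a => (x, a)) = fun b => decide (b = a) := by
      funext b; rfl
    rw [e1, List.filter_filter]
    have e2 : (List.range M).reverse.filter (fun b => decide (b = a) && decide (x ∈ P b)) =
        ((List.range M).reverse.filter (fun b => decide (b = a))).filter
          (fun b => decide (x ∈ P b)) := by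
      rw [List.filter_filter]
      apply List.filter_congr
      intro b _
      exact Bool.and_comm _ _
    rw [e2, filter_range_eq ha]
    by_cases h : x ∈ P a
    · simp [h]
    · simp [h]
  unfold tlist
  rw [List.filter_flatMap]
  conv_rhs => rw [← filter_eq_of_mem h1 h2]
  rw [List.flatMap_congr (fun x _ => key x)]
  clear key
  induction (List.range M) with
  | nil => rfl
  | cons x l ih =>
    rw [List.flatMap_cons, ih, List.filter_cons]
    by_cases h : x ∈ P a
    · simp [h]
    · simp [h]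

/-- The class of a batch. -/
def clT (T : List (ℕ × ℕ)) (r : ℕ) : ℕ := (T.getD r (0, 0)).2

/-- The target of a batch. -/
def tgT (T : List (ℕ × ℕ)) (r : ℕ) : ℕ := (T.getD r (0, 0)).1

/-- The number of batches of class `a` before the batch `r`. -/
def cnt (T : List (ℕ × ℕ)) (a r : ℕ) : ℕ := ((T.take r).filter (fun p => decide (p.2 = a))).length

theorem cnt_zero (T : List (ℕ × ℕ)) (a : ℕ) : cnt T a 0 = 0 := by simp [cnt]

theorem cnt_succ {T : List (ℕ × ℕ)} {r : ℕ} (a : ℕ) (h : r < T.length) :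
    cnt T a (r + 1) = cnt T a r + if clT T r = a then 1 else 0 := by
  unfold cnt clT
  rw [List.take_succ_eq_append_getElem h, List.filter_append, List.length_append]
  congr 1
  rw [List.getD_eq_getElem _ _ h]
  by_cases h1 : T[r].2 = a
  · simp [h1]
  · simp [h1]

theorem cnt_mono {T : List (ℕ × ℕ)} (a : ℕ) {r r' : ℕ} (h : r ≤ r') : cnt T a r ≤ cnt T a r' := by
  unfold cnt
  apply List.Sublist.length_le
  apply List.Sublist.filter
  exact List.take_sublist_take_left h

/-! ### Growth -/

theorem exists_large (ν C K0 : ℕ) (hν : 2 ≤ ν) : ∃ K, K0 ≤ K ∧ C * K ^ 2 ≤ ν ^ (K - 4) := by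
  have h := tendsto_pow_const_div_const_pow_of_one_lt 2 (r := (2 : ℝ)) (by norm_num)
  have h2 : ∀ᶠ n : ℕ in Filter.atTop, (n : ℝ) ^ 2 / 2 ^ n < 1 / (25 * (C + 1)) :=
    h.eventually (gt_mem_nhds (by positivity))
  obtain ⟨n, hn1, hn2, hn3⟩ :=
    (h2.and ((Filter.eventually_ge_atTop K0).and (Filter.eventually_ge_atTop 1))).exists
  refine ⟨n + 4, by omega, ?_⟩
  rw [Nat.add_sub_cancel]
  have h3 : (n : ℝ) ^ 2 * (25 * (C + 1)) < 2 ^ n := by
    rw [div_lt_div_iff₀ (by positivity) (by positivity)] at hn1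
    linarith
  have h4 : n ^ 2 * (25 * (C + 1)) < 2 ^ n := by exact_mod_cast h3
  calc C * (n + 4) ^ 2 ≤ n ^ 2 * (25 * (C + 1)) := by
        have : (n + 4) ^ 2 ≤ 25 * n ^ 2 := by nlinarith
        nlinarith
    _ ≤ 2 ^ n := h4.le
    _ ≤ ν ^ n := Nat.pow_le_pow_left hν n

/-! ### The weights of foreign blocks -/

/-- The weight of a block of class `b ≠ a` in the group of `a`. -/
def fwn (ν m b a : ℕ) : ℕ := if b < a then Wf ν (lam b) else Wf ν (lam a) + m * ν ^ lam a

theorem fwn_le {ν m a b θ : ℕ} (hν : 1 ≤ ν) (ha : lam a ≤ θ) :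
    fwn ν m b a ≤ Wf ν θ + m * ν ^ θ := by
  unfold fwn
  split_ifs with h
  · have : lam b ≤ θ := by unfold lam at *; omega
    exact (Wf_mono ν this).trans (Nat.le_add_right _ _)
  · exact Nat.add_le_add (Wf_mono ν ha) (Nat.mul_le_mul_left _ (Nat.pow_le_pow_right hν ha))

/-- The weight of the foreign batches before the batch `r`. -/
def Fr (ν m N : ℕ) (T : List (ℕ × ℕ)) (a r : ℕ) : ℕ :=
  ∑ i ∈ range r, if clT T i = a then 0 else N * fwn ν m (clT T i) a

theorem Fr_mono (ν m N : ℕ) (T : List (ℕ × ℕ)) (a : ℕ) {r r' : ℕ} (h : r ≤ r') :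
    Fr ν m N T a r ≤ Fr ν m N T a r' := by
  unfold Fr
  exact Finset.sum_le_sum_of_subset (Finset.range_mono h)

theorem Fr_le {ν m N : ℕ} (T : List (ℕ × ℕ)) {a θ : ℕ} (hν : 1 ≤ ν) (ha : lam a ≤ θ) (r : ℕ) :
    Fr ν m N T a r ≤ r * (N * (Wf ν θ + m * ν ^ θ)) := by
  unfold Fr
  calc _ ≤ ∑ i ∈ range r, N * (Wf ν θ + m * ν ^ θ) := by
        apply Finset.sum_le_sum
        intro i _
        split_ifs
        · exact Nat.zero_le _
        · exact Nat.mul_le_mul_left _ (fwn_le hν ha)
    _ = _ := by simp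

theorem Fr_dvd {ν m N d : ℕ} (T : List (ℕ × ℕ)) (a r : ℕ) (h : d ∣ N) : d ∣ Fr ν m N T a r := by
  unfold Fr
  apply Finset.dvd_sum
  intro i _
  split_ifs
  · exact Nat.dvd_zero _
  · exact Dvd.dvd.mul_right h _

/-- The total deficit of the class `a`. -/
def Zc (ν m N W M : ℕ) (T : List (ℕ × ℕ)) (a : ℕ) : ℕ :=
  (ν - 1) * W ^ 3 + Fr ν m N T a T.length + W * fwn ν m M a

/-- The own weight of the batch `r`. -/
def ownr (ν m N W M ρ : ℕ) (T : List (ℕ × ℕ)) (r : ℕ) : ℕ :=
  if cnt T (clT T r) r + 1 = cnt T (clT T r) T.length then ρ - Zc ν m N W M T (clT T r) else ρ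

/-- The weight of the batch `r` in the group of `a`. -/
def bw (ν m N W M ρ : ℕ) (T : List (ℕ × ℕ)) (a r : ℕ) : ℕ :=
  if clT T r = a then ownr ν m N W M ρ T r else N * fwn ν m (clT T r) a

theorem bw_sum {ν m N W M ρ : ℕ} {T : List (ℕ × ℕ)} {a : ℕ} (hZ : Zc ν m N W M T a ≤ ρ) :
    ∀ r, r ≤ T.length → ∑ i ∈ range r, bw ν m N W M ρ T a i +
      (if cnt T a r = cnt T a T.length ∧ 0 < cnt T a T.length then Zc ν m N W M T a else 0) =
      ρ * cnt T a r + Fr ν m N T a r := by
  intro r
  induction r with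
  | zero =>
    intro _
    rw [cnt_zero, if_neg (by omega)]
    simp [Fr]
  | succ r ih =>
    intro hr
    have ih' := ih (by omega)
    have hc := cnt_succ a (show r < T.length by omega)
    have hm := cnt_mono (T := T) a hr
    rw [Finset.sum_range_succ]
    have hF : Fr ν m N T a (r + 1) = Fr ν m N T a r +
        if clT T r = a then 0 else N * fwn ν m (clT T r) a := Finset.sum_range_succ _ _
    by_cases h : clT T r = a
    · rw [if_pos h] at hc
      have hn : ¬ (cnt T a r = cnt T a T.length ∧ 0 < cnt T a T.length) := by omega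
      rw [if_neg hn] at ih'
      have hb : bw ν m N W M ρ T a r =
          if cnt T a r + 1 = cnt T a T.length then ρ - Zc ν m N W M T a else ρ := by
        unfold bw ownr
        rw [if_pos h, h]
      rw [hF, if_pos h, hc, hb]
      by_cases h2 : cnt T a r + 1 = cnt T a T.length
      · rw [if_pos h2, if_pos ⟨h2, by omega⟩, Nat.mul_add]
        omega
      · rw [if_neg h2, if_neg (by rintro ⟨h3, _⟩; exact h2 h3), Nat.mul_add]
        omega
    · have hc : cnt T a (r + 1) = cnt T a r := by rw [hc, if_neg h]; rfl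
      have hb : bw ν m N W M ρ T a r = N * fwn ν m (clT T r) a := by
        unfold bw
        rw [if_neg h]
      rw [hF, if_neg h, hc, hb]
      omega

end Pool.Agent.H97.Tag
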