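import Pool.Agent.H97.Tag.Rd

/-!
# Words with blocks

`blk Ol L ps` is the word of length `L` over `{false, true}` in which a copy of the pattern `Ol`
(offsets of the letters `true`) is placed at every position of the list `ps`.
-/

set_option autoImplicit false

namespace Pool.Agent.H97.Tag

/-- The word of length `L` with the pattern `Ol` placed at the positions `ps`. -/
def blk (Ol : List ℕ) (L : ℕ) (ps : List ℕ) : List Bool :=
  (List.range L).map (fun z => decide (∃ p ∈ ps, ∃ d ∈ Ol, z = p + d))

/-- The productions: `false ↦ false`, `true ↦` the block of length `E + 1`. -/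
def wd (Ol : List ℕ) (E : ℕ) : Bool → List Bool
  | false => [false]
  | true => blk Ol (E + 1) [0]

/-- Positions in the next word: the `i`-th entry `k` becomes `k + E * (o + i)`. -/
def ixs (E : ℕ) : ℕ → List ℕ → List ℕ
  | _, [] => []
  | o, k :: l => (k + E * o) :: ixs E (o + 1) l

@[simp] theorem ixs_nil (E o : ℕ) : ixs E o [] = [] := rfl

@[simp] theorem ixs_cons (E o k : ℕ) (l : List ℕ) :
    ixs E o (k :: l) = (k + E * o) :: ixs E (o + 1) l := rfl

theorem ixs_append (E : ℕ) (l₁ l₂ : List ℕ) :
    ∀ o, ixs E o (l₁ ++ l₂) = ixs E o l₁ ++ ixs E (o + l₁.length) l₂ := by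
  induction l₁ with
  | nil => intro o; simp
  | cons k l ih =>
    intro o
    simp only [List.cons_append, ixs_cons, List.length_cons, ih]
    rw [show o + 1 + l.length = o + (l.length + 1) by ring]

@[simp] theorem ixs_length (E : ℕ) (l : List ℕ) : ∀ o, (ixs E o l).length = l.length := by
  induction l with
  | nil => intro o; rfl
  | cons k l ih => intro o; simp [ih]

theorem mem_ixs {E : ℕ} {l : List ℕ} : ∀ {o p : ℕ}, p ∈ ixs E o l →
    ∃ k ∈ l, ∃ i, o ≤ i ∧ p = k + E * i := by
  induction l with
  | nil => intro o p h; simp at h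
  | cons k l ih =>
    intro o p h
    simp only [ixs_cons, List.mem_cons] at h
    rcases h with rfl | h
    · exact ⟨k, by simp, o, le_rfl, rfl⟩
    · obtain ⟨k', hk', i, hi, rfl⟩ := ih h
      exact ⟨k', by simp [hk'], i, by omega, rfl⟩

@[simp] theorem blk_length (Ol : List ℕ) (L : ℕ) (ps : List ℕ) : (blk Ol L ps).length = L := by
  simp [blk]

theorem blk_nil (Ol : List ℕ) (L : ℕ) : blk Ol L [] = List.replicate L false := by
  simp [blk, List.map_const']

theorem blk_append {Ol : List ℕ} {E : ℕ} (hO : ∀ d ∈ Ol, d < E + 1) {L₁ : ℕ} (L₂ : ℕ)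
    {ps₁ : List ℕ} (ps₂ : List ℕ) (h₁ : ∀ p ∈ ps₁, p + (E + 1) ≤ L₁) :
    blk Ol L₁ ps₁ ++ blk Ol L₂ ps₂ = blk Ol (L₁ + L₂) (ps₁ ++ ps₂.map (L₁ + ·)) := by
  unfold blk
  rw [List.range_add, List.map_append, List.map_map]
  congr 1
  · apply List.map_congr_left
    intro z hz
    rw [List.mem_range] at hz
    apply decide_eq_decide.2
    constructor
    · rintro ⟨p, hp, d, hd, rfl⟩
      exact ⟨p, by simp [hp], d, hd, rfl⟩
    · rintro ⟨p, hp, d, hd, rfl⟩
      rw [List.mem_append, List.mem_map] at hp
      rcases hp with hp | ⟨q, hq, rfl⟩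
      · exact ⟨p, hp, d, hd, rfl⟩
      · omega
  · apply List.map_congr_left
    intro z hz
    apply decide_eq_decide.2
    dsimp only
    constructor
    · rintro ⟨p, hp, d, hd, rfl⟩
      exact ⟨L₁ + p, by
        rw [List.mem_append, List.mem_map]; exact Or.inr ⟨p, hp, rfl⟩, d, hd, by omega⟩
    · rintro ⟨p, hp, d, hd, he⟩
      rw [List.mem_append, List.mem_map] at hp
      rcases hp with hp | ⟨q, hq, rfl⟩
      · have := h₁ p hp
        have := hO d hd
        omega
      · exact ⟨q, hq, d, hd, by omega⟩

theorem ixs_bound {E : ℕ} {l : List ℕ} : ∀ {n : ℕ} (o : ℕ), l.Pairwise (· < ·) →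
    (∀ k ∈ l, k < n) → ∀ p ∈ ixs E o l, p + (E + 1) ≤ n + E * (o + l.length) := by
  induction l with
  | nil => intro n o _ _ p h; simp at h
  | cons k l ih =>
    intro n o hl hn p hp
    simp only [ixs_cons, List.mem_cons] at hp
    rcases hp with rfl | hp
    · have := hn k (by simp)
      have h2 : E * (o + (k :: l).length) = E * o + E * l.length + E := by
        simp only [List.length_cons]; ring
      rw [h2]
      omega
    · have := ih (o + 1) (List.Pairwise.of_cons hl) (fun k hk => hn k (by simp [hk])) p hp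
      simp only [List.length_cons]
      rw [show o + (l.length + 1) = o + 1 + l.length by ring]
      exact this

theorem ixs_sep {E : ℕ} {l : List ℕ} : ∀ (o : ℕ), l.Pairwise (· < ·) →
    (ixs E o l).Pairwise (fun p q => p + (E + 1) ≤ q) := by
  induction l with
  | nil => intro o _; simp
  | cons k l ih =>
    intro o hl
    simp only [ixs_cons, List.pairwise_cons]
    refine ⟨?_, ih (o + 1) (List.Pairwise.of_cons hl)⟩
    intro p hp
    obtain ⟨k', hk', i, hi, rfl⟩ := mem_ixs hp
    have h1 : k < k' := (List.pairwise_cons.1 hl).1 k' hk'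
    have h2 : E * (o + 1) ≤ E * i := Nat.mul_le_mul_left _ hi
    rw [Nat.mul_add, Nat.mul_one] at h2
    omega

theorem flat_bits {Ol : List ℕ} {E : ℕ} (hO : ∀ d ∈ Ol, d < E + 1) (l : List ℕ) :
    ∀ n : ℕ, l.Pairwise (· < ·) → (∀ k ∈ l, k < n) →
      (List.range n).flatMap (fun k => wd Ol E (decide (k ∈ l))) =
        blk Ol (n + E * l.length) (ixs E 0 l) := by
  induction l using List.reverseRecOn with
  | nil =>
    intro n _ h
    clear h
    simp only [List.not_mem_nil, decide_false, wd, List.length_nil, Nat.mul_zero, Nat.add_zero,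
      ixs_nil, blk_nil]
    induction n with
    | zero => rfl
    | succ n ih => rw [List.range_succ, List.flatMap_append, ih, List.replicate_succ']; simp
  | append_singleton l k ih =>
    intro n hl hn
    have hk : k < n := hn k (by simp)
    have hl1 : l.Pairwise (· < ·) := (List.pairwise_append.1 hl).1
    have hlk : ∀ k' ∈ l, k' < k := fun k' h => (List.pairwise_append.1 hl).2.2 k' h k (by simp)
    obtain ⟨r, rfl⟩ : ∃ r, n = k + 1 + r := ⟨n - (k + 1), by omega⟩
    rw [List.range_add, List.range_succ, List.flatMap_append, List.flatMap_append]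
    have e1 : (List.range k).flatMap (fun k' => wd Ol E (decide (k' ∈ l ++ [k]))) =
        blk Ol (k + E * l.length) (ixs E 0 l) := by
      rw [← ih k hl1 hlk]
      apply List.flatMap_congr
      intro k' hk'
      rw [List.mem_range] at hk'
      congr 1
      apply decide_eq_decide.2
      simp only [List.mem_append, List.mem_singleton]
      constructor
      · rintro (h | h)
        · exact h
        · omega
      · exact Or.inl
    have e2 : [k].flatMap (fun k' => wd Ol E (decide (k' ∈ l ++ [k]))) = blk Ol (E + 1) [0] := by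
      simp [wd]
    have e3 : ((List.range r).map (k + 1 + ·)).flatMap
        (fun k' => wd Ol E (decide (k' ∈ l ++ [k]))) = blk Ol r [] := by
      rw [List.flatMap_map, blk_nil]
      have : ∀ j ∈ List.range r, wd Ol E (decide (k + 1 + j ∈ l ++ [k])) = [false] := by
        intro j _
        have : ¬ (k + 1 + j ∈ l ++ [k]) := by
          simp only [List.mem_append, List.mem_singleton]
          rintro (h | h)
          · have := hlk _ h; omega
          · omega
        simp [this, wd]
      rw [List.flatMap_congr this]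
      clear this e1 e2 hn hk
      induction r with
      | zero => rfl
      | succ n ih => rw [List.range_succ, List.flatMap_append, ih, List.replicate_succ']; simp
    rw [e1, e2, e3]
    have hb : ∀ p ∈ ixs E 0 l, p + (E + 1) ≤ k + E * l.length := by
      intro p hp
      simpa using ixs_bound 0 hl1 hlk p hp
    rw [blk_append hO _ _ hb, blk_append hO]
    · rw [ixs_append]
      simp only [List.map_cons, List.map_nil, Nat.add_zero, List.append_nil, List.length_append,
        List.length_cons, List.length_nil, Nat.zero_add, ixs_cons, ixs_nil]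
      congr 1
      ring
    · intro p hp
      rw [List.mem_append] at hp
      rcases hp with hp | hp
      · have := hb p hp; omega
      · simp only [List.map_cons, List.map_nil, List.mem_singleton] at hp
        omega

/-- The indices of the letters `true` which are read in a block at position `p`. -/
def reads (ν : ℕ) (Ol : List ℕ) (p : ℕ) : List ℕ :=
  (Ol.filter (fun d => ν ∣ p + d)).map (fun d => (p + d) / ν)

/-- The positions `ps` of the blocks are separated and lie in a word of length `L`. -/
def Good (E L : ℕ) (ps : List ℕ) : Prop :=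
  ps.Pairwise (fun p q => p + (E + 1) ≤ q) ∧ ∀ p ∈ ps, p + (E + 1) ≤ L

theorem reads_flat {ν : ℕ} (hν : 0 < ν) {Ol : List ℕ} {E : ℕ} (hO : ∀ d ∈ Ol, d < E + 1)
    (hS : Ol.Pairwise (· < ·)) {n : ℕ} {ps : List ℕ} (hg : Good E (ν * n) ps) :
    (ps.flatMap (reads ν Ol)).Pairwise (· < ·) ∧ ∀ k ∈ ps.flatMap (reads ν Ol), k < n := by
  constructor
  · rw [List.pairwise_flatMap]
    constructor
    · intro p _
      unfold reads
      rw [List.pairwise_map]
      refine List.Pairwise.imp_of_mem ?_ (hS.filter _)
      intro d d' hd hd' hlt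
      rw [List.mem_filter] at hd hd'
      obtain ⟨a, ha⟩ : ν ∣ p + d := by simpa using hd.2
      obtain ⟨b, hb⟩ : ν ∣ p + d' := by simpa using hd'.2
      rw [ha, hb, Nat.mul_div_cancel_left _ hν, Nat.mul_div_cancel_left _ hν]
      have : ν * a < ν * b := by omega
      exact lt_of_mul_lt_mul_left this (Nat.zero_le _)
    · refine List.Pairwise.imp ?_ hg.1
      intro p q hpq k hk k' hk'
      unfold reads at hk hk'
      rw [List.mem_map] at hk hk'
      obtain ⟨d, hd, rfl⟩ := hk
      obtain ⟨d', hd', rfl⟩ := hk'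
      rw [List.mem_filter] at hd hd'
      obtain ⟨a, ha⟩ : ν ∣ p + d := by simpa using hd.2
      obtain ⟨b, hb⟩ : ν ∣ q + d' := by simpa using hd'.2
      rw [ha, hb, Nat.mul_div_cancel_left _ hν, Nat.mul_div_cancel_left _ hν]
      have := hO d hd.1
      have : ν * a < ν * b := by omega
      exact lt_of_mul_lt_mul_left this (Nat.zero_le _)
  · intro k hk
    rw [List.mem_flatMap] at hk
    obtain ⟨p, hp, hk⟩ := hk
    unfold reads at hk
    rw [List.mem_map] at hk
    obtain ⟨d, hd, rfl⟩ := hk
    rw [List.mem_filter] at hd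
    have h1 := hO d hd.1
    have h2 := hg.2 p hp
    rw [Nat.div_lt_iff_lt_mul hν]
    have : n * ν = ν * n := Nat.mul_comm _ _
    omega

/-- **One pass over a word with blocks.** -/
theorem rd_blk {ν : ℕ} (hν : 0 < ν) {Ol : List ℕ} {E : ℕ} (hO : ∀ d ∈ Ol, d < E + 1)
    (hS : Ol.Pairwise (· < ·)) {n : ℕ} {ps : List ℕ} (hg : Good E (ν * n) ps) :
    rd ν (wd Ol E) 0 (blk Ol (ν * n) ps) =
        blk Ol (n + E * (ps.flatMap (reads ν Ol)).length) (ixs E 0 (ps.flatMap (reads ν Ol))) ∧
      Good E (n + E * (ps.flatMap (reads ν Ol)).length) (ixs E 0 (ps.flatMap (reads ν Ol))) := by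
  obtain ⟨h1, h2⟩ := reads_flat hν hO hS hg
  constructor
  · rw [← flat_bits hO _ n h1 h2]
    conv_lhs => unfold blk
    rw [rd_range hν]
    apply List.flatMap_congr
    intro k _
    congr 1
    apply decide_eq_decide.2
    rw [List.mem_flatMap]
    constructor
    · rintro ⟨p, hp, d, hd, he⟩
      refine ⟨p, hp, ?_⟩
      unfold reads
      rw [List.mem_map]
      refine ⟨d, ?_, ?_⟩
      · rw [List.mem_filter]
        exact ⟨hd, by rw [← he]; simp⟩
      · rw [← he, Nat.mul_div_cancel_left _ hν]
    · rintro ⟨p, hp, hk⟩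
      unfold reads at hk
      rw [List.mem_map] at hk
      obtain ⟨d, hd, rfl⟩ := hk
      rw [List.mem_filter] at hd
      have h3 : ν ∣ p + d := by simpa using hd.2
      exact ⟨p, hp, d, hd.1, Nat.mul_div_cancel' h3⟩
  · refine ⟨ixs_sep 0 h1, ?_⟩
    intro p hp
    simpa using ixs_bound 0 h1 h2 p hp

end Pool.Agent.H97.Tag
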