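import Mathlib

/-!
# Reading words with a deletion number; aligned tag systems

`rd n w s u` reads the word `u`: it skips `s` letters, then reads every `n`-th letter `a` and
writes `w a`.  An aligned tag system with deletion number `σ` rewrites whole words whose length is a
multiple of `σ`: `v ↦ rd σ w 0 v`.  `none` is a special letter which stops the computation.
-/

set_option autoImplicit false

namespace Pool.Agent.H97.Tag

/-- Skip `s` letters, then read every `n`-th letter `a` and write `w a`. -/
def rd {A B : Type*} (n : ℕ) (w : A → List B) : ℕ → List A → List B
  | _, [] => []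
  | 0, a :: u => w a ++ rd n w (n - 1) u
  | s + 1, _ :: u => rd n w s u

/-- One sweep over a nonempty word of length divisible by `σ`; the result is again such a word,
without the special letter `none`. -/
def Step {A : Type*} (σ : ℕ) (w : A → List (Option A)) (v v' : List A) : Prop :=
  v ≠ [] ∧ σ ∣ v.length ∧ σ ∣ v'.length ∧ rd σ w 0 v = v'.map some

/-- The sweep over `v` produces exactly one special letter, at a position divisible by `σ`, and
a word of length divisible by `σ`. -/
def Final {A : Type*} (σ : ℕ) (w : A → List (Option A)) (v : List A) : Prop :=
  v ≠ [] ∧ σ ∣ v.length ∧ ∃ v₁ v₂ : List A, σ ∣ v₁.length ∧ σ ∣ v₁.length + 1 + v₂.length ∧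
    rd σ w 0 v = v₁.map some ++ none :: v₂.map some

end Pool.Agent.H97.Tag
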