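import Pool.Agent.H97.Tag.Delta

/-!
# Existence of the final data
-/

set_option autoImplicit false

namespace Pool.Agent.H97.Tag

open Finset

theorem exists_delta {ν R M : ℕ} (hν : 3 ≤ ν) (hR : 3 ≤ R) {T : List (ℕ × ℕ)}
    (hT0 : 0 < T.length) (hTp : T.Pairwise (fun p q => p.1 < q.1 ∨ (p.1 = q.1 ∧ q.2 < p.2)))
    (hT1 : ∀ r < T.length, tgT T r < M ∧ clT T r < M) {K N s : ℕ} {life : ℕ → ℕ}
    (hp : IsPlan ν R M T K N s life) (tl : ℕ → ℕ) (htl : ∀ x ≤ M, tl x ≤ ν ^ lam M)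
    (htla : ∀ r < T.length, tl (clT T r) = ν ^ lam (clT T r)) :
    ∃ (E : ℕ) (h δ : ℕ → ℕ), IsDat ν R M K N T tl h
      (pdat ν K N M T life E (fun x => ν ^ K * h x + tl x) δ) := by
  obtain ⟨κ, hκ⟩ : ∃ κ, κ = ν ^ (K - 4) := ⟨_, rfl⟩
  have hK8 := hp.hK
  have hK0 : ν ^ K = κ * ν ^ 4 := by rw [hκ, ← pow_add]; congr 1; omega
  have hK1 : ν ^ (K - 1) = κ * ν ^ 3 := by rw [hκ, ← pow_add]; congr 1; omega
  obtain ⟨Y, hY⟩ : ∃ Y, Y = ν ^ lam M := ⟨_, rfl⟩
  obtain ⟨e0, he0⟩ : ∃ e0, e0 + 2 * ν + 1 = ν ^ 2 :=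
    ⟨ν ^ 2 - 2 * ν - 1, by
      have : 3 * ν ≤ ν ^ 2 := by rw [pow_two]; exact Nat.mul_le_mul_right _ hν
      omega⟩
  obtain ⟨V, hV⟩ : ∃ V, V = Wf ν (K - 1) := ⟨_, rfl⟩
  obtain ⟨G, hG⟩ : ∃ G, G = 2 * N * ν := ⟨_, rfl⟩
  obtain ⟨m, hm⟩ : ∃ m, m = N * T.length + Wf ν (lam M + 1) := ⟨_, rfl⟩
  obtain ⟨Q, hQ⟩ : ∃ Q, Q = κ ^ 2 * ν ^ 7 * ((M + 1) * G) + κ * ν ^ 3 * Y + V + Y +
    κ * ν ^ 3 * ((M + 1) * G) + 2 * (κ * ν ^ 4) * m + κ * ν ^ 4 + κ * ν ^ 4 * ((M + 1) * G) + 1 :=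
    ⟨_, rfl⟩
  obtain ⟨H, hH⟩ : ∃ H, H = Q + κ * e0 := ⟨_, rfl⟩
  obtain ⟨C, hC⟩ : ∃ C, C = (ν - 1) * (κ * ν ^ 2 + 1) * H := ⟨_, rfl⟩
  obtain ⟨E, hE⟩ : ∃ E, E = (ν - 1) * (κ ^ 2 * ν ^ 9 * H + e0) := ⟨_, rfl⟩
  have hκ0 : 0 < κ := by rw [hκ]; exact pow_pos (by omega) _
  have hκM : M + 2 ≤ κ := by
    rw [hκ]
    have h1 : M + 2 ≤ K - 4 := by unfold lam at hK8; omega
    exact h1.trans (Nat.lt_pow_self (by omega)).le
  have hYN : Y ≤ N := by
    rw [hY]
    have h1 : ν ^ lam M ≤ ν ^ (lam M + 1) := Nat.pow_le_pow_right (by omega) (by omega)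
    exact h1.trans (Nat.le_of_dvd hp.hN0 hp.hN)
  have hν1 : ((ν - 1 : ℕ) : ℤ) = (ν : ℤ) - 1 := by
    rw [Nat.cast_sub (by omega)]; rfl
  have hCz : (C : ℤ) = ((ν : ℤ) - 1) * (κ * ν ^ 2 + 1) * H := by
    rw [hC]; push_cast; rw [hν1]
  have hEz : (E : ℤ) = ((ν : ℤ) - 1) * (κ ^ 2 * ν ^ 9 * H + e0) := by
    rw [hE]; push_cast; rw [hν1]
  have hνz : (3 : ℤ) ≤ ν := by exact_mod_cast hν
  have hκz : (1 : ℤ) ≤ κ := by exact_mod_cast hκ0
  have hHz : (H : ℤ) = Q + κ * e0 := by rw [hH]; push_cast; rfl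
  obtain ⟨la, hla⟩ : ∃ la : ℕ → ℕ, la = fun a => ν ^ (lam a - 1) := ⟨_, rfl⟩
  have hlale : ∀ a, a ≤ M → la a ≤ Y := by
    intro a ha
    rw [hla, hY]
    exact Nat.pow_le_pow_right (by omega) (by unfold lam; omega)
  -- main term
  obtain ⟨A, hA⟩ : ∃ A : ℤ, A = ((ν : ℤ) - 1) * H * (κ ^ 2 * ν ^ 7 - κ ^ 2 * ν ^ 5 - κ * ν ^ 3) -
    κ * ((ν : ℤ) - 1) * e0 := ⟨_, rfl⟩
  have hAlo : (Q : ℤ) ≤ A := by
    have h1 := U_pos hκz hνz
    have h2 : ((ν : ℤ) - 1) * H * 1 ≤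
        ((ν : ℤ) - 1) * H * (κ ^ 2 * ν ^ 7 - κ ^ 2 * ν ^ 5 - κ * ν ^ 3) :=
      mul_le_mul_of_nonneg_left h1 (mul_nonneg (by omega) (by positivity))
    have h3 : ((ν : ℤ) - 1) * H - κ * ((ν : ℤ) - 1) * e0 = ((ν : ℤ) - 1) * Q := by
      rw [hHz]; ring
    have h4 : 1 * (Q : ℤ) ≤ ((ν : ℤ) - 1) * Q :=
      mul_le_mul_of_nonneg_right (by omega) (by positivity)
    rw [hA]
    linarith
  have hAhi : ν * (A + Q) ≤ (E : ℤ) := by
    rw [hEz, hA]
    have h1 : (ν : ℤ) * (((ν : ℤ) - 1) * H * (κ ^ 2 * ν ^ 7 - κ ^ 2 * ν ^ 5 - κ * ν ^ 3)) ≤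
        ν * (((ν : ℤ) - 1) * H * (κ ^ 2 * ν ^ 7)) := by
      apply mul_le_mul_of_nonneg_left _ (by omega)
      apply mul_le_mul_of_nonneg_left _ (mul_nonneg (by omega) (by positivity))
      have : (0 : ℤ) ≤ κ ^ 2 * ν ^ 5 := by positivity
      have : (0 : ℤ) ≤ κ * ν ^ 3 := by positivity
      omega
    have h2 : (0 : ℤ) ≤ κ * ((ν : ℤ) - 1) * e0 :=
      mul_nonneg (mul_nonneg (by omega) (by omega)) (by positivity)
    have h3 : ν * (((ν : ℤ) - 1) * H * (κ ^ 2 * ν ^ 7)) + ν * Q ≤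
        ((ν : ℤ) - 1) * (κ ^ 2 * ν ^ 9 * H) := by
      have e1 : ((ν : ℤ) - 1) * (κ ^ 2 * ν ^ 9 * H) - ν * (((ν : ℤ) - 1) * H * (κ ^ 2 * ν ^ 7)) =
          ν * (((ν : ℤ) - 1) ^ 2 * (κ ^ 2 * ν ^ 7) * H) := by ring
      have e2 : (Q : ℤ) ≤ ((ν : ℤ) - 1) ^ 2 * (κ ^ 2 * ν ^ 7) * H := by
        have e3 : (Q : ℤ) ≤ H := by
          rw [hHz]
          have : (0 : ℤ) ≤ κ * e0 := by positivity
          omega
        have e4 : (1 : ℤ) ≤ ((ν : ℤ) - 1) ^ 2 * (κ ^ 2 * ν ^ 7) := by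
          have a1 : (0 : ℤ) < (ν : ℤ) - 1 := by omega
          have a2 : (0 : ℤ) < ((ν : ℤ) - 1) ^ 2 * (κ ^ 2 * ν ^ 7) := by positivity
          omega
        calc (Q : ℤ) ≤ 1 * H := by rw [one_mul]; exact e3
          _ ≤ _ := mul_le_mul_of_nonneg_right e4 (by positivity)
      have e5 : (ν : ℤ) * Q ≤ ν * (((ν : ℤ) - 1) ^ 2 * (κ ^ 2 * ν ^ 7) * H) :=
        mul_le_mul_of_nonneg_left e2 (by omega)
      linarith
    have h4 : (0 : ℤ) ≤ ((ν : ℤ) - 1) * e0 := mul_nonneg (by omega) (by positivity)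
    have h5 : (0 : ℤ) ≤ ν * (κ * ((ν : ℤ) - 1) * e0) := mul_nonneg (by omega) h2
    have h6 : (ν : ℤ) * (((ν : ℤ) - 1) * H * (κ ^ 2 * ν ^ 7 - κ ^ 2 * ν ^ 5 - κ * ν ^ 3) -
        κ * ((ν : ℤ) - 1) * e0 + Q) =
        ν * (((ν : ℤ) - 1) * H * (κ ^ 2 * ν ^ 7 - κ ^ 2 * ν ^ 5 - κ * ν ^ 3)) -
        ν * (κ * ((ν : ℤ) - 1) * e0) + ν * Q := by ring
    have h7 : ((ν : ℤ) - 1) * (κ ^ 2 * ν ^ 9 * H + e0) =
        ((ν : ℤ) - 1) * (κ ^ 2 * ν ^ 9 * H) + ((ν : ℤ) - 1) * e0 := by ring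
    rw [h6, h7]
    linarith only [h1, h3, h4, h5]
  -- bases
  obtain ⟨bt, hbt⟩ : ∃ bt : ℕ → ℕ, bt = fun j => min (j / N) (T.length - 1) := ⟨_, rfl⟩
  have hbtlt : ∀ j, bt j < T.length := by intro j; rw [hbt]; dsimp only; omega
  obtain ⟨base, hbase⟩ : ∃ base : ℕ → ℤ, base = fun j =>
    Dl κ ν C G V E (fun x => (tl x : ℤ)) (fun x => (la x : ℤ)) (tgT T (bt j)) (clT T (bt j)) +
      2 * ((κ : ℤ) * ν ^ 4) * ((j : ℤ) - ((N : ℤ) * bt j + s)) := ⟨_, rfl⟩
  have hN0 := hp.hN0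
  have hsN := hp.hs
  have hgap : ∀ j, j + 1 < m → base j + ((κ : ℤ) * ν ^ 4) ≤ base (j + 1) := by
    intro j _
    rw [hbase]
    dsimp only
    have hB : (0 : ℤ) < (κ : ℤ) * ν ^ 4 := by positivity
    by_cases hc : bt (j + 1) = bt j
    · rw [hc]
      have e1 : 2 * ((κ : ℤ) * ν ^ 4) * (((j + 1 : ℕ) : ℤ) - ((N : ℤ) * bt j + s)) =
          2 * ((κ : ℤ) * ν ^ 4) * ((j : ℤ) - ((N : ℤ) * bt j + s)) + 2 * ((κ : ℤ) * ν ^ 4) := by
        push_cast; ring
      rw [e1]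
      linarith only [hB]
    · have hdiv : (j + 1) / N = j / N + 1 ∧ bt (j + 1) = bt j + 1 := by
        have h1 : (j + 1) / N = j / N + if N ∣ j + 1 then 1 else 0 := Nat.succ_div
        have h2 : bt (j + 1) = min ((j + 1) / N) (T.length - 1) := by rw [hbt]
        have h3 : bt j = min (j / N) (T.length - 1) := by rw [hbt]
        split_ifs at h1 with h4
        · constructor
          · exact h1
          · omega
        · omega
      have hlt := hbtlt (j + 1)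
      rw [hdiv.2] at hlt ⊢
      have hpw := List.pairwise_iff_getElem.1 hTp (bt j) (bt j + 1) (by omega) hlt (by omega)
      have hg1 := hT1 (bt j) (by omega)
      have hg2 := hT1 (bt j + 1) hlt
      have hx1 : tgT T (bt j) = T[bt j].1 := by
        unfold tgT; rw [List.getD_eq_getElem _ _ (by omega)]
      have hx2 : tgT T (bt j + 1) = T[bt j + 1].1 := by
        unfold tgT; rw [List.getD_eq_getElem _ _ hlt]
      have hx3 : clT T (bt j) = T[bt j].2 := by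
        unfold clT; rw [List.getD_eq_getElem _ _ (by omega)]
      have hx4 : clT T (bt j + 1) = T[bt j + 1].2 := by
        unfold clT; rw [List.getD_eq_getElem _ _ hlt]
      rw [← hx1, ← hx2, ← hx3, ← hx4] at hpw
      have hG2 : (G : ℤ) = 2 * N * ν := by rw [hG]; push_cast; rfl
      have hgap := Dl_gap (κ := κ) (ν := ν) (C := C) (G := G) (V := V) (E := E)
        (tl := fun x => (tl x : ℤ)) (la := fun x => (la x : ℤ)) (M := M) (N := N) hνz
        (by exact_mod_cast hκM) hG2 (by exact_mod_cast hN0) hg2.1 hg2.2 hg1.2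
        (by
          intro x hx
          refine ⟨by positivity, ?_⟩
          have := htl x hx
          have : tl x ≤ N := by omega
          exact_mod_cast this)
        (by
          intro x hx
          refine ⟨by positivity, ?_⟩
          have := hlale x hx
          have : la x ≤ N := by omega
          exact_mod_cast this)
        (by
          intro h
          have : la (clT T (bt j + 1)) ≤ la (clT T (bt j)) := by
            rw [hla]
            exact Nat.pow_le_pow_right (by omega) (by unfold lam; omega)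
          exact_mod_cast this) hg1.1 hpw
      have e1 : 2 * ((κ : ℤ) * ν ^ 4) * (((j + 1 : ℕ) : ℤ) - ((N : ℤ) * ((bt j + 1 : ℕ) : ℤ) + s)) =
          2 * ((κ : ℤ) * ν ^ 4) * ((j : ℤ) - ((N : ℤ) * bt j + s)) + 2 * ((κ : ℤ) * ν ^ 4) -
          2 * N * ((κ : ℤ) * ν ^ 4) := by
        push_cast; ring
      rw [e1]
      linarith only [hB, hgap]
  have hbounds : ∀ j < m, (1 : ℤ) ≤ base j ∧ base j + ((κ : ℤ) * ν ^ 4) ≤ A + Q := by
    intro j hj
    rw [hbase]
    dsimp only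
    obtain ⟨hx, ha⟩ := hT1 (bt j) (hbtlt j)
    generalize tgT T (bt j) = x at *
    generalize clT T (bt j) = a at *
    rw [hCz, hEz, Dl_main, ← hA]
    have hoff1 : N * bt j + s < m := by
      have h1 := hbtlt j
      calc N * bt j + s < N * bt j + N := by omega
        _ = N * (bt j + 1) := by ring
        _ ≤ N * T.length := Nat.mul_le_mul_left _ h1
        _ ≤ m := by rw [hm]; exact Nat.le_add_right _ _
    have hoff2 : 2 * ((κ : ℤ) * ν ^ 4) * ((j : ℤ) - ((N : ℤ) * bt j + s)) ≤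
        2 * ((κ : ℤ) * ν ^ 4) * m := by
      apply mul_le_mul_of_nonneg_left _ (by positivity)
      have : (0 : ℤ) ≤ (N : ℤ) * bt j + s := by positivity
      omega
    have hoff3 : -(2 * ((κ : ℤ) * ν ^ 4) * m) ≤
        2 * ((κ : ℤ) * ν ^ 4) * ((j : ℤ) - ((N : ℤ) * bt j + s)) := by
      rw [← mul_neg]
      apply mul_le_mul_of_nonneg_left _ (by positivity)
      have : (N : ℤ) * bt j + s < m := by exact_mod_cast hoff1
      omega
    have q1 : (κ : ℤ) ^ 2 * ν ^ 7 * (((x : ℤ) + 1) * G) ≤ κ ^ 2 * ν ^ 7 * ((M + 1) * G) := by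
      apply mul_le_mul_of_nonneg_left _ (by positivity)
      apply mul_le_mul_of_nonneg_right _ (by positivity)
      omega
    have q1' : (0 : ℤ) ≤ (κ : ℤ) ^ 2 * ν ^ 7 * (((x : ℤ) + 1) * G) := by positivity
    have q2 : (κ : ℤ) * ν ^ 3 * (((a : ℤ) + 1) * G) ≤ κ * ν ^ 3 * ((M + 1) * G) := by
      apply mul_le_mul_of_nonneg_left _ (by positivity)
      apply mul_le_mul_of_nonneg_right _ (by positivity)
      omega
    have q2' : (0 : ℤ) ≤ (κ : ℤ) * ν ^ 3 * (((a : ℤ) + 1) * G) := by positivity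
    have q3 : (κ : ℤ) * ν ^ 3 * tl x ≤ κ * ν ^ 3 * Y := by
      apply mul_le_mul_of_nonneg_left _ (by positivity)
      have := htl x hx.le
      rw [← hY] at this
      exact_mod_cast this
    have q3' : (0 : ℤ) ≤ (κ : ℤ) * ν ^ 3 * tl x := by positivity
    have q4 : (la a : ℤ) ≤ Y := by exact_mod_cast hlale a ha.le
    have q4' : (0 : ℤ) ≤ (la a : ℤ) := by positivity
    have q5 : (0 : ℤ) ≤ (V : ℤ) := by positivity
    have hQz : (Q : ℤ) = κ ^ 2 * ν ^ 7 * ((M + 1) * G) + κ * ν ^ 3 * Y + V + Y +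
        κ * ν ^ 3 * ((M + 1) * G) + 2 * (κ * ν ^ 4) * m + κ * ν ^ 4 +
        κ * ν ^ 4 * ((M + 1) * G) + 1 := by
      rw [hQ]; push_cast; ring
    have q6 : (0 : ℤ) ≤ κ * ν ^ 4 * ((M + 1) * G) := by positivity
    have q7 : (0 : ℤ) ≤ (κ : ℤ) * ν ^ 4 := by positivity
    have q8 : (0 : ℤ) ≤ κ ^ 2 * ν ^ 7 * ((M + 1) * G) := by positivity
    have q9 : (0 : ℤ) ≤ κ * ν ^ 3 * Y := by positivity
    have q10 : (0 : ℤ) ≤ κ * ν ^ 3 * ((M + 1) * G) := by positivity
    constructor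
    · linarith only [hAlo, hQz, hoff3, q1', q2, q3', q4, q5, q6, q7, q8, q9, q10]
    · linarith only [hQz, hoff2, q1, q2', q3, q4', q5, q6, q7, q8, q9, q10]
  obtain ⟨cc, hcc⟩ : ∃ cc : ℕ → ℕ, cc = fun x => ν ^ K * (C + (x + 1) * G) + tl x := ⟨_, rfl⟩
  have hclass : ∀ E' c' δ' j, (pdat ν K N M T life E' c' δ').cl j =
      if j < N * T.length then clT T (j / N) else M := fun _ _ _ _ => rfl
  obtain ⟨δ, hδ1, hδ2, hδ3, hδ4⟩ := exists_seq m base ((κ : ℤ) * ν ^ 4) 1 (A + Q)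
    (fun j => ν ^ life j)
    (fun j => -((cc ((pdat ν K N M T life E cc (fun _ => 0)).cl j) / ν + Wf ν (life j) +
      E * (pdat ν K N M T life E cc (fun _ => 0)).pw
        ((pdat ν K N M T life E cc (fun _ => 0)).cl j) j + ν ^ (life j - 1) : ℕ) : ℤ))
    (fun j => life j = K)
    (by
      intro j
      refine ⟨pow_pos (by omega) _, ?_⟩
      have h1 : ν ^ life j ≤ ν ^ K := Nat.pow_le_pow_right (by omega) (hp.life_le j)
      rw [hK0] at h1
      exact_mod_cast h1)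
    hgap (by norm_num) hbounds (by positivity)
  refine ⟨E, fun x => C + (x + 1) * G, δ, ?_⟩
  have hmD : (pdat ν K N M T life E (fun x => ν ^ K * (C + (x + 1) * G) + tl x) δ).m = m := by
    rw [hm]; rfl
  have hHpos : 0 < H := by rw [hH, hQ]; omega
  have hEpos : 0 < E := by
    rw [hE]
    have : 0 < ν - 1 := by omega
    positivity
  have hδhi : ∀ j < m, ν * δ j ≤ E := by
    intro j hj
    have h1 := (hδ4 j hj).2
    have h2 : (ν : ℤ) * δ j ≤ E :=
      (mul_le_mul_of_nonneg_left h1 (by omega)).trans hAhi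
    exact_mod_cast h2
  have hδlo : ∀ j < m, 1 ≤ δ j := by
    intro j hj
    have h1 := (hδ4 j hj).1
    exact_mod_cast h1
  have hδmono : ∀ d i, i + d + 1 < m → δ i < δ (i + d + 1) := by
    intro d
    induction d with
    | zero => intro i hi; exact hδ3 i hi
    | succ d ih =>
      intro i hi
      have h1 := ih i (by omega)
      have h2 := hδ3 (i + d + 1) hi
      exact h1.trans h2
  refine ⟨⟨?_, ?_⟩, hEpos, ?_, ?_, ?_, ?_, ?_, ?_⟩
  · -- offsets are small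
    intro d hd
    unfold Dat.Ol at hd
    rw [List.mem_cons, List.mem_map] at hd
    rcases hd with rfl | ⟨j, hj, rfl⟩
    · show 1 < E + 1
      omega
    · rw [List.mem_range, hmD] at hj
      have := hδhi j hj
      show ν * δ j < E + 1
      omega
  · unfold Dat.Ol
    rw [List.pairwise_cons]
    constructor
    · intro d hd
      rw [List.mem_map] at hd
      obtain ⟨j, hj, rfl⟩ := hd
      rw [List.mem_range, hmD] at hj
      show 1 < ν * δ j
      have := hδlo j hj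
      nlinarith
    · rw [List.pairwise_map]
      refine List.Pairwise.imp_of_mem ?_ List.pairwise_lt_range
      intro i j hi hj hij
      rw [List.mem_range, hmD] at hi hj
      obtain ⟨d, rfl⟩ : ∃ d, j = i + d + 1 := ⟨j - i - 1, by omega⟩
      have := hδmono d i hj
      show ν * δ i < ν * δ (i + d + 1)
      exact Nat.mul_lt_mul_of_pos_left this (by omega)
  · show ν - 1 ∣ E
    rw [hE]
    exact Dvd.intro _ rfl
  · show ∃ z, E = ν ^ 2 * z + ν + 1
    refine ⟨(ν - 1) * (κ ^ 2 * ν ^ 7 * H) + (ν - 3), ?_⟩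
    obtain ⟨n, rfl⟩ : ∃ n, ν = n + 3 := ⟨ν - 3, by omega⟩
    rw [hE]
    have h1 : n + 3 - 1 = n + 2 := by omega
    have h2 : n + 3 - 3 = n := by omega
    rw [h1, h2]
    have h3 : e0 = (n + 3) ^ 2 - 2 * (n + 3) - 1 := by omega
    have h4 : e0 = n ^ 2 + 4 * n + 2 := by
      have : (n + 3) ^ 2 = n ^ 2 + 4 * n + 2 + 2 * (n + 3) + 1 := by ring
      omega
    rw [h4]
    ring
  · intro x
    rfl
  · intro y hy
    show ν ^ K * (C + (y + 1) * G) + tl y + E + 1 ≤ R * E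
    have h1 : ν ^ K * C + (κ * ν ^ 4 * ((M + 1) * G) + Y + 1) ≤ 2 * E := by
      have h2 : κ * ν ^ 4 * ((M + 1) * G) + Y + 1 ≤ H := by
        rw [hH, hQ]
        have : 0 ≤ κ ^ 2 * ν ^ 7 * ((M + 1) * G) := Nat.zero_le _
        omega
      have h3 : H ≤ E := by
        rw [hE]
        calc H = 1 * (1 * H) := by ring
          _ ≤ (ν - 1) * (κ ^ 2 * ν ^ 9 * H + e0) := by
            apply Nat.mul_le_mul (by omega)
            have : 1 * H ≤ κ ^ 2 * ν ^ 9 * H :=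
              Nat.mul_le_mul_right _ (Nat.succ_le_of_lt (by positivity))
            omega
      have h4 : ν ^ K * C ≤ E := by
        rw [hE, hC, hK0]
        calc κ * ν ^ 4 * ((ν - 1) * (κ * ν ^ 2 + 1) * H) =
              (ν - 1) * (κ * ν ^ 4 * (κ * ν ^ 2 + 1) * H) := by ring
          _ ≤ (ν - 1) * (κ ^ 2 * ν ^ 9 * H + e0) := by
            apply Nat.mul_le_mul_left
            have : κ * ν ^ 4 * (κ * ν ^ 2 + 1) ≤ κ ^ 2 * ν ^ 9 := by
              have a1 : κ * ν ^ 2 + 1 ≤ κ * ν ^ 3 := by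
                have : κ * ν ^ 3 = κ * ν ^ 2 * ν := by ring
                rw [this]
                have : 1 ≤ κ * ν ^ 2 := Nat.succ_le_of_lt (by positivity)
                nlinarith
              calc κ * ν ^ 4 * (κ * ν ^ 2 + 1) ≤ κ * ν ^ 4 * (κ * ν ^ 3) :=
                    Nat.mul_le_mul_left _ a1
                _ = κ ^ 2 * ν ^ 7 := by ring
                _ ≤ _ := Nat.mul_le_mul_left _ (Nat.pow_le_pow_right (by omega) (by norm_num))
            calc _ ≤ κ ^ 2 * ν ^ 9 * H := Nat.mul_le_mul_right _ this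
              _ ≤ _ := Nat.le_add_right _ _
      omega
    have h2 : ν ^ K * (C + (y + 1) * G) ≤ ν ^ K * C + κ * ν ^ 4 * ((M + 1) * G) := by
      rw [Nat.mul_add, hK0]
      apply Nat.add_le_add_left
      apply Nat.mul_le_mul_left
      apply Nat.mul_le_mul_right
      omega
    have h3 := htl y hy.le
    rw [← hY] at h3
    have h4 : 3 * E ≤ R * E := Nat.mul_le_mul_right _ hR
    omega
  · intro j hj hlife
    rw [hmD] at hj
    have hlife' : life j = K := hlife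
    obtain ⟨h1, h2⟩ := (hp.life_eq j).1 hlife'
    have h3 := hδ1 j hj hlife'
    have hr : j / N < T.length := Nat.div_lt_of_lt_mul h1
    have hbj : bt j = j / N := by rw [hbt]; dsimp only; omega
    have hjs : (j : ℤ) - ((N : ℤ) * bt j + s) = 0 := by
      rw [hbj]
      have := Nat.div_add_mod j N
      rw [h2] at this
      have : ((N * (j / N) + s : ℕ) : ℤ) = j := by rw [this]
      push_cast at this
      push_cast
      omega
    rw [hbase] at h3
    dsimp only at h3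
    rw [hjs, mul_zero, add_zero, hbj] at h3
    have hcl : (pdat ν K N M T life E (fun x => ν ^ K * (C + (x + 1) * G) + tl x) δ).cl j =
        clT T (j / N) := by
      rw [hclass, if_pos h1]
    rw [hcl]
    show (ν ^ K * (C + (clT T (j / N) + 1) * G) + tl (clT T (j / N))) / ν + δ j + Wf ν (K - 1) +
      ν ^ (K - 4) * E = ν ^ (K - 1) * (ν ^ K * (C + (tgT T (j / N) + 1) * G) + tl (tgT T (j / N)))
    rw [htla _ hr]
    generalize clT T (j / N) = a at *
    generalize tgT T (j / N) = x at *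
    have hquot : (ν ^ K * (C + (a + 1) * G) + ν ^ lam a) / ν =
        κ * ν ^ 3 * (C + (a + 1) * G) + la a := by
      have e1 : ν ^ K * (C + (a + 1) * G) + ν ^ lam a =
          ν * (κ * ν ^ 3 * (C + (a + 1) * G) + la a) := by
        rw [hK0, hla]
        have : ν ^ lam a = ν * ν ^ (lam a - 1) := by
          rw [← pow_succ']; congr 1
        dsimp only
        rw [this]
        ring
      rw [e1, Nat.mul_div_cancel_left _ (by omega)]
    rw [hquot, ← hκ, ← hV, hK1, hK0]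
    unfold Dl at h3
    have : ((κ * ν ^ 3 * (C + (a + 1) * G) + la a + δ j + V + κ * E : ℕ) : ℤ) =
        ((κ * ν ^ 3 * (κ * ν ^ 4 * (C + (x + 1) * G) + tl x) : ℕ) : ℤ) := by
      push_cast
      rw [h3]
      ring
    exact_mod_cast this
  · intro j hj hlife
    rw [hmD] at hj
    have hlife' : life j < K := hlife
    have h3 := hδ2 j hj (by omega)
    rw [sub_neg_eq_add] at h3
    have h4 : ν ^ life j ∣ δ j + (cc ((pdat ν K N M T life E cc (fun _ => 0)).cl j) / ν +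
      Wf ν (life j) + E * (pdat ν K N M T life E cc (fun _ => 0)).pw
        ((pdat ν K N M T life E cc (fun _ => 0)).cl j) j + ν ^ (life j - 1)) := by
      exact_mod_cast h3
    show ν ^ life j ∣ (pdat ν K N M T life E (fun x => ν ^ K * (C + (x + 1) * G) + tl x) δ).c
      ((pdat ν K N M T life E (fun x => ν ^ K * (C + (x + 1) * G) + tl x) δ).cl j) / ν + δ j +
      Wf ν (life j) + E *
      (pdat ν K N M T life E (fun x => ν ^ K * (C + (x + 1) * G) + tl x) δ).pw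
        ((pdat ν K N M T life E (fun x => ν ^ K * (C + (x + 1) * G) + tl x) δ).cl j) j +
      ν ^ (life j - 1)
    have e1 : (pdat ν K N M T life E (fun x => ν ^ K * (C + (x + 1) * G) + tl x) δ).cl j =
        (pdat ν K N M T life E cc (fun _ => 0)).cl j := rfl
    have e2 : ∀ a, (pdat ν K N M T life E (fun x => ν ^ K * (C + (x + 1) * G) + tl x) δ).pw a j =
        (pdat ν K N M T life E cc (fun _ => 0)).pw a j := fun _ => rfl
    have e3 : ∀ a, (pdat ν K N M T life E (fun x => ν ^ K * (C + (x + 1) * G) + tl x) δ).c a =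
        cc a := by intro a; rw [hcc]; rfl
    rw [e1, e2, e3]
    convert h4 using 1
    ring

end Pool.Agent.H97.Tag
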