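import Pool.Agent.H97.Tag.Blk

/-!
# The evolution of one group of cells
-/

set_option autoImplicit false

namespace Pool.Agent.H97.Tag

open Finset

/-- `1 + ν + … + ν ^ (n - 1)`. -/
def Wf (ν n : ℕ) : ℕ := ∑ i ∈ range n, ν ^ i

theorem Wf_succ (ν n : ℕ) : Wf ν (n + 1) = Wf ν n + ν ^ n := Finset.sum_range_succ _ _

@[simp] theorem Wf_zero (ν : ℕ) : Wf ν 0 = 0 := rfl

/-- The level at which the code of the letter `a` has its digit `1`. -/
def lam (a : ℕ) : ℕ := 2 * a + 4

/-- The data of the construction: deletion number, block length `E + 1`, number `K` of passes,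
number `m` of blocks in a production, code offsets of the letters, classes, lives and offsets of
the blocks. -/
structure Dat where
  /-- the deletion number -/
  ν : ℕ
  /-- the length of the long production is `E + 1` -/
  E : ℕ
  /-- the number of passes in a cycle -/
  K : ℕ
  /-- the number of blocks made by an active block -/
  m : ℕ
  /-- the offset of the block in the cell of a letter -/
  c : ℕ → ℕ
  /-- the class of a block -/
  cl : ℕ → ℕ
  /-- the life of a block -/
  life : ℕ → ℕ
  /-- the offset of a block -/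
  δ : ℕ → ℕ

namespace Dat

variable (D : Dat)

/-- The offsets of the letters `true` in the long production. -/
def Ol : List ℕ := 1 :: (List.range D.m).map (fun j => D.ν * D.δ j)

/-- The pass at which a block of the group of the letter `a` dies or multiplies. -/
def dt (a j : ℕ) : ℕ :=
  if D.cl j = a then D.life j else if D.cl j < a then lam (D.cl j) else lam a

/-- The number of letters `true` read in the block `j` in the pass `u`. -/
def rdn (a j u : ℕ) : ℕ :=
  if u < D.dt a j then 1 else if u = D.dt a j ∧ a < D.cl j then D.m else 0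

/-- The number of letters `true` read before the block `j` in the pass `u`. -/
def Iu (a u j : ℕ) : ℕ := ∑ i ∈ range j, D.rdn a i u

/-- The basic quantity. -/
def Q (a t j : ℕ) : ℕ :=
  D.c a / D.ν + D.δ j + Wf D.ν t + D.E * ∑ u ∈ range t, D.Iu a u j * D.ν ^ u

/-- The position of the block `j` at stage `t + 1`. -/
def X (a t j : ℕ) : ℕ := D.Q a t j / D.ν ^ t + D.E * D.Iu a t j

/-- Nothing is read in a block at such a position. -/
def Dead (p : ℕ) : Prop := ¬ D.ν ∣ p ∧ ¬ D.ν ∣ p + 1

/-- The positions of the blocks at stage `s ≥ 1` which descend from the block `j`. -/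
def AS (a s j : ℕ) : List ℕ :=
  if s ≤ D.dt a j then [D.X a (s - 1) j]
  else if s = D.dt a j + 1 ∧ a < D.cl j then
    (List.range D.m).map (fun i => D.X a (D.dt a j - 1) j / D.ν + D.δ i +
      D.E * (D.Iu a (D.dt a j) j + i))
  else []

theorem Q_succ (a t j : ℕ) :
    D.Q a (t + 1) j = D.Q a t j + D.ν ^ t + D.E * (D.Iu a t j * D.ν ^ t) := by
  unfold Q
  rw [Wf_succ, Finset.sum_range_succ]
  ring

theorem X_add_one (hν : 0 < D.ν) (a t j : ℕ) (h : D.ν ^ t ∣ D.Q a t j) :
    D.ν ^ t * (D.X a t j + 1) = D.Q a (t + 1) j := by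
  obtain ⟨z, hz⟩ := h
  unfold X
  rw [Q_succ, hz, Nat.mul_div_cancel_left _ (pow_pos hν _)]
  ring

theorem reads_neg_one (hν : 2 ≤ D.ν) {p : ℕ} (h : D.ν ∣ p + 1) :
    reads D.ν D.Ol p = [(p + 1) / D.ν] := by
  have h0 : ¬ D.ν ∣ p := by
    intro h'
    have := (Nat.dvd_add_right h').1 h
    rw [Nat.dvd_one] at this
    omega
  unfold reads Ol
  rw [List.filter_cons, if_pos (by simpa using h)]
  have : (List.map (fun j => D.ν * D.δ j) (List.range D.m)).filter (fun d => D.ν ∣ p + d) = [] := by
    rw [List.filter_eq_nil_iff]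
    intro d hd
    rw [List.mem_map] at hd
    obtain ⟨j, _, rfl⟩ := hd
    simp only [decide_eq_true_eq]
    intro h2
    exact h0 ((Nat.dvd_add_left (Dvd.intro _ rfl)).1 h2)
  rw [this]
  rfl

theorem reads_zero (hν : 2 ≤ D.ν) {p : ℕ} (h : D.ν ∣ p) :
    reads D.ν D.Ol p = (List.range D.m).map (fun j => p / D.ν + D.δ j) := by
  have h0 : ¬ D.ν ∣ p + 1 := by
    intro h'
    have := (Nat.dvd_add_right h).1 h'
    rw [Nat.dvd_one] at this
    omega
  unfold reads Ol
  rw [List.filter_cons, if_neg (by simpa using h0)]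
  have : (List.map (fun j => D.ν * D.δ j) (List.range D.m)).filter (fun d => D.ν ∣ p + d) =
      List.map (fun j => D.ν * D.δ j) (List.range D.m) := by
    rw [List.filter_eq_self]
    intro d hd
    rw [List.mem_map] at hd
    obtain ⟨j, _, rfl⟩ := hd
    simp only [decide_eq_true_eq]
    exact Dvd.dvd.add h (Dvd.intro _ rfl)
  rw [this, List.map_map]
  apply List.map_congr_left
  intro j _
  obtain ⟨z, rfl⟩ := h
  simp only [Function.comp_apply]
  rw [← Nat.mul_add, Nat.mul_div_cancel_left _ (by omega), Nat.mul_div_cancel_left _ (by omega)]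

theorem reads_dead {p : ℕ} (h : D.Dead p) : reads D.ν D.Ol p = [] := by
  unfold reads Ol
  rw [List.map_eq_nil_iff, List.filter_eq_nil_iff]
  intro d hd
  rw [List.mem_cons, List.mem_map] at hd
  simp only [decide_eq_true_eq]
  rcases hd with rfl | ⟨j, _, rfl⟩
  · exact h.2
  · intro h2
    exact h.1 ((Nat.dvd_add_left (Dvd.intro _ rfl)).1 h2)

/-- The conditions on the blocks of the group of the letter `a`. -/
structure Cond (a : ℕ) : Prop where
  persist : ∀ j < D.m, ∀ s, 1 ≤ s → s < D.dt a j → s < D.K → D.ν ^ s ∣ D.Q a s j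
  die : ∀ j < D.m, ¬ a < D.cl j → ∀ s, 1 ≤ s → s = D.dt a j → s < D.K →
    D.ν ^ s ∣ D.Q a s j + D.ν ^ (s - 1)
  multiply : ∀ j < D.m, a < D.cl j → ∀ s, 1 ≤ s → s = D.dt a j →
    ∃ z, D.Q a s j = D.ν ^ (s - 1) * (1 + D.ν * z) ∧
      ∀ i < D.m, D.Dead (z + D.δ i + D.E * (D.Iu a s j + i))
  four : ∀ j < D.m, 4 ≤ D.dt a j
  small : ∀ j < D.m, a < D.cl j → D.dt a j + 1 < D.K

variable {D}

theorem ixs_map_range (E : ℕ) (f : ℕ → ℕ) (n : ℕ) :
    ∀ o, ixs E o ((List.range n).map f) = (List.range n).map (fun i => f i + E * (o + i)) := by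
  induction n with
  | zero => intro o; rfl
  | succ n ih =>
    intro o
    rw [List.range_succ, List.map_append, ixs_append, ih, List.map_append]
    simp

theorem ixs_flatMap (E : ℕ) (f : ℕ → List ℕ) (n : ℕ) :
    ∀ o, ixs E o ((List.range n).flatMap f) =
      (List.range n).flatMap (fun j => ixs E (o + ∑ i ∈ range j, (f i).length) (f j)) := by
  induction n with
  | zero => intro o; rfl
  | succ n ih =>
    intro o
    rw [List.range_succ, List.flatMap_append, ixs_append, ih, List.flatMap_append]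
    congr 1
    simp only [List.flatMap_cons, List.flatMap_nil, List.append_nil]
    congr 2
    rw [List.length_flatMap]
    clear ih
    induction n with
    | zero => rfl
    | succ n ih => rw [List.range_succ, List.map_append, List.sum_append, Finset.sum_range_succ, ih]
                   simp

/-- One pass for the descendants of one block. -/
theorem step_AS {a : ℕ} (hν : 3 ≤ D.ν) (hC : D.Cond a) {j : ℕ} (hj : j < D.m) {s : ℕ}
    (hs : 1 ≤ s) (hsK : s < D.K) :
    ((D.AS a s j).flatMap (reads D.ν D.Ol)).length = D.rdn a j s ∧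
    ixs D.E (D.Iu a s j) ((D.AS a s j).flatMap (reads D.ν D.Ol)) = D.AS a (s + 1) j := by
  have h4 := hC.four j hj
  obtain ⟨t, rfl⟩ : ∃ t, s = t + 1 := ⟨s - 1, by omega⟩
  have hpt : ∀ t', t' < D.dt a j → t' < D.K → D.ν ^ t' ∣ D.Q a t' j := by
    intro t' h1 h2
    rcases Nat.eq_zero_or_pos t' with rfl | h
    · simp
    · exact hC.persist j hj t' h h1 h2
  rcases lt_trichotomy (t + 1) (D.dt a j) with hlt | heq | hgt
  · -- persists
    have e1 : D.AS a (t + 1) j = [D.X a t j] := by
      unfold AS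
      rw [if_pos (by omega)]
      simp
    have e2 : D.AS a (t + 1 + 1) j = [D.X a (t + 1) j] := by
      unfold AS
      rw [if_pos (by omega)]
      simp
    have hx := D.X_add_one (by omega) a t j (hpt t (by omega) (by omega))
    obtain ⟨z, hz⟩ := hpt (t + 1) hlt hsK
    have hx1 : D.X a t j + 1 = D.ν * z := by
      have : D.ν ^ t * (D.X a t j + 1) = D.ν ^ t * (D.ν * z) := by
        rw [hx, hz]; ring
      exact Nat.eq_of_mul_eq_mul_left (pow_pos (by omega) _) this
    have hr : reads D.ν D.Ol (D.X a t j) = [z] := by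
      rw [reads_neg_one D (by omega) (by rw [hx1]; exact Dvd.intro _ rfl), hx1,
        Nat.mul_div_cancel_left _ (by omega)]
    have hd : D.rdn a j (t + 1) = 1 := by unfold rdn; rw [if_pos hlt]
    rw [e1, e2, hd]
    simp only [List.flatMap_cons, List.flatMap_nil, List.append_nil, hr, ixs_cons, ixs_nil,
      List.length_cons, List.length_nil]
    refine ⟨by trivial, ?_⟩
    unfold X
    rw [hz, Nat.mul_div_cancel_left _ (pow_pos (by omega) _)]
  · -- dies or multiplies
    have e1 : D.AS a (t + 1) j = [D.X a t j] := by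
      unfold AS
      rw [if_pos (by omega)]
      simp
    have hx := D.X_add_one (by omega) a t j (hpt t (by omega) (by omega))
    by_cases hcl : a < D.cl j
    · obtain ⟨z, hz, _⟩ := hC.multiply j hj hcl (t + 1) (by omega) heq
      simp only [Nat.add_sub_cancel] at hz
      have hx1 : D.X a t j = D.ν * z := by
        have : D.ν ^ t * (D.X a t j + 1) = D.ν ^ t * (1 + D.ν * z) := by
          rw [hx, hz]
        have := Nat.eq_of_mul_eq_mul_left (pow_pos (by omega) _) this
        omega
      have hr : reads D.ν D.Ol (D.X a t j) = (List.range D.m).map (fun i => z + D.δ i) := by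
        rw [reads_zero D (by omega) (by rw [hx1]; exact Dvd.intro _ rfl), hx1]
        rw [Nat.mul_div_cancel_left _ (by omega)]
      have hd : D.rdn a j (t + 1) = D.m := by
        unfold rdn
        rw [if_neg (by omega), if_pos ⟨heq, hcl⟩]
      rw [e1, hd]
      simp only [List.flatMap_cons, List.flatMap_nil, List.append_nil, hr, List.length_map,
        List.length_range, true_and]
      rw [ixs_map_range]
      unfold AS
      rw [if_neg (by omega), if_pos ⟨by omega, hcl⟩, ← heq]
      simp only [Nat.add_sub_cancel]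
      rw [hx1, Nat.mul_div_cancel_left _ (by omega)]
    · have hz := hC.die j hj hcl (t + 1) (by omega) heq hsK
      simp only [Nat.add_sub_cancel] at hz
      have hdead : D.Dead (D.X a t j) := by
        obtain ⟨z, hz⟩ := hz
        have h1 : D.X a t j + 1 + 1 = D.ν * z := by
          have : D.ν ^ t * (D.X a t j + 1 + 1) = D.ν ^ t * (D.ν * z) := by
            rw [Nat.mul_add _ _ 1, hx, Nat.mul_one, hz]; ring
          exact Nat.eq_of_mul_eq_mul_left (pow_pos (by omega) _) this
        constructor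
        · intro h
          have h2 : D.ν ∣ D.X a t j + 2 := ⟨z, by omega⟩
          have := Nat.le_of_dvd (by norm_num) ((Nat.dvd_add_right h).1 h2)
          omega
        · intro h
          have h2 : D.ν ∣ D.X a t j + 1 + 1 := ⟨z, by omega⟩
          have := Nat.le_of_dvd (by norm_num) ((Nat.dvd_add_right h).1 h2)
          omega
      have hd : D.rdn a j (t + 1) = 0 := by
        unfold rdn
        rw [if_neg (by omega), if_neg (by rintro ⟨_, h⟩; exact hcl h)]
      rw [e1, hd]
      simp only [List.flatMap_cons, List.flatMap_nil, List.append_nil, D.reads_dead hdead,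
        List.length_nil, ixs_nil, true_and]
      unfold AS
      rw [if_neg (by omega), if_neg (by rintro ⟨_, h⟩; exact hcl h)]
  · -- after its death
    have hd : D.rdn a j (t + 1) = 0 := by
      unfold rdn
      rw [if_neg (by omega), if_neg (by rintro ⟨h, _⟩; omega)]
    have e2 : D.AS a (t + 1 + 1) j = [] := by
      unfold AS
      rw [if_neg (by omega), if_neg (by rintro ⟨h, _⟩; omega)]
    rw [hd, e2]
    suffices h : (D.AS a (t + 1) j).flatMap (reads D.ν D.Ol) = [] by
      rw [h]; exact ⟨rfl, rfl⟩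
    unfold AS
    rw [if_neg (by omega)]
    split_ifs with h
    · rw [List.flatMap_eq_nil_iff]
      intro p hp
      rw [List.mem_map] at hp
      obtain ⟨i, hi, rfl⟩ := hp
      rw [List.mem_range] at hi
      obtain ⟨z, hz, hdead⟩ := hC.multiply j hj h.2 (D.dt a j) (by omega) rfl
      have hx := D.X_add_one (by omega) a (D.dt a j - 1) j
        (hpt _ (by omega) (by have := hC.small j hj h.2; omega))
      rw [show D.dt a j - 1 + 1 = D.dt a j by omega] at hx
      have hx1 : D.X a (D.dt a j - 1) j = D.ν * z := by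
        have : D.ν ^ (D.dt a j - 1) * (D.X a (D.dt a j - 1) j + 1) =
            D.ν ^ (D.dt a j - 1) * (1 + D.ν * z) := by rw [hx, hz]
        have := Nat.eq_of_mul_eq_mul_left (pow_pos (by omega) _) this
        omega
      rw [hx1, Nat.mul_div_cancel_left _ (by omega)]
      exact D.reads_dead (hdead i hi)
    · rfl

/-- The positions at stage `s ≥ 1` in the group of the letter `a`. -/
def pss (D : Dat) (a s : ℕ) (P : List ℕ) : List ℕ :=
  (List.range D.m).flatMap (D.AS a s) ++ if s = 1 then P else []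

/-- The length at stage `s` is `Sm a B s / ν ^ (s - 1)`. -/
def Sm (D : Dat) (a B s : ℕ) : ℕ := B + D.E * ∑ u ∈ range s, D.Iu a u D.m * D.ν ^ u

/-- The length at stage `s ≥ 1`. -/
def Ls (D : Dat) (a B s : ℕ) : ℕ := D.Sm a B s / D.ν ^ (s - 1)

/-- The structural conditions on the offsets. -/
structure Off (D : Dat) : Prop where
  lt : ∀ d ∈ D.Ol, d < D.E + 1
  sorted : D.Ol.Pairwise (· < ·)

/-- One sweep. -/
def pass (D : Dat) (w : List Bool) : List Bool := rd D.ν (wd D.Ol D.E) 0 w

theorem stage_succ {a B : ℕ} {P : List ℕ} (hν : 3 ≤ D.ν) (hO : D.Off) (hC : D.Cond a)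
    (hP : ∀ p ∈ P, D.Dead p) {s : ℕ} (hs : 1 ≤ s) (hsK : s < D.K)
    (hL : D.ν ^ s ∣ D.Sm a B s) (hg : Good D.E (D.Ls a B s) (D.pss a s P)) :
    D.ν ∣ D.Ls a B s ∧
    D.pass (blk D.Ol (D.Ls a B s) (D.pss a s P)) =
      blk D.Ol (D.Ls a B (s + 1)) (D.pss a (s + 1) P) ∧
    Good D.E (D.Ls a B (s + 1)) (D.pss a (s + 1) P) := by
  obtain ⟨z, hz⟩ := hL
  have hνs : 0 < D.ν ^ (s - 1) := pow_pos (by omega) _
  have hLs : D.Ls a B s = D.ν * z := by
    unfold Ls
    rw [hz]
    have : D.ν ^ s = D.ν ^ (s - 1) * D.ν := by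
      rw [← pow_succ]; congr 1; omega
    rw [this, Nat.mul_assoc, Nat.mul_div_cancel_left _ hνs]
  have hr : (D.pss a s P).flatMap (reads D.ν D.Ol) =
      (List.range D.m).flatMap (fun j => (D.AS a s j).flatMap (reads D.ν D.Ol)) := by
    unfold pss
    rw [List.flatMap_append, List.flatMap_assoc]
    have : (if s = 1 then P else []).flatMap (reads D.ν D.Ol) = [] := by
      rw [List.flatMap_eq_nil_iff]
      intro p hp
      split_ifs at hp with h
      · exact D.reads_dead (hP p hp)
      · simp at hp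
    rw [this, List.append_nil]
  have hlen : ((D.pss a s P).flatMap (reads D.ν D.Ol)).length = D.Iu a s D.m := by
    rw [hr, List.length_flatMap]
    unfold Iu
    have : ∀ n, n ≤ D.m → (List.map (fun j => ((D.AS a s j).flatMap (reads D.ν D.Ol)).length)
        (List.range n)).sum = ∑ i ∈ range n, D.rdn a i s := by
      intro n
      induction n with
      | zero => intro _; rfl
      | succ n ih =>
        intro hn
        rw [List.range_succ, List.map_append, List.sum_append, ih (by omega),
          Finset.sum_range_succ]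
        simp only [List.map_cons, List.map_nil, List.sum_cons, List.sum_nil, Nat.add_zero]
        rw [(step_AS hν hC (show n < D.m by omega) hs hsK).1]
    exact this D.m le_rfl
  have hix : ixs D.E 0 ((D.pss a s P).flatMap (reads D.ν D.Ol)) = D.pss a (s + 1) P := by
    rw [hr, ixs_flatMap]
    unfold pss
    rw [if_neg (by omega), List.append_nil]
    apply List.flatMap_congr
    intro j hj
    rw [List.mem_range] at hj
    have : (0 + ∑ i ∈ range j, ((D.AS a s i).flatMap (reads D.ν D.Ol)).length) = D.Iu a s j := by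
      rw [zero_add]
      unfold Iu
      apply Finset.sum_congr rfl
      intro i hi
      rw [Finset.mem_range] at hi
      exact (step_AS hν hC (show i < D.m by omega) hs hsK).1
    rw [this]
    exact (step_AS hν hC hj hs hsK).2
  have hL2 : D.Ls a B (s + 1) = z + D.E * D.Iu a s D.m := by
    unfold Ls
    have : D.Sm a B (s + 1) = D.ν ^ s * (z + D.E * D.Iu a s D.m) := by
      have h1 : D.Sm a B (s + 1) = D.Sm a B s + D.E * (D.Iu a s D.m * D.ν ^ s) := by
        unfold Sm
        rw [Finset.sum_range_succ]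
        ring
      rw [h1, hz]
      ring
    rw [this, Nat.add_sub_cancel, Nat.mul_div_cancel_left _ (pow_pos (by omega) _)]
  rw [hLs] at hg ⊢
  obtain ⟨h1, h2⟩ := rd_blk (ν := D.ν) (by omega) hO.lt hO.sorted hg
  rw [hlen, hix, ← hL2] at h1 h2
  exact ⟨Dvd.intro _ rfl, h1, h2⟩

/-- All stages of a group. -/
theorem stages {a B : ℕ} {P : List ℕ} (hν : 3 ≤ D.ν) (hO : D.Off) (hC : D.Cond a)
    (hP : ∀ p ∈ P, D.Dead p) (hL : ∀ s, 1 ≤ s → s < D.K → D.ν ^ s ∣ D.Sm a B s)
    (hg : Good D.E (D.Ls a B 1) (D.pss a 1 P)) :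
    ∀ t, t < D.K →
      (D.pass)^[t] (blk D.Ol (D.Ls a B 1) (D.pss a 1 P)) =
        blk D.Ol (D.Ls a B (t + 1)) (D.pss a (t + 1) P) ∧
      Good D.E (D.Ls a B (t + 1)) (D.pss a (t + 1) P) ∧
      (t + 1 < D.K → D.ν ∣ D.Ls a B (t + 1)) := by
  intro t
  induction t with
  | zero =>
    intro _
    refine ⟨rfl, hg, fun h => ?_⟩
    exact (stage_succ hν hO hC hP (le_refl 1) h (hL 1 le_rfl h) hg).1
  | succ t ih =>
    intro ht
    obtain ⟨h1, h2, h3⟩ := ih (by omega)
    obtain ⟨h4, h5, h6⟩ := stage_succ hν hO hC hP (show 1 ≤ t + 1 by omega) ht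
      (hL _ (by omega) ht) h2
    refine ⟨?_, h6, fun h => ?_⟩
    · rw [Function.iterate_succ_apply', h1, h5]
    · exact (stage_succ hν hO hC hP (show 1 ≤ t + 1 + 1 by omega) h (hL _ (by omega) h) h6).1

/-- The first pass over a group. -/
theorem first_pass (hν : 3 ≤ D.ν) (hO : D.Off) {n y : ℕ} {rest : List ℕ} (hy : D.ν ∣ D.c y)
    (hg : Good D.E (D.ν * n) (D.c y :: rest)) :
    D.pass (blk D.Ol (D.ν * n) (D.c y :: rest)) =
      blk D.Ol (n + D.E * (D.m + (rest.flatMap (reads D.ν D.Ol)).length))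
        ((List.range D.m).map (fun j => D.c y / D.ν + D.δ j + D.E * j) ++
          ixs D.E D.m (rest.flatMap (reads D.ν D.Ol))) ∧
    Good D.E (n + D.E * (D.m + (rest.flatMap (reads D.ν D.Ol)).length))
        ((List.range D.m).map (fun j => D.c y / D.ν + D.δ j + D.E * j) ++
          ixs D.E D.m (rest.flatMap (reads D.ν D.Ol))) := by
  obtain ⟨h1, h2⟩ := rd_blk (ν := D.ν) (by omega) hO.lt hO.sorted hg
  have hr : (D.c y :: rest).flatMap (reads D.ν D.Ol) =
      (List.range D.m).map (fun j => D.c y / D.ν + D.δ j) ++ rest.flatMap (reads D.ν D.Ol) := by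
    rw [List.flatMap_cons, reads_zero D (by omega) hy]
  have hl : ((D.c y :: rest).flatMap (reads D.ν D.Ol)).length =
      D.m + (rest.flatMap (reads D.ν D.Ol)).length := by
    rw [hr]; simp
  have hi : ixs D.E 0 ((D.c y :: rest).flatMap (reads D.ν D.Ol)) =
      (List.range D.m).map (fun j => D.c y / D.ν + D.δ j + D.E * j) ++
          ixs D.E D.m (rest.flatMap (reads D.ν D.Ol)) := by
    rw [hr, ixs_append, ixs_map_range]
    simp
  rw [hl, hi] at h1 h2
  exact ⟨h1, h2⟩

theorem Iu_zero {a : ℕ} (hC : D.Cond a) {j : ℕ} (hj : j ≤ D.m) : D.Iu a 0 j = j := by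
  unfold Iu
  rw [Finset.sum_congr rfl (g := fun _ => 1)]
  · simp
  · intro i hi
    rw [Finset.mem_range] at hi
    have := hC.four i (by omega)
    unfold rdn
    rw [if_pos (by omega)]

theorem pss_one {a : ℕ} (hC : D.Cond a) (P : List ℕ) :
    D.pss a 1 P = (List.range D.m).map (fun j => D.c a / D.ν + D.δ j + D.E * j) ++ P := by
  unfold pss
  rw [if_pos rfl]
  congr 1
  rw [List.map_eq_flatMap]
  apply List.flatMap_congr
  intro j hj
  rw [List.mem_range] at hj
  have := hC.four j hj
  unfold AS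
  rw [if_pos (by omega)]
  simp only [Nat.sub_self]
  unfold X Q
  rw [Iu_zero hC hj.le]
  simp

theorem Ls_one {a B : ℕ} (hC : D.Cond a) : D.Ls a B 1 = B + D.E * D.m := by
  unfold Ls Sm
  simp [Iu_zero hC le_rfl]

/-- **The evolution of a group.** -/
theorem group {a n : ℕ} {rest : List ℕ} (hν : 3 ≤ D.ν) (hO : D.Off)
    (hC : D.Cond a) (ha : D.ν ∣ D.c a)
    (hP : ∀ p ∈ ixs D.E D.m (rest.flatMap (reads D.ν D.Ol)), D.Dead p)
    (hL : ∀ s, 1 ≤ s → s < D.K →
      D.ν ^ s ∣ D.Sm a (n + D.E * (rest.flatMap (reads D.ν D.Ol)).length) s)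
    (hg : Good D.E (D.ν * n) (D.c a :: rest)) :
    ∀ s, 1 ≤ s → s ≤ D.K →
      (D.pass)^[s] (blk D.Ol (D.ν * n) (D.c a :: rest)) =
        blk D.Ol (D.Ls a (n + D.E * (rest.flatMap (reads D.ν D.Ol)).length) s)
          (D.pss a s (ixs D.E D.m (rest.flatMap (reads D.ν D.Ol)))) ∧
      (s < D.K → D.ν ∣ D.Ls a (n + D.E * (rest.flatMap (reads D.ν D.Ol)).length) s) := by
  intro s hs hsK
  obtain ⟨h1, h2⟩ := first_pass hν hO ha hg
  have e1 : n + D.E * (D.m + (rest.flatMap (reads D.ν D.Ol)).length) =
      D.Ls a (n + D.E * (rest.flatMap (reads D.ν D.Ol)).length) 1 := by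
    rw [Ls_one hC]; ring
  rw [e1, ← pss_one hC] at h1 h2
  obtain ⟨t, rfl⟩ : ∃ t, s = t + 1 := ⟨s - 1, by omega⟩
  obtain ⟨h3, _, h4⟩ := stages hν hO hC hP hL h2 t (by omega)
  rw [Function.iterate_succ_apply, h1, h3]
  exact ⟨rfl, h4⟩

end Dat

end Pool.Agent.H97.Tag
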