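import Pool.Agent.H97.Tag.Sim4

/-!
# Letters with positions
-/

set_option autoImplicit false

namespace Pool.Agent.H97.Tag

open Finset Relation

variable {μ : ℕ}

/-- The code of a letter; the special letter gets the code `μ`. -/
def code : Option (Fin μ) → ℕ
  | none => μ
  | some a => a.val

theorem code_lt (o : Option (Fin μ)) : code o < μ + 1 := by
  cases o with
  | none => simp [code]
  | some a => simp only [code]; omega

/-- The productions of the letters with positions. -/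
def Pw (w : Fin μ → List (Option (Fin μ))) (y : ℕ) : List ℕ :=
  if h : y % (μ + 1) < μ then (w ⟨y % (μ + 1), h⟩).mapIdx (fun i o => i * (μ + 1) + code o) else []

theorem Pw_sorted (w : Fin μ → List (Option (Fin μ))) (y : ℕ) : (Pw w y).Pairwise (· < ·) := by
  unfold Pw
  split_ifs with h
  · rw [List.pairwise_iff_getElem]
    intro i j hi hj hij
    rw [List.getElem_mapIdx, List.getElem_mapIdx]
    have h1 := code_lt ((w ⟨y % (μ + 1), h⟩)[i]'(by simpa using hi))
    have h2 : (i + 1) * (μ + 1) ≤ j * (μ + 1) := Nat.mul_le_mul_right _ hij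
    rw [Nat.add_mul] at h2
    omega
  · exact List.Pairwise.nil

theorem Pw_bounded {w : Fin μ → List (Option (Fin μ))} {Lm : ℕ} (hL : ∀ a, (w a).length ≤ Lm)
    {x y : ℕ} (hx : x ∈ Pw w y) : x < Lm * (μ + 1) := by
  unfold Pw at hx
  split_ifs at hx with h
  · obtain ⟨i, hi, rfl⟩ := List.getElem_of_mem hx
    rw [List.getElem_mapIdx]
    rw [List.length_mapIdx] at hi
    have h1 := code_lt ((w ⟨y % (μ + 1), h⟩)[i])
    have h2 : (i + 1) * (μ + 1) ≤ Lm * (μ + 1) :=
      Nat.mul_le_mul_right _ (hi.trans_le (hL _))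
    rw [Nat.add_mul] at h2
    omega
  · simp at hx

theorem Pw_ne_nil {w : Fin μ → List (Option (Fin μ))} (hw : ∀ a, w a ≠ []) {y : ℕ}
    (h : y % (μ + 1) < μ) : Pw w y ≠ [] := by
  unfold Pw
  rw [dif_pos h]
  intro h2
  rw [List.mapIdx_eq_nil_iff] at h2
  exact hw _ h2

theorem Pw_nil {w : Fin μ → List (Option (Fin μ))} {y : ℕ} (h : y % (μ + 1) = μ) :
    Pw w y = [] := by
  unfold Pw
  rw [dif_neg (by omega)]

theorem Pw_map (w : Fin μ → List (Option (Fin μ))) (a : Fin μ) {y : ℕ}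
    (h : y % (μ + 1) = a.val) : (Pw w y).map (· % (μ + 1)) = (w a).map code := by
  unfold Pw
  have h1 : y % (μ + 1) < μ := by rw [h]; exact a.isLt
  rw [dif_pos h1]
  have h2 : (⟨y % (μ + 1), h1⟩ : Fin μ) = a := Fin.ext h
  rw [h2]
  apply List.ext_getElem
  · simp
  · intro i hi1 hi2
    rw [List.getElem_map, List.getElem_mapIdx, List.getElem_map, Nat.mul_comm,
      Nat.mul_add_mod]
    exact Nat.mod_eq_of_lt (code_lt _)

theorem rd_rep (w : Fin μ → List (Option (Fin μ))) (σ : ℕ) (v : List (Fin μ)) :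
    ∀ (v' : List ℕ) (s : ℕ), v'.map (· % (μ + 1)) = v.map Fin.val →
      (rd σ (Pw w) s v').map (· % (μ + 1)) = (rd σ w s v).map code := by
  induction v with
  | nil =>
    intro v' s hv
    have : v' = [] := by simpa using hv
    subst this
    simp
  | cons a v ih =>
    intro v' s hv
    obtain ⟨y, v', rfl⟩ : ∃ y v'', v' = y :: v'' := by
      cases v' with
      | nil => simp at hv
      | cons y v'' => exact ⟨y, v'', rfl⟩
    simp only [List.map_cons, List.cons.injEq] at hv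
    cases s with
    | zero =>
      rw [rd_zero_cons, rd_zero_cons, List.map_append, List.map_append, Pw_map w a hv.1,
        ih _ _ hv.2]
    | succ s =>
      rw [rd_succ_cons, rd_succ_cons]
      exact ih _ _ hv.2

theorem mem_rd {A B : Type*} {n : ℕ} {w : A → List B} {b : B} (u : List A) :
    ∀ s, b ∈ rd n w s u → ∃ a ∈ u, b ∈ w a := by
  induction u with
  | nil => intro s h; simp at h
  | cons a u ih =>
    intro s h
    cases s with
    | zero =>
      rw [rd_zero_cons, List.mem_append] at h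
      rcases h with h | h
      · exact ⟨a, by simp, h⟩
      · obtain ⟨c, hc, h⟩ := ih _ h
        exact ⟨c, by simp [hc], h⟩
    | succ s =>
      rw [rd_succ_cons] at h
      obtain ⟨c, hc, h⟩ := ih _ h
      exact ⟨c, by simp [hc], h⟩

theorem exists_setup {ν σ g ϑ M : ℕ} {P : ℕ → List ℕ} (hν : 3 ≤ ν) (hσ : σ * g = ν)
    (par : (g = 2 ∧ ϑ = 0) ∨ (g = 1 ∧ ϑ = 1 ∧ ∃ k, ν = 2 * k + 1))
    (sorted : ∀ y < M, (P y).Pairwise (· < ·)) (bounded : ∀ y < M, ∀ x ∈ P y, x < M)
    (hne : ∃ y < M, P y ≠ []) :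
    ∃ (D : Dat) (R N s : ℕ) (h : ℕ → ℕ) (R' : ℕ), D.ν = ν ∧ Setup D R M N s h P σ g ϑ R' := by
  classical
  have hW : 4 ≤ Wf ν (lam M + 1) := by
    have h1 : Wf ν 2 ≤ Wf ν (lam M + 1) := Wf_mono ν (by unfold lam; omega)
    have h2 : Wf ν 2 = 1 + ν := by simp [Wf, Finset.sum_range_succ]
    omega
  have hW3 : 64 ≤ Wf ν (lam M + 1) ^ 3 := by
    calc 64 = 4 ^ 3 := by norm_num
      _ ≤ _ := Nat.pow_le_pow_left hW 3
  have hbig : 128 ≤ (ν - 1) * Wf ν (lam M + 1) ^ 3 := by
    calc 128 = 2 * 64 := by norm_num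
      _ ≤ _ := Nat.mul_le_mul (by omega) hW3
  obtain ⟨R', hR'⟩ : ∃ R', R' + ϑ = (ν - 1) * Wf ν (lam M + 1) ^ 3 :=
    ⟨(ν - 1) * Wf ν (lam M + 1) ^ 3 - ϑ, by omega⟩
  have hR3 : 3 ≤ g * R' := by
    have h1 : 1 ≤ g := by omega
    calc 3 ≤ 1 * R' := by omega
      _ ≤ _ := Nat.mul_le_mul_right _ h1
  have hT1 : ∀ r < (tlist M P).length, tgT (tlist M P) r < M ∧ clT (tlist M P) r < M ∧
      tgT (tlist M P) r ∈ P (clT (tlist M P) r) := by
    intro r hr
    unfold tgT clT
    rw [List.getD_eq_getElem _ _ hr]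
    exact tlist_mem (List.getElem_mem hr)
  obtain ⟨K, N, s, life, hp⟩ := exists_plan hν hR3 (tlist M P) (fun r hr => (hT1 r hr).2.1)
  have hT0 : 0 < (tlist M P).length := by
    obtain ⟨y, hy, hyP⟩ := hne
    have h1 := tlist_filter hy (sorted y hy) (bounded y hy)
    by_contra hcon
    have h2 : tlist M P = [] := List.eq_nil_of_length_eq_zero (by omega)
    rw [h2] at h1
    simp only [List.filter_nil] at h1
    exact hyP (List.map_eq_nil_iff.1 h1.symm)
  obtain ⟨tl, htl⟩ : ∃ tl : ℕ → ℕ, tl = fun x => if x < M ∧ P x = [] then ν ^ 2 - ν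
    else ν ^ lam x := ⟨_, rfl⟩
  have htla : ∀ r < (tlist M P).length, tl (clT (tlist M P) r) = ν ^ lam (clT (tlist M P) r) := by
    intro r hr
    rw [htl]
    dsimp only
    rw [if_neg]
    rintro ⟨_, h1⟩
    have h2 := (hT1 r hr).2.2
    rw [h1] at h2
    simp at h2
  have htlM : tl M = ν ^ lam M := by
    rw [htl]
    dsimp only
    rw [if_neg (by rintro ⟨h1, _⟩; omega)]
  obtain ⟨E, h, δ, hd⟩ := exists_delta hν hR3 hT0 (tlist_pairwise M P)
    (fun r hr => ⟨(hT1 r hr).1, (hT1 r hr).2.1⟩) hp tl (by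
      intro x hx
      rw [htl]
      dsimp only
      split_ifs
      · calc ν ^ 2 - ν ≤ ν ^ 2 := Nat.sub_le _ _
          _ ≤ _ := Nat.pow_le_pow_right (by omega) (by unfold lam; omega)
      · exact Nat.pow_le_pow_right (by omega) (by unfold lam; omega)) htla
  refine ⟨_, g * R', N, s, h, R', rfl,
    ⟨Full.mk' hν (fun r hr => (hT1 r hr).2.1) hp htla htlM hd, hσ, rfl, hR', par, sorted, bounded,
      ?_⟩⟩
  intro y hy hyP
  show ν ^ 2 ∣ ν ^ K * h y + tl y + ν
  rw [htl]
  dsimp only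
  rw [if_pos ⟨hy, hyP⟩, Nat.add_assoc]
  have h1 : ν ^ 2 - ν + ν = ν ^ 2 := by
    have : ν ≤ ν ^ 2 := Nat.le_self_pow (by norm_num) ν
    omega
  rw [h1]
  have hK := hp.hK
  exact Dvd.dvd.add (Dvd.dvd.mul_right (pow_dvd_pow _ (by omega)) _) dvd_rfl

end Pool.Agent.H97.Tag
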