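import Pool.Agent.H97.Tag.Letters
import Pool.Agent.W5h69.Tag.Aligned

/-!
# Undecidability for binary tag systems
-/

set_option autoImplicit false

namespace Pool.Agent.H97.Tag

open Finset Relation

section

variable {μ : ℕ} {w : Fin μ → List (Option (Fin μ))}
variable {D : Dat} {R M N s : ℕ} {h : ℕ → ℕ} {σ g ϑ R' : ℕ}

/-- The word `v'` of letters with positions represents the word `v`. -/
def Rep (M : ℕ) (v : List (Fin μ)) (v' : List ℕ) : Prop :=
  v'.map (· % (μ + 1)) = v.map Fin.val ∧ ∀ y ∈ v', y < M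

theorem Rep.length {v : List (Fin μ)} {v' : List ℕ} (hr : Rep M v v') : v'.length = v.length := by
  have := congrArg List.length hr.1
  simpa using this

theorem Rep.normal (hw : ∀ a, w a ≠ []) {v : List (Fin μ)} {v' : List ℕ} (hr : Rep M v v') :
    ∀ y ∈ v', y < M ∧ Pw w y ≠ [] := by
  intro y hy
  refine ⟨hr.2 y hy, Pw_ne_nil hw ?_⟩
  have h1 : y % (μ + 1) ∈ v'.map (· % (μ + 1)) := List.mem_map_of_mem hy
  rw [hr.1, List.mem_map] at h1
  obtain ⟨a, _, ha⟩ := h1
  rw [← ha]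
  exact a.isLt

/-- One sweep of the aligned system is simulated by one cycle. -/
theorem sim_step (F : Setup D R M N s h (Pw w) σ g ϑ R') (hw : ∀ a, w a ≠ []) {v v₁ : List (Fin μ)}
    {v' : List ℕ} (hr : Rep M v v') (hs : Step σ w v v₁) :
    v₁ ≠ [] ∧ σ ∣ v₁.length ∧ ∃ v₁', Rep M v₁ v₁' ∧
      TransGen (TStep D.ν (wd D.Ol D.E)) (cells D (R * D.E) v') (cells D (R * D.E) v₁') := by
  obtain ⟨h1, h2, h3, h4⟩ := hs
  have hn := hr.normal hw
  have hl := hr.length
  refine ⟨?_, h3, rd σ (Pw w) 0 v', ⟨?_, ?_⟩, ?_⟩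
  · obtain ⟨a, t, rfl⟩ : ∃ a t, v = a :: t := by
      cases v with
      | nil => exact absurd rfl h1
      | cons a t => exact ⟨a, t, rfl⟩
    rw [rd_zero_cons] at h4
    intro h5
    rw [h5, List.map_nil, List.append_eq_nil_iff] at h4
    exact hw a h4.1
  · rw [rd_rep w σ v v' 0 hr.1, h4, List.map_map]
    rfl
  · intro y hy
    obtain ⟨a, ha, hya⟩ := mem_rd _ _ hy
    exact F.bounded a (hn a ha).1 y hya
  · apply F.reach_cycle (by rw [hl]; exact h2) _ hn
    intro h5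
    rw [h5, List.length_nil] at hl
    exact h1 (List.eq_nil_of_length_eq_zero hl.symm)

/-- A final word leads to a word of length `ν - 1`. -/
theorem sim_final (F : Setup D R M N s h (Pw w) σ g ϑ R') (hw : ∀ a, w a ≠ []) {v : List (Fin μ)}
    {v' : List ℕ} (hr : Rep M v v') (hs : Final σ w v) :
    ReflTransGen (TStep D.ν (wd D.Ol D.E)) (cells D (R * D.E) v')
      (List.replicate (D.ν - 1) false) := by
  obtain ⟨h1, h2, v₁, v₂, h3, h4, h5⟩ := hs
  have hn := hr.normal hw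
  have hl := hr.length
  have h6 : TransGen (TStep D.ν (wd D.Ol D.E)) (cells D (R * D.E) v')
      (cells D (R * D.E) (rd σ (Pw w) 0 v')) := by
    apply F.reach_cycle (by rw [hl]; exact h2) _ hn
    intro h7
    rw [h7, List.length_nil] at hl
    exact h1 (List.eq_nil_of_length_eq_zero hl.symm)
  have h7 := rd_rep w σ v v' 0 hr.1
  rw [h5, List.map_append, List.map_cons, List.map_map, List.map_map] at h7
  have hb : ∀ y ∈ rd σ (Pw w) 0 v', y < M := by
    intro y hy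
    obtain ⟨a, ha, hya⟩ := mem_rd _ _ hy
    exact F.bounded a (hn a ha).1 y hya
  rw [List.map_eq_append_iff] at h7
  obtain ⟨x₁, x₂, h8, h9, h10⟩ := h7
  rw [List.map_eq_cons_iff] at h10
  obtain ⟨y, x₃, rfl, h11, h12⟩ := h10
  rw [h8] at h6 hb
  have hr1 : Rep M v₁ x₁ := ⟨h9, fun z hz => hb z (by simp [hz])⟩
  have hr3 : Rep M v₂ x₃ := ⟨h12, fun z hz => hb z (by simp [hz])⟩
  refine h6.to_reflTransGen.trans ?_
  apply F.kill
  · rw [hr1.length]; exact h3
  · rw [hr1.length, hr3.length]; exact h4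
  · exact hb y (by simp)
  · exact Pw_nil h11
  · exact hr1.normal hw
  · exact hr3.normal hw

/-- Runs of the aligned system are simulated. -/
theorem sim_run (F : Setup D R M N s h (Pw w) σ g ϑ R') (hw : ∀ a, w a ≠ []) {u v : List (Fin μ)}
    {u' : List ℕ} (hu0 : u ≠ []) (hu : σ ∣ u.length) (hr : Rep M u u')
    (hs : ReflTransGen (Step σ w) u v) :
    v ≠ [] ∧ σ ∣ v.length ∧ ∃ v', Rep M v v' ∧
      ReflTransGen (TStep D.ν (wd D.Ol D.E)) (cells D (R * D.E) u') (cells D (R * D.E) v') := by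
  induction hs with
  | refl => exact ⟨hu0, hu, u', hr, ReflTransGen.refl⟩
  | tail _ hs ih =>
    obtain ⟨h1, h2, v', h3, h4⟩ := ih
    obtain ⟨h5, h6, v₁', h7, h8⟩ := sim_step F hw h3 hs
    exact ⟨h5, h6, v₁', h7, h4.trans h8.to_reflTransGen⟩

end

/-- The rules `false ↦ [false]`, `true ↦ w1`. -/
def rule (w1 : List Bool) (b : Bool) : List Bool := bif b then w1 else [false]

theorem computable_cells (D : Dat) (Λ M : ℕ) {f : ℕ → List ℕ} (hf : Computable f)
    (hM : ∀ n, ∀ y ∈ f n, y < M) : Computable fun n => cells D Λ (f n) := by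
  have h1 : (fun n => cells D Λ (f n)) = fun n => (f n).flatMap
      (fun y => ((List.range M).map (fun y => blk D.Ol Λ [D.c y])).getD y []) := by
    funext n
    unfold cells
    apply List.flatMap_congr
    intro y hy
    have h2 := hM n y hy
    rw [List.getD_eq_getElem _ _ (by simpa using h2)]
    simp
  rw [h1]
  have h2 : Primrec fun l : List ℕ => l.flatMap
      (fun y => ((List.range M).map (fun y => blk D.Ol Λ [D.c y])).getD y []) := by
    refine Primrec.list_flatMap Primrec.id ?_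
    exact (Primrec.list_getD _).comp (Primrec.const _) Primrec.snd
  exact h2.to_comp.comp hf

/-- **The core of the result.** -/
theorem core (ν : ℕ) (hν : 3 ≤ ν) : ∃ (w1 : List Bool) (S : ℕ → List Bool) (q : ℕ → Prop),
    Computable S ∧ ¬ ComputablePred q ∧
    (∀ n, q n → ReflTransGen (TStep ν (rule w1)) (S n) (List.replicate (ν - 1) false)) ∧
    (∀ n, ¬ q n → ∃ I : List Bool → Prop, I (S n) ∧
      ∀ a, I a → ∃ b, I b ∧ TransGen (TStep ν (rule w1)) a b) := by
  obtain ⟨σ, g, ϑ, hσ, par, hσ2⟩ : ∃ σ g ϑ : ℕ, σ * g = ν ∧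
      ((g = 2 ∧ ϑ = 0) ∨ (g = 1 ∧ ϑ = 1 ∧ ∃ k, ν = 2 * k + 1)) ∧ 2 ≤ σ := by
    rcases Nat.even_or_odd' ν with ⟨k, hk | hk⟩
    · exact ⟨k, 2, 0, by omega, Or.inl ⟨rfl, rfl⟩, by omega⟩
    · exact ⟨ν, 1, 1, by omega, Or.inr ⟨rfl, rfl, k, hk⟩, by omega⟩
  obtain ⟨μ, w, u, hw, hcomp, hu, halt, hund⟩ := Pool.Agent.W5h69.Tag.exists_aligned σ hσ2
  obtain ⟨Lm, hLm, hLm1⟩ : ∃ Lm, (∀ a, (w a).length ≤ Lm) ∧ 1 ≤ Lm :=
    ⟨(Finset.univ.sup fun a => (w a).length) + 1, fun a =>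
      (Finset.le_sup (f := fun a => (w a).length) (Finset.mem_univ a)).trans (Nat.le_succ _),
      by omega⟩
  obtain ⟨M, hM⟩ : ∃ M, M = Lm * (μ + 1) := ⟨_, rfl⟩
  have hMμ : μ + 1 ≤ M := by rw [hM]; exact Nat.le_mul_of_pos_left _ hLm1
  have hne : ∃ y < M, Pw w y ≠ [] := by
    obtain ⟨a, ha⟩ : ∃ a, a ∈ u 0 := List.exists_mem_of_ne_nil _ (hu 0).1
    refine ⟨a.val, by omega, Pw_ne_nil hw ?_⟩
    rw [Nat.mod_eq_of_lt (by omega)]
    exact a.isLt
  obtain ⟨D, R, N, s, h, R', hDν, F⟩ := exists_setup hν hσ par (P := Pw w)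
    (fun y _ => Pw_sorted w y) (fun y _ x hx => by rw [hM]; exact Pw_bounded hLm hx) hne
  have hrule : wd D.Ol D.E = rule (blk D.Ol (D.E + 1) [0]) := by
    funext b
    cases b <;> rfl
  have hrep : ∀ n, Rep M (u n) ((u n).map Fin.val) := by
    intro n
    constructor
    · rw [List.map_map]
      apply List.map_congr_left
      intro a _
      simp only [Function.comp_apply]
      exact Nat.mod_eq_of_lt (by omega)
    · intro y hy
      rw [List.mem_map] at hy
      obtain ⟨a, _, rfl⟩ := hy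
      omega
  refine ⟨blk D.Ol (D.E + 1) [0], fun n => cells D (R * D.E) ((u n).map Fin.val),
    fun n => ∃ v, ReflTransGen (Step σ w) (u n) v ∧ Final σ w v, ?_, hund, ?_, ?_⟩
  · exact computable_cells D (R * D.E) M hcomp (fun n => (hrep n).2)
  · rintro n ⟨v, hv, hf⟩
    rw [← hrule, ← hDν]
    obtain ⟨_, _, v', h3, h4⟩ := sim_run F hw (hu n).1 (hu n).2 (hrep n) hv
    exact h4.trans (sim_final F hw h3 hf)
  · intro n hn
    rw [← hrule, ← hDν]
    refine ⟨fun X => ∃ v v', ReflTransGen (Step σ w) (u n) v ∧ Rep M v v' ∧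
      X = cells D (R * D.E) v', ⟨u n, _, ReflTransGen.refl, hrep n, rfl⟩, ?_⟩
    rintro X ⟨v, v', h1, h2, rfl⟩
    rcases halt n v h1 with hf | ⟨v₁, hs⟩
    · exact absurd ⟨v, h1, hf⟩ hn
    · obtain ⟨_, _, v₁', h3, h4⟩ := sim_step F hw h2 hs
      exact ⟨_, ⟨v₁, v₁', h1.tail hs, h3, rfl⟩, h4⟩

end Pool.Agent.H97.Tag
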