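import Pool.Agent.H97.Tag.Plan

/-!
# Existence of the list of blocks
-/

set_option autoImplicit false

namespace Pool.Agent.H97.Tag

open Finset

theorem Zc_dvd {ν m N M : ℕ} {T : List (ℕ × ℕ)} {a : ℕ} (hν : 1 ≤ ν) {θ : ℕ}
    (hm : m = N * T.length + Wf ν (θ + 1)) (hN : ν ^ (θ + 1) ∣ N) (ha : a ≤ M) :
    ν ^ (θ + 1) ∣ Zc ν m N (Wf ν (θ + 1)) M T a := by
  have h1 := Wf_geom hν (θ + 1)
  have h2 := Wf_geom hν (lam a)
  unfold Zc
  have h3 : ν ^ (θ + 1) ∣ (ν - 1) * Wf ν (θ + 1) ^ 3 + Wf ν (θ + 1) * fwn ν m M a := by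
    unfold fwn
    rw [if_neg (by omega), hm]
    generalize Wf ν (θ + 1) = W at *
    generalize Wf ν (lam a) = V at *
    generalize ν - 1 = n at *
    generalize ν ^ (θ + 1) = X at *
    generalize ν ^ lam a = Y at *
    have e : n * W ^ 3 + W * (V + (N * T.length + W) * Y) =
        X * (W ^ 2 + W * V) + N * (W * T.length * Y) := by rw [← h1, ← h2]; ring
    rw [e]
    exact Dvd.dvd.add (Dvd.intro _ rfl) (Dvd.dvd.mul_right hN _)
  have h4 := Fr_dvd (ν := ν) (m := m) T a T.length hN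
  have e : (ν - 1) * Wf ν (θ + 1) ^ 3 + Fr ν m N T a T.length + Wf ν (θ + 1) * fwn ν m M a =
      ((ν - 1) * Wf ν (θ + 1) ^ 3 + Wf ν (θ + 1) * fwn ν m M a) + Fr ν m N T a T.length := by
    ring
  rw [e]
  exact Dvd.dvd.add h3 h4

/-- The data with a given list of batches. -/
def pdat (ν K N M : ℕ) (T : List (ℕ × ℕ)) (life : ℕ → ℕ) (E : ℕ) (c δ : ℕ → ℕ) : Dat where
  ν := ν
  E := E
  K := K
  m := N * T.length + Wf ν (lam M + 1)
  c := c
  cl := fun j => if j < N * T.length then clT T (j / N) else M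
  life := life
  δ := δ

/-- The properties of the list of blocks. -/
structure IsPlan (ν R M : ℕ) (T : List (ℕ × ℕ)) (K N s : ℕ) (life : ℕ → ℕ) : Prop where
  hK : lam M + 8 ≤ K
  hN : ν ^ (lam M + 1) ∣ N
  hN0 : 0 < N
  hs : s < N
  life_ge : ∀ j, lam M + 1 ≤ life j
  life_le : ∀ j, life j ≤ K
  life_eq : ∀ j, life j = K ↔ j < N * T.length ∧ j % N = s
  pw_real : ∀ (E : ℕ) (c δ : ℕ → ℕ), ∀ r < T.length,
    (pdat ν K N M T life E c δ).pw (clT T r) (N * r + s) =
      R * ν ^ (K - 1) * cnt T (clT T r) r + ν ^ (K - 4)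
  pw_total : ∀ (E : ℕ) (c δ : ℕ → ℕ), ∀ a < M, 0 < cnt T a T.length →
    (pdat ν K N M T life E c δ).pw a (N * T.length + Wf ν (lam M + 1)) +
      (ν - 1) * Wf ν (lam M + 1) ^ 3 = R * ν ^ (K - 1) * cnt T a T.length

theorem pick_K (ν R M t : ℕ) (hν : 3 ≤ ν) : ∃ K N s : ℕ, lam M + 8 ≤ K ∧
    N = ν ^ (lam M + 1) * (2 * K + R + 1) ∧ s = ν ^ (lam M + 1) * K ∧
    t * (N * (Wf ν (lam M) + (N * t + Wf ν (lam M + 1)) * ν ^ lam M)) + s * Wf ν (lam M + 1) +
      N * Wf ν (lam M + 1) + (ν - 1) * Wf ν (lam M + 1) ^ 3 +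
      Wf ν (lam M + 1) * (Wf ν (lam M) + (N * t + Wf ν (lam M + 1)) * ν ^ lam M) ≤
      ν ^ (K - 4) := by
  obtain ⟨X, hX⟩ : ∃ X, X = ν ^ (lam M + 1) := ⟨_, rfl⟩
  obtain ⟨W, hW⟩ : ∃ W, W = Wf ν (lam M + 1) := ⟨_, rfl⟩
  obtain ⟨V, hV⟩ : ∃ V, V = Wf ν (lam M) := ⟨_, rfl⟩
  obtain ⟨Y, hY⟩ : ∃ Y, Y = ν ^ lam M := ⟨_, rfl⟩
  rw [← hX, ← hW, ← hV, ← hY]
  obtain ⟨A, hA⟩ : ∃ A, A = X * (R + 3) := ⟨_, rfl⟩
  obtain ⟨B, hB⟩ : ∃ B, B = A * t + W := ⟨_, rfl⟩
  obtain ⟨F, hF⟩ : ∃ F, F = V + B * Y := ⟨_, rfl⟩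
  obtain ⟨K, hK, hle⟩ := exists_large ν (t * (A * F) + X * W + A * W + (ν - 1) * W ^ 3 + W * F)
    (lam M + 8) (by omega)
  refine ⟨K, _, _, hK, rfl, rfl, ?_⟩
  refine le_trans ?_ hle
  have hK1 : 1 ≤ K := by omega
  have hKK : K ≤ K ^ 2 := by nlinarith
  have hN : X * (2 * K + R + 1) ≤ A * K := by
    rw [hA, Nat.mul_assoc]
    exact Nat.mul_le_mul_left _ (by nlinarith)
  generalize X * (2 * K + R + 1) = N at *
  have hm : N * t + W ≤ B * K := by
    rw [hB]
    calc N * t + W ≤ A * K * t + W * K := Nat.add_le_add (Nat.mul_le_mul_right _ hN)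
          (by nlinarith)
      _ = _ := by ring
  generalize N * t + W = m at *
  have hf : V + m * Y ≤ F * K := by
    rw [hF]
    calc V + m * Y ≤ V * K + B * K * Y := Nat.add_le_add (by nlinarith)
          (Nat.mul_le_mul_right _ hm)
      _ = _ := by ring
  generalize V + m * Y = f at *
  have e1 : t * (N * f) ≤ t * (A * F) * K ^ 2 := by
    calc t * (N * f) ≤ t * (A * K * (F * K)) := Nat.mul_le_mul_left _ (Nat.mul_le_mul hN hf)
      _ = _ := by ring
  have e2 : X * K * W ≤ X * W * K ^ 2 := by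
    calc X * K * W = X * W * K := by ring
      _ ≤ _ := Nat.mul_le_mul_left _ hKK
  have e3 : N * W ≤ A * W * K ^ 2 := by
    calc N * W ≤ A * K * W := Nat.mul_le_mul_right _ hN
      _ = A * W * K := by ring
      _ ≤ _ := Nat.mul_le_mul_left _ hKK
  have e4 : (ν - 1) * W ^ 3 ≤ (ν - 1) * W ^ 3 * K ^ 2 := Nat.le_mul_of_pos_right _ (by positivity)
  have e5 : W * f ≤ W * F * K ^ 2 := by
    calc W * f ≤ W * (F * K) := Nat.mul_le_mul_left _ hf
      _ = W * F * K := by ring
      _ ≤ _ := Nat.mul_le_mul_left _ hKK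
  have e6 : (t * (A * F) + X * W + A * W + (ν - 1) * W ^ 3 + W * F) * K ^ 2 =
      t * (A * F) * K ^ 2 + X * W * K ^ 2 + A * W * K ^ 2 + (ν - 1) * W ^ 3 * K ^ 2 +
      W * F * K ^ 2 := by ring
  rw [e6]
  omega

theorem exists_plan {ν R M : ℕ} (hν : 3 ≤ ν) (hR : 3 ≤ R) (T : List (ℕ × ℕ))
    (hT : ∀ r < T.length, clT T r < M) :
    ∃ K N s : ℕ, ∃ life : ℕ → ℕ, IsPlan ν R M T K N s life := by
  obtain ⟨K, N, s, hK, hNe, hse, hbig⟩ := pick_K ν R M T.length hν
  obtain ⟨θ, hθ⟩ : ∃ θ, θ = lam M := ⟨_, rfl⟩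
  rw [← hθ] at hK hNe hse hbig
  obtain ⟨W, hW⟩ : ∃ W, W = Wf ν (θ + 1) := ⟨_, rfl⟩
  obtain ⟨m, hm⟩ : ∃ m, m = N * T.length + W := ⟨_, rfl⟩
  rw [← hW, ← hm] at hbig
  have hlam : ∀ a, a ≤ M → lam a ≤ θ := by
    intro a ha; rw [hθ]; unfold lam; omega
  have hX0 : 0 < ν ^ (θ + 1) := pow_pos (by omega) _
  have hXν : ν ≤ ν ^ (θ + 1) := Nat.le_self_pow (by omega) ν
  have hN : ν ^ (θ + 1) ∣ N := by rw [hNe]; exact Dvd.intro _ rfl
  have hs : ν ^ (θ + 1) ∣ s := by rw [hse]; exact Dvd.intro _ rfl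
  have hsN : s < N := by
    rw [hNe, hse]
    exact Nat.mul_lt_mul_of_pos_left (by omega) hX0
  have hpK : ν ^ (K - 1) = ν ^ (K - 4) * ν ^ 3 := by rw [← pow_add]; congr 1; omega
  have hν3 : 27 ≤ ν ^ 3 := by
    calc 27 = 3 ^ 3 := by norm_num
      _ ≤ _ := Nat.pow_le_pow_left hν 3
  have hp27 : 27 * ν ^ (K - 4) ≤ ν ^ (K - 1) := by
    rw [hpK, Nat.mul_comm]; exact Nat.mul_le_mul_left _ hν3
  have hWK : 2 * Wf ν (K - 1) ≤ ν ^ (K - 1) := by
    have h1 := Wf_geom (ν := ν) (by omega) (K - 1)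
    have h2 : 2 * Wf ν (K - 1) ≤ (ν - 1) * Wf ν (K - 1) := Nat.mul_le_mul_right _ (by omega)
    omega
  have hWK2 : Wf ν K = Wf ν (K - 1) + ν ^ (K - 1) := by
    rw [← Wf_succ]; congr 1; omega
  have hZle : ∀ a, a < M → Zc ν m N W M T a + s * W + N * W ≤ ν ^ (K - 4) ∧
      Fr ν m N T a T.length + s * W ≤ ν ^ (K - 4) := by
    intro a ha
    have h1 := Fr_le (ν := ν) (m := m) (N := N) T (by omega) (hlam a ha.le) T.length
    have h2 := fwn_le (ν := ν) (m := m) (b := M) (by omega) (hlam a ha.le)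
    have h3 : W * fwn ν m M a ≤ W * (Wf ν θ + m * ν ^ θ) := Nat.mul_le_mul_left _ h2
    unfold Zc
    constructor <;> omega
  have hρ : 3 * ν ^ (K - 1) ≤ R * ν ^ (K - 1) := Nat.mul_le_mul_right _ hR
  have hJpow : ν ^ (K - 2) ≤ ν ^ (θ + 1) * Wf ν (K - 2 - θ) := by
    obtain ⟨J, hJ⟩ : ∃ J, K - 2 - θ = J + 1 := ⟨K - 3 - θ, by omega⟩
    rw [hJ]
    calc ν ^ (K - 2) = ν ^ (θ + 1) * ν ^ J := by rw [← pow_add]; congr 1; omega
      _ ≤ _ := Nat.mul_le_mul_left _ (pow_le_Wf ν J)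
  have hbatch : ∀ r, ∃ f : ℕ → ℕ, r < T.length → (∀ i, θ + 1 ≤ f i) ∧ (∀ i, i ≠ s → f i < K) ∧
      f s = K ∧ ∑ i ∈ range s, Wf ν (f i) = ν ^ (K - 4) - Fr ν m N T (clT T r) r ∧
      ∑ i ∈ range N, Wf ν (f i) = ownr ν m N W M (R * ν ^ (K - 1)) T r := by
    intro r
    by_cases hr : r < T.length
    swap
    · exact ⟨fun _ => 0, fun h => absurd h hr⟩
    have ha := hT r hr
    obtain ⟨hZ, hF⟩ := hZle _ ha
    have hFr := Fr_mono ν m N T (clT T r) hr.le
    have hown1 : R * ν ^ (K - 1) - Zc ν m N W M T (clT T r) ≤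
        ownr ν m N W M (R * ν ^ (K - 1)) T r := by
      unfold ownr; split_ifs <;> omega
    have hown2 : ownr ν m N W M (R * ν ^ (K - 1)) T r ≤ R * ν ^ (K - 1) := by
      unfold ownr; split_ifs <;> omega
    have hd1 : ν ^ (θ + 1) ∣ ν ^ (K - 4) := Nat.pow_dvd_pow _ (by omega)
    have hd2 : ν ^ (θ + 1) ∣ R * ν ^ (K - 1) :=
      Dvd.dvd.mul_left (Nat.pow_dvd_pow _ (by omega)) _
    have hd3 : ν ^ (θ + 1) ∣ ownr ν m N W M (R * ν ^ (K - 1)) T r := by
      unfold ownr
      split_ifs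
      · apply Nat.dvd_sub hd2
        rw [hW]
        exact Zc_dvd (by omega) (by rw [hm, hW]) hN ha.le
      · exact hd2
    obtain ⟨n2, hn2⟩ : ∃ n2, N = s + 1 + n2 := ⟨N - s - 1, by omega⟩
    have hn2W : n2 * W ≤ N * W := Nat.mul_le_mul_right _ (by omega)
    have hνJ : ν * (K - 2 - θ) + 1 ≤ s := by
      rw [hse]
      calc ν * (K - 2 - θ) + 1 ≤ ν * (K - 2 - θ + 1) := by rw [Nat.mul_add]; omega
        _ ≤ ν * K := Nat.mul_le_mul_left _ (by omega)
        _ ≤ _ := Nat.mul_le_mul_right _ hXν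
    have hn2J : R * ν ≤ n2 - ν * (K - 2 - θ) := by
      have h1 : ν ^ (θ + 1) * (K + R + 1) = n2 + 1 := by
        have : ν ^ (θ + 1) * (2 * K + R + 1) = ν ^ (θ + 1) * K + ν ^ (θ + 1) * (K + R + 1) := by
          ring
        omega
      have h2 : ν * (K + R + 1) ≤ ν ^ (θ + 1) * (K + R + 1) := Nat.mul_le_mul_right _ hXν
      have h3 : ν * (K - 2 - θ) ≤ ν * K := Nat.mul_le_mul_left _ (by omega)
      have h4 : ν * (K + R + 1) = ν * K + R * ν + ν := by ring
      omega
    obtain ⟨f, hf1, hf2, hf3, hf4, hf5⟩ := batch (ν := ν) (θ := θ) (J := K - 2 - θ) (K := K)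
      (s := s) (n2 := n2) (pre := ν ^ (K - 4) - Fr ν m N T (clT T r) r)
      (own := ownr ν m N W M (R * ν ^ (K - 1)) T r) (by omega)
      (Nat.dvd_sub hd1 (Fr_dvd T _ _ hN)) hs (by rw [← hn2]; exact hN) hd3 hX0
      (by rw [← hW]; omega)
      (by
        calc ν ^ (K - 4) - Fr ν m N T (clT T r) r ≤ ν ^ (K - 4) := Nat.sub_le _ _
          _ ≤ ν ^ (K - 2) := Nat.pow_le_pow_right (by omega) (by omega)
          _ ≤ ν ^ (θ + 1) * Wf ν (K - 2 - θ) := hJpow
          _ ≤ _ := Nat.mul_le_mul_left _ (Nat.le_mul_of_pos_left _ (by omega)))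
      (by omega)
      (by
        rw [← hW]
        omega)
      (by
        calc ownr ν m N W M (R * ν ^ (K - 1)) T r ≤ R * ν ^ (K - 1) := hown2
          _ = R * ν * ν ^ (K - 2) := by
            rw [Nat.mul_assoc, ← pow_succ']
            congr 2; omega
          _ ≤ (n2 - ν * (K - 2 - θ)) * (ν ^ (θ + 1) * Wf ν (K - 2 - θ)) :=
            Nat.mul_le_mul hn2J hJpow
          _ = _ := by ring)
      (by
        have : 0 < R * ν := by positivity
        omega)
    rw [← hn2] at hf5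
    exact ⟨f, fun _ => ⟨hf1, hf2, hf3, hf4, hf5⟩⟩
  choose f hf using hbatch
  refine ⟨K, N, s, fun j => if j < N * T.length then f (j / N) (j % N) else θ + 1, ?_⟩
  have hN0 : 0 < N := by omega
  have hdiv : ∀ j, j < N * T.length → j / N < T.length := by
    intro j hj
    exact Nat.div_lt_of_lt_mul hj
  have hle : ∀ j, (if j < N * T.length then f (j / N) (j % N) else θ + 1) ≤ K := by
    intro j
    split_ifs with h
    · obtain ⟨_, h2, h3, _⟩ := hf _ (hdiv j h)
      by_cases hjs : j % N = s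
      · rw [hjs, h3]
      · exact (h2 _ hjs).le
    · omega
  -- weights
  have hwt : ∀ (E : ℕ) (c δ : ℕ → ℕ) (a : ℕ), a < M → ∀ r < T.length, ∀ i < N,
      (pdat ν K N M T (fun j => if j < N * T.length then f (j / N) (j % N) else θ + 1) E c δ).wt a
        (N * r + i) = if clT T r = a then Wf ν (f r i) else fwn ν m (clT T r) a := by
    intro E c δ a ha r hr i hi
    have h1 : N * r + i < N * T.length := by
      calc N * r + i < N * r + N := by omega
        _ = N * (r + 1) := by ring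
        _ ≤ _ := Nat.mul_le_mul_left _ hr
    have h2 : (N * r + i) / N = r := by
      rw [Nat.mul_add_div hN0, Nat.div_eq_of_lt hi, Nat.add_zero]
    have h3 : (N * r + i) % N = i := by
      rw [Nat.mul_add_mod, Nat.mod_eq_of_lt hi]
    have hcl : (pdat ν K N M T (fun j => if j < N * T.length then f (j / N) (j % N) else θ + 1)
        E c δ).cl (N * r + i) = clT T r := by
      simp only [pdat]
      rw [if_pos h1, h2]
    have hlf : (pdat ν K N M T (fun j => if j < N * T.length then f (j / N) (j % N) else θ + 1)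
        E c δ).life (N * r + i) = f r i := by
      simp only [pdat]
      rw [if_pos h1, h2, h3]
    have hrM := hT r hr
    split_ifs with h
    · rw [Dat.wt_own (by rw [hcl, h]) (by
        have := hle (N * r + i)
        simp only [pdat]
        exact this), hlf]
      rfl
    · rw [Dat.wt_foreign (by rw [hcl]; exact h) (by
          have := hlam a ha.le
          simp only [pdat]
          omega) (by
          left
          rw [hcl]
          have := hlam _ hrM.le
          simp only [pdat]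
          omega), hcl]
      unfold Dat.fw fwn
      rw [hm, hW, hθ]
      rfl
  have hpw : ∀ (E : ℕ) (c δ : ℕ → ℕ) (a : ℕ), a < M → ∀ r, r ≤ T.length →
      (pdat ν K N M T (fun j => if j < N * T.length then f (j / N) (j % N) else θ + 1) E c δ).pw a
        (N * r) = ∑ i ∈ range r, bw ν m N W M (R * ν ^ (K - 1)) T a i := by
    intro E c δ a ha r
    induction r with
    | zero => intro _; simp [Dat.pw]
    | succ r ih =>
      intro hr
      rw [Finset.sum_range_succ, ← ih (by omega)]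
      unfold Dat.pw
      rw [Nat.mul_succ, Finset.sum_range_add]
      congr 1
      rw [Finset.sum_congr rfl (g := fun i => if clT T r = a then Wf ν (f r i)
        else fwn ν m (clT T r) a)]
      · unfold bw
        split_ifs with h
        · exact (hf r (by omega)).2.2.2.2
        · simp
      · intro i hi
        rw [Finset.mem_range] at hi
        exact hwt E c δ a ha r (by omega) i hi
  refine ⟨by rw [← hθ]; exact hK, by rw [← hθ]; exact hN, hN0, hsN, ?_, hle, ?_, ?_, ?_⟩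
  · intro j
    rw [← hθ]
    split_ifs with h
    · exact (hf _ (hdiv j h)).1 _
    · exact le_rfl
  · intro j
    split_ifs with h
    · obtain ⟨_, h2, h3, _⟩ := hf _ (hdiv j h)
      constructor
      · intro h4
        refine ⟨h, ?_⟩
        by_contra h5
        have := h2 _ h5
        omega
      · rintro ⟨_, h4⟩
        rw [h4, h3]
    · constructor
      · intro h4; omega
      · rintro ⟨h4, _⟩; exact absurd h4 h
  · intro E c δ r hr
    have ha := hT r hr
    obtain ⟨hZ, hF⟩ := hZle _ ha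
    have h1 := bw_sum (ν := ν) (m := m) (N := N) (W := W) (M := M) (ρ := R * ν ^ (K - 1)) (T := T)
      (a := clT T r) (by omega) r hr.le
    have h2 : ¬ (cnt T (clT T r) r = cnt T (clT T r) T.length ∧ 0 < cnt T (clT T r) T.length) := by
      have h3 := cnt_succ (T := T) (clT T r) hr
      rw [if_pos rfl] at h3
      have h4 := cnt_mono (T := T) (clT T r) (show r + 1 ≤ T.length by omega)
      omega
    rw [if_neg h2] at h1
    have h5 := hpw E c δ (clT T r) ha r hr.le
    have h6 := Fr_mono ν m N T (clT T r) hr.le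
    have h7 : (pdat ν K N M T (fun j => if j < N * T.length then f (j / N) (j % N) else θ + 1)
        E c δ).pw (clT T r) (N * r + s) =
        (pdat ν K N M T (fun j => if j < N * T.length then f (j / N) (j % N) else θ + 1)
        E c δ).pw (clT T r) (N * r) + (ν ^ (K - 4) - Fr ν m N T (clT T r) r) := by
      rw [← (hf r hr).2.2.2.1]
      unfold Dat.pw
      rw [Finset.sum_range_add]
      congr 1
      apply Finset.sum_congr rfl
      intro i hi
      rw [Finset.mem_range] at hi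
      rw [hwt E c δ (clT T r) ha r hr i (by omega), if_pos rfl]
    rw [h7, h5]
    omega
  · intro E c δ a ha hpos
    obtain ⟨hZ, hF⟩ := hZle _ ha
    have h1 := bw_sum (ν := ν) (m := m) (N := N) (W := W) (M := M) (ρ := R * ν ^ (K - 1)) (T := T)
      (a := a) (by omega) T.length le_rfl
    rw [if_pos ⟨rfl, hpos⟩] at h1
    have h5 := hpw E c δ a ha T.length le_rfl
    have h7 : (pdat ν K N M T (fun j => if j < N * T.length then f (j / N) (j % N) else θ + 1)
        E c δ).pw a (N * T.length + Wf ν (lam M + 1)) =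
        (pdat ν K N M T (fun j => if j < N * T.length then f (j / N) (j % N) else θ + 1)
        E c δ).pw a (N * T.length) + W * fwn ν m M a := by
      unfold Dat.pw
      rw [Finset.sum_range_add]
      congr 1
      rw [← hθ, ← hW, Finset.sum_congr rfl (g := fun _ => fwn ν m M a)]
      · simp
      · intro i _
        have hcl : (pdat ν K N M T (fun j => if j < N * T.length then f (j / N) (j % N) else θ + 1)
            E c δ).cl (N * T.length + i) = M := by
          simp only [pdat]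
          rw [if_neg (by omega)]
        rw [Dat.wt_foreign (by rw [hcl]; omega) (by
          have := hlam a ha.le
          simp only [pdat]
          omega) (by right; rw [hcl]; exact ha), hcl]
        unfold Dat.fw fwn
        rw [hm, hW, hθ]
        rfl
    have h8 : Zc ν m N W M T a = (ν - 1) * W ^ 3 + Fr ν m N T a T.length + W * fwn ν m M a := rfl
    rw [h7, h5, ← hθ, ← hW]
    omega

end Pool.Agent.H97.Tag
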