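import Pool.Agent.H97.Tag.Defs

/-!
# Reading words: basic lemmas, runs of tag systems
-/

set_option autoImplicit false

namespace Pool.Agent.H97.Tag

open Relation

variable {A B C : Type*}

@[simp] theorem rd_nil (n : ℕ) (w : A → List B) (s : ℕ) : rd n w s [] = [] := by
  cases s <;> rfl

@[simp] theorem rd_zero_cons (n : ℕ) (w : A → List B) (a : A) (u : List A) :
    rd n w 0 (a :: u) = w a ++ rd n w (n - 1) u := rfl

@[simp] theorem rd_succ_cons (n : ℕ) (w : A → List B) (s : ℕ) (a : A) (u : List A) :
    rd n w (s + 1) (a :: u) = rd n w s u := rfl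

theorem rd_append (n : ℕ) (w : A → List B) (u v : List A) :
    ∀ s, s < n → rd n w s (u ++ v) = rd n w s u ++ rd n w ((s + (n - 1) * u.length) % n) v := by
  induction u with
  | nil =>
    intro s hs
    simp [Nat.mod_eq_of_lt hs]
  | cons a u ih =>
    intro s hs
    obtain ⟨k, rfl⟩ : ∃ k, n = k + 1 := ⟨n - 1, by omega⟩
    cases s with
    | zero =>
      simp only [List.cons_append, rd_zero_cons, List.append_assoc, Nat.add_sub_cancel,
        List.length_cons]
      rw [ih k (by omega)]
      have : (0 + k * (u.length + 1)) = k + k * u.length := by ring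
      rw [this]
      rfl
    | succ s =>
      simp only [List.cons_append, rd_succ_cons, List.length_cons]
      rw [ih s (by omega)]
      have : s + 1 + (k + 1 - 1) * (u.length + 1) = s + (k + 1 - 1) * u.length + (k + 1) := by
        simp only [Nat.add_sub_cancel]; ring
      rw [this, Nat.add_mod_right]

theorem rd_append_aligned {n : ℕ} (hn : 0 < n) (w : A → List B) {u : List A} (v : List A)
    (hu : n ∣ u.length) : rd n w 0 (u ++ v) = rd n w 0 u ++ rd n w 0 v := by
  rw [rd_append n w u v 0 hn]
  obtain ⟨k, hk⟩ := hu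
  rw [hk]
  have : (0 + (n - 1) * (n * k)) % n = 0 := by
    rw [zero_add, show (n - 1) * (n * k) = n * ((n - 1) * k) by ring]
    exact Nat.mul_mod_right _ _
  rw [this]

theorem rd_skip (n : ℕ) (w : A → List B) (u v : List A) :
    rd n w u.length (u ++ v) = rd n w 0 v := by
  induction u with
  | nil => rfl
  | cons a u ih => simpa using ih

theorem rd_short (n : ℕ) (w : A → List B) : ∀ (u : List A) (s : ℕ), u.length ≤ s →
    rd n w s u = [] := by
  intro u
  induction u with
  | nil => intro s _; simp
  | cons a u ih =>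
    intro s hs
    obtain ⟨s, rfl⟩ : ∃ k, s = k + 1 := ⟨s - 1, by simp at hs; omega⟩
    simp only [rd_succ_cons]
    exact ih s (by simp at hs; omega)

/-- Reading `f 0, f 1, …, f (n k - 1)` gives `w (f 0), w (f n), …`. -/
theorem rd_range {n : ℕ} (hn : 0 < n) (w : A → List B) (f : ℕ → A) (k : ℕ) :
    rd n w 0 ((List.range (n * k)).map f) = (List.range k).flatMap (fun i => w (f (n * i))) := by
  induction k with
  | zero => simp
  | succ k ih =>
    have h1 : (List.range (n * (k + 1))).map f =
        (List.range (n * k)).map f ++ (List.range n).map (fun i => f (n * k + i)) := by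
      rw [Nat.mul_succ, List.range_add, List.map_append, List.map_map]
      rfl
    rw [h1, rd_append_aligned hn w _ (by simp), ih, List.range_succ, List.flatMap_append]
    congr 1
    obtain ⟨j, rfl⟩ : ∃ j, n = j + 1 := ⟨n - 1, by omega⟩
    rw [List.range_succ_eq_map]
    simp only [List.map_cons, rd_zero_cons, Nat.add_sub_cancel, List.flatMap_cons,
      List.flatMap_nil, List.append_nil, Nat.add_zero]
    rw [rd_short]
    · simp
    · simp

/-- All letters which are read are equal to `a`. -/
theorem rd_const {n : ℕ} (hn : 0 < n) (w : A → List B) (b : B) (u : List A) :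
    ∀ s, s < n → (∀ i a, i % n = s → u[i]? = some a → w a = [b]) →
      ∃ k, rd n w s u = List.replicate k b ∧ u.length ≤ n * k + s ∧ n * k + s < u.length + n := by
  induction u with
  | nil => intro s hs _; exact ⟨0, by simp, by simp, by simpa using hs⟩
  | cons a u ih =>
    intro s hs h
    cases s with
    | zero =>
      have h0 : w a = [b] := h 0 a (by simp) (by simp)
      obtain ⟨k, hk, hk2, hk3⟩ := ih (n - 1) (by omega) (by
        intro i c hi hc
        refine h (i + 1) c ?_ (by simpa using hc)
        have : (i + 1) % n = ((i % n) + 1) % n := by simp [Nat.add_mod]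
        rw [this, hi]
        rw [show n - 1 + 1 = n by omega]
        simp)
      refine ⟨k + 1, ?_, ?_, ?_⟩
      · simp only [rd_zero_cons, h0, hk]
        rfl
      · simp only [List.length_cons, Nat.mul_succ]; omega
      · simp only [List.length_cons, Nat.mul_succ]; omega
    | succ s =>
      obtain ⟨k, hk, hk2, hk3⟩ := ih s (by omega) (by
        intro i c hi hc
        refine h (i + 1) c ?_ (by simpa using hc)
        have : (i + 1) % n = ((i % n) + 1) % n := by simp [Nat.add_mod]
        rw [this, hi]
        exact Nat.mod_eq_of_lt hs)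
      refine ⟨k, by simpa using hk, ?_, ?_⟩
      · simp only [List.length_cons]; omega
      · simp only [List.length_cons]; omega

/-! ### Tag systems -/

/-- One step of the tag system with deletion number `n` and rules `a ↦ w a`: the word
`S = a :: t` of length at least `n` is replaced by `S ++ w a` without its first `n` letters. -/
def TStep (n : ℕ) (w : A → List A) (S T : List A) : Prop :=
  n ≤ S.length ∧ ∃ a t, S = a :: t ∧ T = (S ++ w a).drop n

theorem tstep_det {n : ℕ} {w : A → List A} {S T T' : List A} (h : TStep n w S T)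
    (h' : TStep n w S T') : T = T' := by
  obtain ⟨_, a, t, rfl, rfl⟩ := h
  obtain ⟨_, a', t', e, rfl⟩ := h'
  obtain ⟨rfl, rfl⟩ := List.cons.inj e
  rfl

/-- The first step of reading an aligned prefix. -/
theorem first_step {n : ℕ} (hn : 0 < n) (w : A → List A) (k : ℕ) (u v : List A)
    (hu : u.length = n * (k + 1)) :
    ∃ u₂ a, u₂.length = n * k ∧ TStep n w (u ++ v) (u₂ ++ (v ++ w a)) ∧
      rd n w 0 u = w a ++ rd n w 0 u₂ := by
  obtain ⟨u1, u2, rfl, h1⟩ : ∃ u1 u2 : List A, u = u1 ++ u2 ∧ u1.length = n :=
    ⟨u.take n, u.drop n, (List.take_append_drop n u).symm, by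
      rw [List.length_take, hu, Nat.mul_succ]; omega⟩
  have h2 : u2.length = n * k := by
    rw [List.length_append, h1, Nat.mul_succ] at hu; omega
  obtain ⟨a, t, rfl⟩ : ∃ a t, u1 = a :: t := by
    cases u1 with
    | nil => simp at h1; omega
    | cons a t => exact ⟨a, t, rfl⟩
  have h4 : rd n w 0 (a :: t) = w a := by
    simp only [rd_zero_cons]
    rw [rd_short _ _ t (n - 1) (by simp at h1; omega)]
    simp
  refine ⟨u2, a, h2, ?_, ?_⟩
  · refine ⟨by simp at h1 ⊢; omega, a, t ++ u2 ++ v, by simp, ?_⟩
    rw [show (a :: t) ++ u2 ++ v ++ w a = (a :: t) ++ (u2 ++ (v ++ w a)) by simp, ← h1]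
    simp
  · rw [rd_append_aligned hn w u2 (by rw [h1]), h4]

/-- Reading an aligned prefix. -/
theorem reach_prefix {n : ℕ} (hn : 0 < n) (w : A → List A) :
    ∀ (k : ℕ) (u v : List A), u.length = n * k →
      ReflTransGen (TStep n w) (u ++ v) (v ++ rd n w 0 u) := by
  intro k
  induction k with
  | zero =>
    intro u v hu
    have : u = [] := List.eq_nil_of_length_eq_zero (by simpa using hu)
    subst this
    simp only [List.nil_append, rd_nil, List.append_nil]
    exact ReflTransGen.refl
  | succ k ih =>
    intro u v hu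
    obtain ⟨u2, a, h2, hs, he⟩ := first_step hn w k u v hu
    have h3 := ih u2 (v ++ w a) h2
    refine ReflTransGen.head hs ?_
    rw [he]
    simpa using h3

theorem reach_rd {n : ℕ} (hn : 0 < n) (w : A → List A) {u : List A} (hu : n ∣ u.length) :
    ReflTransGen (TStep n w) u (rd n w 0 u) := by
  obtain ⟨k, hk⟩ := hu
  simpa using reach_prefix hn w k u [] hk

theorem reach_rd_pos {n : ℕ} (hn : 0 < n) (w : A → List A) {u : List A} (hu : n ∣ u.length)
    (h0 : u ≠ []) : TransGen (TStep n w) u (rd n w 0 u) := by
  have hlen : 0 < u.length := List.length_pos_iff.2 h0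
  obtain ⟨k, hk⟩ := hu
  obtain ⟨k, rfl⟩ : ∃ j, k = j + 1 := ⟨k - 1, by
    rcases k with _ | k
    · rw [Nat.mul_zero] at hk; omega
    · omega⟩
  obtain ⟨u2, a, h2, hs, he⟩ := first_step hn w k u [] hk
  rw [he]
  have h3 := reach_prefix hn w k u2 ([] ++ w a) h2
  rw [List.append_nil] at hs
  exact TransGen.head' hs (by simpa using h3)

end Pool.Agent.H97.Tag
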