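import Pool.Agent.H97.Tag.Verify2

/-!
# The simulation of one cycle
-/

set_option autoImplicit false

namespace Pool.Agent.H97.Tag

open Finset

/-- The word of the cells of a list of letters. -/
def cells (D : Dat) (Λ : ℕ) (l : List ℕ) : List Bool := l.flatMap (fun y => blk D.Ol Λ [D.c y])

theorem cells_append (D : Dat) (Λ : ℕ) (l l' : List ℕ) :
    cells D Λ (l ++ l') = cells D Λ l ++ cells D Λ l' := List.flatMap_append

theorem cells_eq {D : Dat} {Λ : ℕ} (hO : D.Off) (l : List ℕ) :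
    (∀ y ∈ l, D.c y + D.E + 1 ≤ Λ) →
    cells D Λ l = blk D.Ol (Λ * l.length) (ixs Λ 0 (l.map D.c)) ∧
      Good D.E (Λ * l.length) (ixs Λ 0 (l.map D.c)) := by
  induction l using List.reverseRecOn with
  | nil =>
    intro _
    refine ⟨?_, ?_, ?_⟩
    · simp [cells, blk]
    · simp
    · simp
  | append_singleton l y ih =>
    intro hl
    obtain ⟨h1, h2⟩ := ih (fun y hy => hl y (by simp [hy]))
    have hy := hl y (by simp)
    rw [cells_append, h1]
    have e1 : cells D Λ [y] = blk D.Ol Λ [D.c y] := by simp [cells]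
    rw [e1, blk_append hO.lt _ _ h2.2]
    have e2 : ixs Λ 0 ((l ++ [y]).map D.c) =
        ixs Λ 0 (l.map D.c) ++ [D.c y].map (Λ * l.length + ·) := by
      rw [List.map_append, ixs_append]
      simp only [List.map_cons, List.map_nil, ixs_cons, ixs_nil, List.length_map, Nat.zero_add]
      rw [Nat.add_comm]
    have e3 : Λ * (l ++ [y]).length = Λ * l.length + Λ := by simp [Nat.mul_add]
    rw [e2, e3]
    refine ⟨rfl, ?_, ?_⟩
    · rw [List.pairwise_append]
      refine ⟨h2.1, by simp, ?_⟩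
      intro p hp q hq
      simp only [List.map_cons, List.map_nil, List.mem_singleton] at hq
      have := h2.2 p hp
      omega
    · intro p hp
      rw [List.mem_append] at hp
      rcases hp with hp | hp
      · have := h2.2 p hp
        omega
      · simp only [List.map_cons, List.map_nil, List.mem_singleton] at hp
        omega

/-- The simulation parameters. -/
structure Setup (D : Dat) (R M N s : ℕ) (h : ℕ → ℕ) (P : ℕ → List ℕ) (σ g ϑ R' : ℕ) : Prop where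
  full : Full D R M N s (tlist M P) h
  hσ : σ * g = D.ν
  hR : R = g * R'
  hR' : R' + ϑ = (D.ν - 1) * Wf D.ν (lam M + 1) ^ 3
  par : (g = 2 ∧ ϑ = 0) ∨ (g = 1 ∧ ϑ = 1 ∧ ∃ k, D.ν = 2 * k + 1)
  sorted : ∀ y < M, (P y).Pairwise (· < ·)
  bounded : ∀ y < M, ∀ x ∈ P y, x < M
  special : ∀ y < M, P y = [] → D.ν ^ 2 ∣ D.c y + D.ν

namespace Setup

variable {D : Dat} {R M N s : ℕ} {h : ℕ → ℕ} {P : ℕ → List ℕ} {σ g ϑ R' : ℕ}

theorem cnt_eq (F : Setup D R M N s h P σ g ϑ R') {a : ℕ} (ha : a < M) :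
    cnt (tlist M P) a (tlist M P).length = (P a).length := by
  unfold cnt
  rw [List.take_length, tlist_filter ha (F.sorted a ha) (F.bounded a ha), List.length_map]

theorem exists_r (F : Setup D R M N s h P σ g ϑ R') {a : ℕ} (ha : a < M) (hP : P a ≠ []) :
    ∃ r < (tlist M P).length, clT (tlist M P) r = a := by
  have h1 := F.cnt_eq ha
  have h2 : 0 < (P a).length := List.length_pos_iff.2 hP
  rw [← h1] at h2
  unfold cnt at h2
  rw [List.take_length] at h2
  obtain ⟨p, hp⟩ := List.exists_mem_of_length_pos h2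
  rw [List.mem_filter, decide_eq_true_eq] at hp
  obtain ⟨r, hr, hr2⟩ := List.getElem_of_mem hp.1
  refine ⟨r, hr, ?_⟩
  unfold clT
  rw [List.getD_eq_getElem _ _ hr, hr2]
  exact hp.2

/-- Codes of normal letters are divisible by `ν ^ 2`. -/
theorem c_normal (F : Setup D R M N s h P σ g ϑ R') {a : ℕ} (ha : a < M) (hP : P a ≠ []) :
    D.ν ^ 2 ∣ D.c a := by
  have hK := F.full.hK
  obtain ⟨j, rfl⟩ := F.full.exists_cl (F.exists_r ha hP)
  rw [F.full.c_cls]
  apply Dvd.dvd.add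
  · exact Dvd.dvd.mul_right (pow_dvd_pow _ (by omega)) _
  · exact pow_dvd_pow _ (by unfold lam; omega)

theorem c_dvd (F : Setup D R M N s h P σ g ϑ R') {a : ℕ} (ha : a < M) : D.ν ∣ D.c a := by
  by_cases hP : P a = []
  · have h1 := (dvd_pow_self D.ν (n := 2) (by norm_num)).trans (F.special a ha hP)
    exact (Nat.dvd_add_left dvd_rfl).1 h1
  · exact (dvd_pow_self D.ν (n := 2) (by norm_num)).trans (F.c_normal ha hP)

theorem W_mod (_F : Setup D R M N s h P σ g ϑ R') :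
    ∃ z, Wf D.ν (lam M + 1) = D.ν ^ 2 * z + D.ν + 1 := by
  refine ⟨Wf D.ν (lam M - 1), ?_⟩
  have : lam M + 1 = 2 + (lam M - 1) := by unfold lam; omega
  rw [this, Wf_add]
  have h2 : Wf D.ν 2 = 1 + D.ν := by simp [Wf, Finset.sum_range_succ]
  rw [h2]
  have h3 : 2 + (lam M - 1) - 1 - 1 = lam M - 1 := by omega
  ring

/-- `R' + ϑ ≡ -1 - 2 ν` modulo `ν ^ 2`. -/
theorem R'_mod (F : Setup D R M N s h P σ g ϑ R') :
    ∃ z : ℤ, (R' : ℤ) = D.ν ^ 2 * z - 2 * D.ν - 1 - ϑ := by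
  obtain ⟨w, hw⟩ := F.W_mod
  have hν := F.full.hν
  have h1 := F.hR'
  have h2 : ((R' + ϑ : ℕ) : ℤ) = ((D.ν : ℤ) - 1) * (D.ν ^ 2 * w + D.ν + 1) ^ 3 := by
    rw [h1, hw]
    push_cast [Nat.cast_sub (show 1 ≤ D.ν by omega)]
    ring
  push_cast at h2
  have h3 : (R' : ℤ) = ((D.ν : ℤ) - 1) * (D.ν ^ 2 * w + D.ν + 1) ^ 3 - ϑ := by linarith
  rw [h3]
  refine ⟨((D.ν : ℤ) - 1) * (w ^ 3 * D.ν ^ 4 + 3 * w ^ 2 * D.ν ^ 2 * (D.ν + 1) +
    3 * w * (D.ν + 1) ^ 2) + D.ν ^ 2 + 2 * D.ν, ?_⟩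
  ring

theorem E_mod (F : Setup D R M N s h P σ g ϑ R') :
    ∃ z : ℤ, (D.E : ℤ) = D.ν ^ 2 * z + D.ν + 1 := by
  obtain ⟨z, hz⟩ := F.full.Emod
  exact ⟨z, by rw [hz]; push_cast; ring⟩

theorem m_mod (F : Setup D R M N s h P σ g ϑ R') :
    ∃ z : ℤ, (D.m : ℤ) = D.ν ^ 2 * z + D.ν + 1 := by
  obtain ⟨z, hz⟩ := F.full.m_mod
  exact ⟨z, by rw [hz]; push_cast; ring⟩

theorem g_par (F : Setup D R M N s h P σ g ϑ R') : (g : ℤ) * (1 + ϑ) = 2 := by
  rcases F.par with ⟨h1, h2⟩ | ⟨h1, h2, _⟩ <;> rw [h1, h2] <;> norm_num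

/-- The cell length is `-2` modulo `ν`. -/
theorem Λ_mod (F : Setup D R M N s h P σ g ϑ R') : (D.ν : ℤ) ∣ (R * D.E : ℕ) + 2 := by
  obtain ⟨x, hx⟩ := F.R'_mod
  obtain ⟨y, hy⟩ := F.E_mod
  have hg := F.g_par
  rw [F.hR]
  push_cast
  rw [hx, hy]
  refine ⟨g * (D.ν * x - 2) * (D.ν ^ 2 * y + D.ν + 1) - g * (1 + ϑ) * (D.ν * y + 1), ?_⟩
  linear_combination (-1 : ℤ) * hg

/-! ### The blocks at rest -/

theorem rest_pos (F : Setup D R M N s h P σ g ϑ R') {y i : ℕ} (hy : y < M) (hi0 : 0 < i)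
    (hi : i < σ) : ¬ D.ν ∣ D.c y + R * D.E * i ∧
      (D.ν ∣ D.c y + R * D.E * i + 1 → ϑ = 1 ∧ 2 * i = D.ν + 1) := by
  have hc := F.c_dvd hy
  have hν := F.full.hν
  have hΛ : D.ν ∣ R * D.E + 2 := by exact_mod_cast F.Λ_mod
  have hσ := F.hσ
  have key : D.ν ∣ D.c y + R * D.E * i + 2 * i := by
    have e : D.c y + R * D.E * i + 2 * i = D.c y + (R * D.E + 2) * i := by ring
    rw [e]
    exact Dvd.dvd.add hc (Dvd.dvd.mul_right hΛ _)
  constructor
  · intro h1
    have h2 : D.ν ∣ 2 * i := (Nat.dvd_add_right h1).1 key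
    rcases F.par with ⟨hg, _⟩ | ⟨hg, _, k, hk⟩
    · have := Nat.le_of_dvd (by omega) h2
      rw [hg] at hσ
      omega
    · rw [hg, Nat.mul_one] at hσ
      have h3 : Nat.Coprime D.ν 2 := by
        rw [hk, Nat.coprime_two_right]
        exact ⟨k, rfl⟩
      have h4 := (Nat.Coprime.dvd_mul_left h3).1 h2
      have := Nat.le_of_dvd hi0 h4
      omega
  · intro h1
    have e : D.c y + R * D.E * i + 2 * i = (D.c y + R * D.E * i + 1) + (2 * i - 1) := by omega
    rw [e] at key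
    have h2 : D.ν ∣ 2 * i - 1 := (Nat.dvd_add_right h1).1 key
    obtain ⟨q, hq⟩ := h2
    rcases F.par with ⟨hg, _⟩ | ⟨hg, hϑ, k, hk⟩
    · rw [hg] at hσ
      exfalso
      have : 2 * i - 1 = 2 * (σ * q) := by rw [hq, ← hσ]; ring
      omega
    · refine ⟨hϑ, ?_⟩
      rw [hg, Nat.mul_one] at hσ
      rcases q with _ | _ | q
      · omega
      · omega
      · exfalso
        have : D.ν * (q + 1 + 1) = D.ν * q + 2 * D.ν := by ring
        have : 0 ≤ D.ν * q := Nat.zero_le _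
        omega

theorem rest_dead (F : Setup D R M N s h P σ g ϑ R') {y i : ℕ} (hy : y < M) (hi0 : 0 < i)
    (hi : i < σ) (hne : ϑ = 0 ∨ 2 * i ≠ D.ν + 1) : D.Dead (D.c y + R * D.E * i) := by
  obtain ⟨h1, h2⟩ := F.rest_pos hy hi0 hi
  refine ⟨h1, fun h3 => ?_⟩
  have := h2 h3
  omega

/-- The block at rest which is read. -/
theorem rest_persist (F : Setup D R M N s h P σ g ϑ R') {y i : ℕ} (hy : y < M)
    (hyP : P y ≠ []) (hϑ : ϑ = 1) (hi : 2 * i = D.ν + 1) :
    D.ν ∣ D.c y + R * D.E * i + 1 ∧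
      D.Dead ((D.c y + R * D.E * i + 1) / D.ν + D.E * D.m) := by
  obtain ⟨c, hc⟩ := F.c_normal hy hyP
  have hν := F.full.hν
  obtain ⟨x, hx⟩ := F.R'_mod
  obtain ⟨e, he⟩ := F.E_mod
  obtain ⟨m, hm⟩ := F.m_mod
  have hR := F.hR
  have hg : g = 1 := by rcases F.par with ⟨_, h⟩ | ⟨h, _⟩ <;> omega
  rw [hg, Nat.one_mul] at hR
  rw [hϑ] at hx
  have hiz : 2 * (i : ℤ) = D.ν + 1 := by exact_mod_cast hi
  -- the position plus one is `-3 ν` modulo `ν ^ 2`
  have key : ∃ w : ℤ, ((D.c y + R * D.E * i + 1 : ℕ) : ℤ) = D.ν * (D.ν * w - 3) := by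
    rw [hR, hc]
    push_cast
    rw [hx, he]
    refine ⟨c + x * (D.ν ^ 2 * e + D.ν + 1) * i - (1 + D.ν) * e * (D.ν + 1) - (D.ν + 3), ?_⟩
    push_cast
    linear_combination (-(1 + (D.ν : ℤ)) * (D.ν ^ 2 * e + D.ν + 1)) * hiz
  obtain ⟨w, hw⟩ := key
  have h1 : D.ν ∣ D.c y + R * D.E * i + 1 := by
    have : (D.ν : ℤ) ∣ ((D.c y + R * D.E * i + 1 : ℕ) : ℤ) := by rw [hw]; exact Dvd.intro _ rfl
    exact_mod_cast this
  refine ⟨h1, ?_⟩
  obtain ⟨q, hq⟩ := h1
  rw [hq, Nat.mul_div_cancel_left _ (by omega)]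
  have hqz : (q : ℤ) = D.ν * w - 3 := by
    rw [hq] at hw
    push_cast at hw
    exact mul_left_cancel₀ (show (D.ν : ℤ) ≠ 0 by omega) hw
  have h2 : D.ν ∣ q + D.E * D.m + 2 := by
    have : (D.ν : ℤ) ∣ ((q + D.E * D.m + 2 : ℕ) : ℤ) := by
      push_cast
      rw [hqz, he, hm]
      refine ⟨w + (D.ν * e + 1) * (D.ν ^ 2 * m + D.ν + 1) + (D.ν * m + 1), ?_⟩
      ring
    exact_mod_cast this
  generalize q + D.E * D.m = p at h2
  constructor
  · intro hp
    have := Nat.le_of_dvd (by norm_num) ((Nat.dvd_add_right hp).1 h2)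
    omega
  · intro hp
    have h12 : D.ν ∣ p + 1 + 1 := h2
    have := Nat.le_of_dvd (by norm_num) ((Nat.dvd_add_right hp).1 h12)
    omega

theorem dead_list (D : Dat) (Λ : ℕ) (l : List ℕ) : ∀ o : ℕ,
    (∀ y ∈ l, ∀ i, o ≤ i → i < o + l.length → D.Dead (D.c y + Λ * i)) →
    (ixs Λ o (l.map D.c)).flatMap (reads D.ν D.Ol) = [] := by
  induction l with
  | nil => intro o _; rfl
  | cons y l ih =>
    intro o ho
    simp only [List.map_cons, ixs_cons, List.flatMap_cons]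
    rw [D.reads_dead (ho y (by simp) o le_rfl (by simp)), List.nil_append]
    apply ih
    intro z hz i hi hi2
    exact ho z (by simp [hz]) i (by omega) (by simp only [List.length_cons]; omega)

/-- The blocks at rest disappear, except that one letter is read if `ν` is odd. -/
theorem rest_ok (F : Setup D R M N s h P σ g ϑ R') {l : List ℕ} (hl : l.length + 1 = σ)
    (hlM : ∀ y ∈ l, y < M ∧ P y ≠ []) :
    ((ixs (R * D.E) 1 (l.map D.c)).flatMap (reads D.ν D.Ol)).length = ϑ ∧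
    ∀ p ∈ ixs D.E D.m ((ixs (R * D.E) 1 (l.map D.c)).flatMap (reads D.ν D.Ol)), D.Dead p := by
  have hν := F.full.hν
  rcases F.par with ⟨hg, hϑ⟩ | ⟨hg, hϑ, k, hk⟩
  · have h1 : (ixs (R * D.E) 1 (l.map D.c)).flatMap (reads D.ν D.Ol) = [] := by
      apply dead_list
      intro y hy i hi hi2
      exact F.rest_dead (hlM y hy).1 (by omega) (by omega) (Or.inl hϑ)
    rw [h1, hϑ]
    exact ⟨rfl, by simp⟩
  · have hσ := F.hσ
    rw [hg, Nat.mul_one] at hσ
    obtain ⟨l1, y, l2, rfl, hl1⟩ : ∃ l1 y l2, l = l1 ++ y :: l2 ∧ l1.length = k := by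
      have hkl : k < l.length := by omega
      refine ⟨l.take k, l[k], l.drop (k + 1), ?_, ?_⟩
      · rw [← List.drop_eq_getElem_cons hkl, List.take_append_drop]
      · rw [List.length_take]; omega
    have hy := hlM y (by simp)
    obtain ⟨h1, h2⟩ := F.rest_persist (i := k + 1) hy.1 hy.2 hϑ (by omega)
    have e1 : (ixs (R * D.E) 1 ((l1 ++ y :: l2).map D.c)).flatMap (reads D.ν D.Ol) =
        [(D.c y + R * D.E * (k + 1) + 1) / D.ν] := by
      rw [List.map_append, ixs_append, List.flatMap_append, List.map_cons, ixs_cons,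
        List.flatMap_cons, List.length_map, hl1]
      rw [dead_list D (R * D.E) l1 1, dead_list D (R * D.E) l2 (1 + k + 1)]
      · rw [List.nil_append, List.append_nil, Nat.add_comm 1 k]
        exact D.reads_neg_one (by omega) h1
      · intro z hz i hi hi2
        rw [List.length_append, List.length_cons] at hl
        exact F.rest_dead (hlM z (by simp [hz])).1 (by omega) (by omega) (Or.inr (by omega))
      · intro z hz i hi hi2
        rw [List.length_append, List.length_cons] at hl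
        exact F.rest_dead (hlM z (by simp [hz])).1 (by omega) (by omega) (Or.inr (by omega))
    rw [e1, hϑ]
    refine ⟨rfl, ?_⟩
    intro p hp
    simp only [ixs_cons, ixs_nil, List.mem_singleton] at hp
    rw [hp]
    exact h2

end Setup

end Pool.Agent.H97.Tag
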