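import Pool.Agent.H97.Tag.Sim

/-!
# The simulation of one cycle (continued)
-/

set_option autoImplicit false

namespace Pool.Agent.H97.Tag

open Finset Relation

/-- Iterated passes over a concatenation. -/
theorem iter_append (D : Dat) (hν : 0 < D.ν) (u w : List Bool) : ∀ n,
    (∀ k < n, D.ν ∣ ((D.pass)^[k] u).length) →
    (D.pass)^[n] (u ++ w) = (D.pass)^[n] u ++ (D.pass)^[n] w := by
  intro n
  induction n with
  | zero => intro _; rfl
  | succ n ih =>
    intro h
    rw [Function.iterate_succ_apply', Function.iterate_succ_apply', Function.iterate_succ_apply',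
      ih (fun k hk => h k (by omega))]
    exact rd_append_aligned hν _ _ (h n (by omega))

/-- Letters at positions which are `1` modulo `ν` are `false`. -/
def Z1 (D : Dat) (w : List Bool) : Prop := ∀ i, i % D.ν = 1 → w[i]? ≠ some true

theorem Z1_append {D : Dat} {u w : List Bool} (h1 : Z1 D u) (h2 : Z1 D w)
    (hu : D.ν ∣ u.length) : Z1 D (u ++ w) := by
  intro i hi
  by_cases h : i < u.length
  · rw [List.getElem?_append_left h]
    exact h1 i hi
  · rw [List.getElem?_append_right (by omega)]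
    apply h2
    obtain ⟨k, hk⟩ := hu
    rw [hk] at h ⊢
    obtain ⟨j, rfl⟩ : ∃ j, i = D.ν * k + j := ⟨i - D.ν * k, by omega⟩
    rw [Nat.mul_add_mod] at hi
    rw [Nat.add_sub_cancel_left]
    exact hi

theorem Z1_nil (D : Dat) : Z1 D [] := by
  intro i _
  simp

theorem Z1_blk {D : Dat} (hν : 3 ≤ D.ν) {L : ℕ} {ps : List ℕ} (h : ∀ p ∈ ps, D.ν ∣ p + 1) :
    Z1 D (blk D.Ol L ps) := by
  intro i hi h1
  unfold blk at h1
  rw [List.getElem?_map, Option.map_eq_some_iff] at h1
  obtain ⟨i', hi', h1⟩ := h1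
  have hii : i' = i := by
    rw [List.getElem?_eq_some_iff] at hi'
    obtain ⟨hh, hi'⟩ := hi'
    rw [List.getElem_range] at hi'
    exact hi'.symm
  rw [hii, decide_eq_true_eq] at h1
  obtain ⟨p, hp, d, hd, rfl⟩ := h1
  obtain ⟨z, hz⟩ := h p hp
  unfold Dat.Ol at hd
  rw [List.mem_cons, List.mem_map] at hd
  rcases hd with rfl | ⟨j, _, rfl⟩
  · rw [hz, Nat.mul_mod_right] at hi
    omega
  · have h3 : (p + D.ν * D.δ j + 1) % D.ν = 0 := by
      have : p + D.ν * D.δ j + 1 = D.ν * (z + D.δ j) := by rw [Nat.mul_add, ← hz]; ring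
      rw [this, Nat.mul_mod_right]
    have h4 : (p + D.ν * D.δ j + 1) % D.ν = 2 := by
      rw [Nat.add_mod, hi]
      have : 1 % D.ν = 1 := Nat.mod_eq_of_lt (by omega)
      rw [this]
      exact Nat.mod_eq_of_lt (by omega)
    omega

namespace Setup

variable {D : Dat} {R M N s : ℕ} {h : ℕ → ℕ} {P : ℕ → List ℕ} {σ g ϑ R' : ℕ}

theorem cell_le (F : Setup D R M N s h P σ g ϑ R') {l : List ℕ} (hl : ∀ y ∈ l, y < M) :
    ∀ y ∈ l, D.c y + D.E + 1 ≤ R * D.E := fun y hy => F.full.cell y (hl y hy)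

theorem cells_length (F : Setup D R M N s h P σ g ϑ R') {l : List ℕ} (hl : ∀ y ∈ l, y < M) :
    (cells D (R * D.E) l).length = R * D.E * l.length := by
  rw [(cells_eq F.full.off l (F.cell_le hl)).1, blk_length]

/-- The word of one group. -/
theorem group_word (F : Setup D R M N s h P σ g ϑ R') {y : ℕ} {l : List ℕ}
    (hl : l.length + 1 = σ) (hlM : ∀ z ∈ y :: l, z < M) :
    cells D (R * D.E) (y :: l) =
      blk D.Ol (D.ν * (R' * D.E)) (D.c y :: ixs (R * D.E) 1 (l.map D.c)) ∧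
    Good D.E (D.ν * (R' * D.E)) (D.c y :: ixs (R * D.E) 1 (l.map D.c)) := by
  have h1 := cells_eq F.full.off (y :: l) (F.cell_le hlM)
  have e : R * D.E * (y :: l).length = D.ν * (R' * D.E) := by
    rw [List.length_cons, hl, F.hR, ← F.hσ]
    ring
  rw [e] at h1
  simpa using h1

/-- The evolution of a group of normal letters. -/
theorem group_iter (F : Setup D R M N s h P σ g ϑ R') {y : ℕ} {l : List ℕ}
    (hl : l.length + 1 = σ) (hlM : ∀ z ∈ y :: l, z < M ∧ P z ≠ []) :
    ∃ rest : List ℕ, ∀ t, 1 ≤ t → t ≤ D.K →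
      (D.pass)^[t] (cells D (R * D.E) (y :: l)) =
        blk D.Ol (D.Ls y (D.E * ((D.ν - 1) * Wf D.ν (lam M + 1) ^ 3)) t) (D.pss y t rest) ∧
      (t < D.K → D.ν ∣ D.Ls y (D.E * ((D.ν - 1) * Wf D.ν (lam M + 1) ^ 3)) t) := by
  obtain ⟨h1, h2⟩ := F.group_word hl (fun z hz => (hlM z hz).1)
  obtain ⟨h3, h4⟩ := F.rest_ok hl (fun z hz => hlM z (by simp [hz]))
  have hy := hlM y (by simp)
  have hC := F.full.cond hy.1 (F.exists_r hy.1 hy.2)
  have hB : R' * D.E + D.E * ((ixs (R * D.E) 1 (l.map D.c)).flatMap (reads D.ν D.Ol)).length =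
      D.E * ((D.ν - 1) * Wf D.ν (lam M + 1) ^ 3) := by
    rw [h3, ← F.hR']; ring
  have hpos : 0 < cnt (tlist M P) y (tlist M P).length := by
    rw [F.cnt_eq hy.1]; exact List.length_pos_iff.2 hy.2
  have hG := Dat.group F.full.hν F.full.off hC (F.c_dvd hy.1) h4
    (by
      intro t _ ht2
      rw [hB]
      exact F.full.Sm_dvd hy.1 hpos ht2) h2
  rw [hB] at hG
  rw [h1]
  exact ⟨_, hG⟩

theorem group_dvd (F : Setup D R M N s h P σ g ϑ R') {y : ℕ} {l : List ℕ}
    (hl : l.length + 1 = σ) (hlM : ∀ z ∈ y :: l, z < M ∧ P z ≠ []) {t : ℕ} (ht : t < D.K) :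
    D.ν ∣ ((D.pass)^[t] (cells D (R * D.E) (y :: l))).length := by
  rcases Nat.eq_zero_or_pos t with rfl | ht0
  · rw [Function.iterate_zero_apply, (F.group_word hl (fun z hz => (hlM z hz).1)).1, blk_length]
    exact Dvd.intro _ rfl
  · obtain ⟨rest, hr⟩ := F.group_iter hl hlM
    obtain ⟨h1, h2⟩ := hr t ht0 ht.le
    rw [h1, blk_length]
    exact h2 ht

/-- The result of a cycle on one group. -/
theorem group_last (F : Setup D R M N s h P σ g ϑ R') {y : ℕ} {l : List ℕ}
    (hl : l.length + 1 = σ) (hlM : ∀ z ∈ y :: l, z < M ∧ P z ≠ []) :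
    (D.pass)^[D.K] (cells D (R * D.E) (y :: l)) = cells D (R * D.E) (P y) := by
  have hK := F.full.hK
  have hy := hlM y (by simp)
  obtain ⟨rest, hr⟩ := F.group_iter hl hlM
  obtain ⟨h1, _⟩ := hr D.K (by omega) le_rfl
  have hpos : 0 < cnt (tlist M P) y (tlist M P).length := by
    rw [F.cnt_eq hy.1]; exact List.length_pos_iff.2 hy.2
  rw [h1, F.full.Ls_last hy.1 hpos, F.cnt_eq hy.1]
  rw [(cells_eq F.full.off (P y) (F.cell_le (F.bounded y hy.1))).1]
  congr 1
  unfold Dat.pss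
  rw [if_neg (by omega), List.append_nil, F.full.final' hy.1,
    tlist_filter hy.1 (F.sorted y hy.1) (F.bounded y hy.1), List.map_map]
  rfl

/-- In the early stages the letters at positions `1` modulo `ν` are `false`. -/
theorem group_Z1 (F : Setup D R M N s h P σ g ϑ R') {y : ℕ} {l : List ℕ}
    (hl : l.length + 1 = σ) (hlM : ∀ z ∈ y :: l, z < M ∧ P z ≠ []) {t : ℕ} (ht : 2 ≤ t)
    (ht3 : t ≤ 3) : Z1 D ((D.pass)^[t] (cells D (R * D.E) (y :: l))) := by
  have hK := F.full.hK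
  have hy := hlM y (by simp)
  obtain ⟨rest, hr⟩ := F.group_iter hl hlM
  obtain ⟨h1, _⟩ := hr t (by omega) (by omega)
  have hC := F.full.cond hy.1 (F.exists_r hy.1 hy.2)
  rw [h1]
  apply Z1_blk F.full.hν
  intro p hp
  unfold Dat.pss at hp
  rw [if_neg (by omega), List.append_nil, List.mem_flatMap] at hp
  obtain ⟨j, hj, hp⟩ := hp
  rw [List.mem_range] at hj
  have h4 := hC.four j hj
  unfold Dat.AS at hp
  rw [if_pos (by omega), List.mem_singleton] at hp
  rw [hp]
  have h5 := hC.persist j hj (t - 1) (by omega) (by omega) (by omega)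
  have h7 := D.X_add_one (by have := F.full.hν; omega) y (t - 1) j h5
  rw [show t - 1 + 1 = t by omega] at h7
  have hdvd : D.ν ^ t ∣ D.Q y t j ∨ t = D.dt y j := by
    by_cases h8 : t < D.dt y j
    · exact Or.inl (hC.persist j hj t (by omega) h8 (by omega))
    · omega
  rcases hdvd with h8 | h8
  · rw [← h7] at h8
    have e : D.ν ^ t = D.ν ^ (t - 1) * D.ν := by rw [← pow_succ]; congr 1; omega
    rw [e] at h8
    exact Nat.dvd_of_mul_dvd_mul_left (pow_pos F.full.νpos _) h8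
  · omega

end Setup

end Pool.Agent.H97.Tag
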