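import Pool.Agent.H97.Tag.Sim2

/-!
# Cycles and the end of the computation
-/

set_option autoImplicit false

namespace Pool.Agent.H97.Tag

open Finset Relation

theorem pass_length (D : Dat) {n : ℕ} (hν : 0 < D.ν) {u : List Bool} (hu : u.length = D.ν * n)
    (h0 : ∀ i, i % D.ν = 0 → u[i]? ≠ some true) : D.pass u = List.replicate n false := by
  obtain ⟨k, h1, h2, h3⟩ := rd_const hν (wd D.Ol D.E) false u 0 hν (by
    intro i a hi ha
    cases a with
    | false => rfl
    | true => exact absurd ha (h0 i hi))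
  unfold Dat.pass
  rw [h1]
  congr 1
  rw [hu] at h2 h3
  rw [Nat.add_zero] at h2 h3
  have h4 := Nat.le_of_mul_le_mul_left h2 hν
  have h5 : D.ν * k < D.ν * (n + 1) := by rw [Nat.mul_succ]; exact h3
  have h6 := Nat.lt_of_mul_lt_mul_left h5
  omega

/-- A pass over a word all of whose blocks are dead. -/
theorem pass_dead (D : Dat) (hν : 0 < D.ν) (hO : D.Off) {n : ℕ} {ps : List ℕ}
    (hg : Good D.E (D.ν * n) ps) (hd : ∀ p ∈ ps, D.Dead p) :
    D.pass (blk D.Ol (D.ν * n) ps) = List.replicate n false := by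
  obtain ⟨h1, _⟩ := rd_blk hν hO.lt hO.sorted hg
  have h2 : ps.flatMap (reads D.ν D.Ol) = [] := by
    rw [List.flatMap_eq_nil_iff]
    intro p hp
    exact D.reads_dead (hd p hp)
  rw [h2] at h1
  show rd D.ν (wd D.Ol D.E) 0 (blk D.Ol (D.ν * n) ps) = List.replicate n false
  simpa [blk_nil] using h1

/-- Iterated passes are runs of the tag system. -/
theorem reach_iter (D : Dat) (hν : 0 < D.ν) (u : List Bool) : ∀ n,
    (∀ k < n, D.ν ∣ ((D.pass)^[k] u).length) →
    ReflTransGen (TStep D.ν (wd D.Ol D.E)) u ((D.pass)^[n] u) := by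
  intro n
  induction n with
  | zero => intro _; exact ReflTransGen.refl
  | succ n ih =>
    intro h
    rw [Function.iterate_succ_apply']
    exact (ih (fun k hk => h k (by omega))).trans (reach_rd hν _ (h n (by omega)))

theorem reach_iter_pos (D : Dat) (hν : 0 < D.ν) {u : List Bool} (hu : u ≠ []) {n : ℕ}
    (hn : 0 < n) (h : ∀ k < n, D.ν ∣ ((D.pass)^[k] u).length) :
    TransGen (TStep D.ν (wd D.Ol D.E)) u ((D.pass)^[n] u) := by
  obtain ⟨n, rfl⟩ : ∃ j, n = j + 1 := ⟨n - 1, by omega⟩
  rw [Function.iterate_succ_apply]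
  have h1 := reach_rd_pos hν (wd D.Ol D.E) (h 0 (by omega)) hu
  refine TransGen.trans_left h1 ?_
  exact reach_iter D hν (D.pass u) n (fun k hk => by
    have := h (k + 1) (by omega)
    rwa [Function.iterate_succ_apply] at this)

/-- The length modulo `ν - 1` does not change. -/
theorem length_mod {D : Dat} (hν : 2 ≤ D.ν) (hE : (D.ν - 1) ∣ D.E) {S T : List Bool}
    (h : ReflTransGen (TStep D.ν (wd D.Ol D.E)) S T) :
    S.length % (D.ν - 1) = T.length % (D.ν - 1) := by
  induction h with
  | refl => rfl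
  | tail _ hs ih =>
    rw [ih]
    obtain ⟨h1, a, t, rfl, rfl⟩ := hs
    obtain ⟨e, he⟩ := hE
    rw [List.length_drop, List.length_append]
    cases a with
    | false =>
      have : (wd D.Ol D.E false).length = 1 := rfl
      rw [this]
      generalize (false :: t).length = L at *
      have e1 : L = (L + 1 - D.ν) + (D.ν - 1) := by omega
      conv_lhs => rw [e1]
      exact Nat.add_mod_right _ _
    | true =>
      have : (wd D.Ol D.E true).length = D.E + 1 := by simp [wd]
      rw [this]
      generalize (true :: t).length = L at *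
      rcases Nat.eq_zero_or_pos e with rfl | hpos
      · rw [Nat.mul_zero] at he
        rw [he]
        have e1 : L = (L + (0 + 1) - D.ν) + (D.ν - 1) := by omega
        conv_lhs => rw [e1]
        exact Nat.add_mod_right _ _
      · obtain ⟨e, rfl⟩ : ∃ e', e = e' + 1 := ⟨e - 1, by omega⟩
        have e1 : L + (D.E + 1) - D.ν = L + (D.ν - 1) * e := by
          rw [he, Nat.mul_succ]; omega
        rw [e1, Nat.add_mul_mod_self_left]

/-- A word of zeros shrinks to a word of length smaller than `ν`. -/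
theorem zeros_end {D : Dat} (hν : 2 ≤ D.ν) : ∀ L, 1 ≤ L →
    ∃ r, 1 ≤ r ∧ r < D.ν ∧ ReflTransGen (TStep D.ν (wd D.Ol D.E)) (List.replicate L false)
      (List.replicate r false) := by
  intro L
  induction L using Nat.strong_induction_on with
  | _ L ih =>
    intro hL
    by_cases h : L < D.ν
    · exact ⟨L, hL, h, ReflTransGen.refl⟩
    · obtain ⟨r, h1, h2, h3⟩ := ih (L + 1 - D.ν) (by omega) (by omega)
      refine ⟨r, h1, h2, ReflTransGen.head ?_ h3⟩
      refine ⟨by simp; omega, false, List.replicate (L - 1) false, ?_, ?_⟩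
      · rw [← List.replicate_succ]; congr 1; omega
      · have : wd D.Ol D.E false = List.replicate 1 false := rfl
        rw [this, List.replicate_append_replicate, List.drop_replicate]

/-- The end of the computation. -/
theorem end_run {D : Dat} (hν : 3 ≤ D.ν) {q : ℕ} (hq : 1 ≤ q) {S : List Bool}
    (hS : S.length = D.ν * q + (D.ν - 1)) (h0 : ∀ i, i % D.ν = 0 → S[i]? ≠ some true) :
    ReflTransGen (TStep D.ν (wd D.Ol D.E)) S (List.replicate q false) := by
  obtain ⟨u, v, rfl, hu⟩ : ∃ u v : List Bool, S = u ++ v ∧ u.length = D.ν * q :=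
    ⟨S.take (D.ν * q), S.drop (D.ν * q), (List.take_append_drop _ _).symm, by
      rw [List.length_take, hS]; omega⟩
  have hv : v.length = D.ν - 1 := by rw [List.length_append, hu] at hS; omega
  have h1 := reach_prefix (n := D.ν) (by omega) (wd D.Ol D.E) q u v hu
  have h2 : rd D.ν (wd D.Ol D.E) 0 u = List.replicate q false := by
    apply pass_length D (by omega) hu
    intro i hi h3
    apply h0 i hi
    have : i < u.length := by
      by_contra hcon
      rw [List.getElem?_eq_none (by omega)] at h3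
      simp at h3
    rw [List.getElem?_append_left this]
    exact h3
  rw [h2] at h1
  refine h1.trans (ReflTransGen.single ?_)
  obtain ⟨b, t, rfl⟩ : ∃ b t, v = b :: t := by
    cases v with
    | nil => simp at hv; omega
    | cons b t => exact ⟨b, t, rfl⟩
  have hb : b = false := by
    by_contra hb
    rw [Bool.not_eq_false] at hb
    apply h0 (D.ν * q) (Nat.mul_mod_right _ _)
    rw [List.getElem?_append_right (by omega), hu, Nat.sub_self, hb]
    rfl
  subst hb
  have h3 : D.ν ≤ (false :: t ++ List.replicate q false).length := by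
    rw [List.length_append, hv, List.length_replicate]; omega
  refine ⟨h3, false, t ++ List.replicate q false, rfl, ?_⟩
  have : wd D.Ol D.E false = List.replicate 1 false := rfl
  rw [this, List.append_assoc, List.replicate_append_replicate, List.drop_append, hv]
  have e1 : List.drop D.ν (false :: t) = [] := by
    apply List.drop_eq_nil_of_le
    omega
  rw [e1, List.nil_append, List.drop_replicate]
  congr 1
  omega

namespace Setup

variable {D : Dat} {R M N s : ℕ} {h : ℕ → ℕ} {P : ℕ → List ℕ} {σ g ϑ R' : ℕ}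

theorem σpos (F : Setup D R M N s h P σ g ϑ R') : 0 < σ := by
  have h1 := F.full.hν
  have h2 := F.hσ
  rcases Nat.eq_zero_or_pos σ with rfl | h3
  · omega
  · exact h3

/-- Words of normal letters. -/
theorem cycle (F : Setup D R M N s h P σ g ϑ R') : ∀ (k : ℕ) (v : List ℕ), v.length = σ * k →
    (∀ y ∈ v, y < M ∧ P y ≠ []) →
    (∀ t < D.K, D.ν ∣ ((D.pass)^[t] (cells D (R * D.E) v)).length) ∧
    (D.pass)^[D.K] (cells D (R * D.E) v) = cells D (R * D.E) (rd σ P 0 v) ∧
    (∀ t, 2 ≤ t → t ≤ 3 → Z1 D ((D.pass)^[t] (cells D (R * D.E) v))) := by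
  have hσ := F.σpos
  have hpn : ∀ t, (D.pass)^[t] ([] : List Bool) = [] := by
    intro t
    induction t with
    | zero => rfl
    | succ t ih => rw [Function.iterate_succ_apply', ih]; exact rd_nil _ _ _
  intro k
  induction k with
  | zero =>
    intro v hv _
    have : v = [] := List.eq_nil_of_length_eq_zero (by simpa using hv)
    subst this
    have e : cells D (R * D.E) [] = [] := rfl
    rw [e]
    refine ⟨?_, ?_, ?_⟩
    · intro t _; rw [hpn]; simp
    · rw [hpn]; simp [cells]
    · intro t _ _; rw [hpn]; exact Z1_nil D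
  | succ k ih =>
    intro v hv hvM
    obtain ⟨u, v', rfl, hu⟩ : ∃ u v' : List ℕ, v = u ++ v' ∧ u.length = σ :=
      ⟨v.take σ, v.drop σ, (List.take_append_drop _ _).symm, by
        rw [List.length_take, hv, Nat.mul_succ]; omega⟩
    obtain ⟨y, l, rfl⟩ : ∃ y l, u = y :: l := by
      cases u with
      | nil => simp at hu; omega
      | cons y l => exact ⟨y, l, rfl⟩
    have hl : l.length + 1 = σ := by simpa using hu
    have hlM : ∀ z ∈ y :: l, z < M ∧ P z ≠ [] := fun z hz =>
      hvM z (List.mem_append.2 (Or.inl hz))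
    obtain ⟨i1, i2, i3⟩ := ih v' (by
      rw [List.length_append, hu, Nat.mul_succ] at hv; omega)
      (fun z hz => hvM z (List.mem_append.2 (Or.inr hz)))
    have hd : ∀ t < D.K, D.ν ∣ ((D.pass)^[t] (cells D (R * D.E) (y :: l))).length :=
      fun t ht => F.group_dvd hl hlM ht
    have hsplit : ∀ t ≤ D.K, (D.pass)^[t] (cells D (R * D.E) (y :: l ++ v')) =
        (D.pass)^[t] (cells D (R * D.E) (y :: l)) ++ (D.pass)^[t] (cells D (R * D.E) v') := by
      intro t ht
      rw [cells_append]
      exact iter_append D F.full.νpos _ _ t (fun k hk => hd k (by omega))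
    refine ⟨?_, ?_, ?_⟩
    · intro t ht
      rw [hsplit t ht.le, List.length_append]
      exact Dvd.dvd.add (hd t ht) (i1 t ht)
    · rw [hsplit D.K le_rfl, F.group_last hl hlM, i2]
      rw [rd_append_aligned hσ P v' (by rw [hu]), cells_append]
      congr 2
      rw [rd_zero_cons, rd_short _ _ _ _ (by omega), List.append_nil]
    · intro t ht ht3
      have hK := F.full.hK
      rw [hsplit t (by omega)]
      exact Z1_append (F.group_Z1 hl hlM ht ht3) (i3 t ht ht3) (hd t (by omega))

/-- The group of a special letter. -/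
theorem kill_group (F : Setup D R M N s h P σ g ϑ R') {y : ℕ} {l : List ℕ}
    (hl : l.length + 1 = σ) (hy : y < M) (hyP : P y = []) (hlM : ∀ z ∈ l, z < M ∧ P z ≠ []) :
    D.ν ∣ (cells D (R * D.E) (y :: l)).length ∧
    D.ν ∣ (D.pass (cells D (R * D.E) (y :: l))).length ∧
    ∃ q, 1 ≤ q ∧ D.pass (D.pass (cells D (R * D.E) (y :: l))) =
      List.replicate (D.ν * q + (D.ν - 1)) false := by
  have hν := F.full.hν
  obtain ⟨h1, h2⟩ := F.group_word hl (by
    intro z hz
    rw [List.mem_cons] at hz
    rcases hz with rfl | hz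
    · exact hy
    · exact (hlM z hz).1)
  obtain ⟨h3, h4⟩ := F.rest_ok hl hlM
  obtain ⟨h5, h6⟩ := Dat.first_pass hν F.full.off (F.c_dvd hy) h2
  rw [h3] at h5 h6
  rw [h1]
  -- the length
  obtain ⟨x, hx⟩ := F.R'_mod
  obtain ⟨e, he⟩ := F.E_mod
  obtain ⟨m, hm⟩ := F.m_mod
  have hlenz : ((R' * D.E + D.E * (D.m + ϑ) : ℕ) : ℤ) = D.ν * (D.ν *
      ((D.ν ^ 2 * e + D.ν + 1) * (x + m) - (D.ν * e + 1)) - 1) := by
    push_cast
    rw [hx, he, hm]
    ring
  obtain ⟨n1, hn1⟩ : ∃ n1, R' * D.E + D.E * (D.m + ϑ) = D.ν * n1 := by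
    have : (D.ν : ℤ) ∣ ((R' * D.E + D.E * (D.m + ϑ) : ℕ) : ℤ) := by
      rw [hlenz]; exact Dvd.intro _ rfl
    have : D.ν ∣ R' * D.E + D.E * (D.m + ϑ) := by exact_mod_cast this
    exact this
  have hn1z : (n1 : ℤ) = D.ν * ((D.ν ^ 2 * e + D.ν + 1) * (x + m) - (D.ν * e + 1)) - 1 := by
    rw [hn1] at hlenz
    push_cast at hlenz
    exact mul_left_cancel₀ (show (D.ν : ℤ) ≠ 0 by omega) hlenz
  have hn1big : D.ν < n1 := by
    obtain ⟨e', he'⟩ := F.full.Emod
    obtain ⟨m', hm'⟩ := F.full.m_mod
    have hE1 : D.ν + 1 ≤ D.E := by rw [he']; have := Nat.zero_le (D.ν ^ 2 * e'); omega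
    have hm1 : D.ν + 1 ≤ D.m := by rw [hm']; have := Nat.zero_le (D.ν ^ 2 * m'); omega
    have h7 : (D.ν + 1) * (D.ν + 1) ≤ D.ν * n1 := by
      rw [← hn1]
      calc (D.ν + 1) * (D.ν + 1) ≤ D.E * D.m := Nat.mul_le_mul hE1 hm1
        _ ≤ D.E * (D.m + ϑ) := Nat.mul_le_mul_left _ (by omega)
        _ ≤ _ := Nat.le_add_left _ _
    by_contra hcon
    have h8 : D.ν * n1 ≤ D.ν * D.ν := Nat.mul_le_mul_left _ (by omega)
    have h9 : (D.ν + 1) * (D.ν + 1) = D.ν * D.ν + 2 * D.ν + 1 := by ring
    omega
  obtain ⟨q, hq⟩ : ∃ q, n1 = D.ν * q + (D.ν - 1) := by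
    have h7 : D.ν ∣ n1 + 1 := by
      have : (D.ν : ℤ) ∣ ((n1 + 1 : ℕ) : ℤ) := by
        push_cast
        rw [hn1z, sub_add_cancel]
        exact Dvd.intro _ rfl
      exact_mod_cast this
    obtain ⟨q, hq⟩ := h7
    refine ⟨q - 1, ?_⟩
    obtain ⟨q, rfl⟩ : ∃ q', q = q' + 1 := ⟨q - 1, by
      rcases q with _ | q
      · omega
      · omega⟩
    rw [Nat.add_sub_cancel]
    rw [Nat.mul_succ] at hq
    omega
  rw [hn1] at h5 h6
  refine ⟨by rw [blk_length]; exact Dvd.intro _ rfl, by rw [h5, blk_length]; exact Dvd.intro _ rfl,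
    q, ?_, ?_⟩
  · by_contra hcon
    have : q = 0 := by omega
    subst this
    omega
  · rw [h5, ← hq]
    apply pass_dead D F.full.νpos F.full.off h6
    intro p hp
    rw [List.mem_append] at hp
    rcases hp with hp | hp
    · rw [List.mem_map] at hp
      obtain ⟨j, hj, rfl⟩ := hp
      rw [List.mem_range] at hj
      obtain ⟨c, hc⟩ := F.special y hy hyP
      obtain ⟨c', hc'⟩ := F.c_dvd hy
      have h7 := F.full.δ_mod hj
      rw [hc', Nat.mul_div_cancel_left _ F.full.νpos]
      have h8 : D.ν ∣ c' + 1 := by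
        rw [hc'] at hc
        have : D.ν * (c' + 1) = D.ν * (D.ν * c) := by rw [Nat.mul_add, Nat.mul_one, hc]; ring
        have := Nat.eq_of_mul_eq_mul_left F.full.νpos this
        exact ⟨c, this⟩
      have h9 : D.ν ∣ c' + D.δ j + D.E * j + 2 := by
        have e1 : c' + D.δ j + D.E * j + 2 = (c' + 1) + (D.δ j + D.E * j + 1) := by ring
        rw [e1]
        exact Dvd.dvd.add h8 h7
      generalize c' + D.δ j + D.E * j = p at h9
      constructor
      · intro hp
        have := Nat.le_of_dvd (by norm_num) ((Nat.dvd_add_right hp).1 h9)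
        omega
      · intro hp
        have h12 : D.ν ∣ p + 1 + 1 := h9
        have := Nat.le_of_dvd (by norm_num) ((Nat.dvd_add_right hp).1 h12)
        omega
    · exact h4 p hp

end Setup

end Pool.Agent.H97.Tag
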