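import Pool.Agent.H97.Tag.Sim3

/-!
# Cycles and the end of the computation (continued)
-/

set_option autoImplicit false

namespace Pool.Agent.H97.Tag

open Finset Relation

namespace Setup

variable {D : Dat} {R M N s : ℕ} {h : ℕ → ℕ} {P : ℕ → List ℕ} {σ g ϑ R' : ℕ}

/-- One cycle of the simulation. -/
theorem reach_cycle (F : Setup D R M N s h P σ g ϑ R') {v : List ℕ} (hv : σ ∣ v.length)
    (hv0 : v ≠ []) (hvM : ∀ y ∈ v, y < M ∧ P y ≠ []) :
    TransGen (TStep D.ν (wd D.Ol D.E)) (cells D (R * D.E) v)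
      (cells D (R * D.E) (rd σ P 0 v)) := by
  have hK := F.full.hK
  obtain ⟨k, hk⟩ := hv
  obtain ⟨h1, h2, _⟩ := F.cycle k v hk hvM
  rw [← h2]
  apply reach_iter_pos D F.full.νpos
  · intro h3
    have h4 := F.cells_length (l := v) (fun y hy => (hvM y hy).1)
    rw [h3, List.length_nil] at h4
    have h5 : 0 < v.length := List.length_pos_iff.2 hv0
    have h6 : 0 < R * D.E * v.length := by
      have := F.full.Epos
      obtain ⟨y, hy⟩ := List.exists_mem_of_length_pos h5
      have h7 := F.full.cell y (hvM y hy).1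
      exact Nat.mul_pos (by omega) h5
    omega
  · omega
  · exact h1

/-- The computation ends when a special letter is active. -/
theorem kill (F : Setup D R M N s h P σ g ϑ R') {v₁ v₂ : List ℕ} {y : ℕ} (h1 : σ ∣ v₁.length)
    (h2 : σ ∣ v₁.length + 1 + v₂.length) (hy : y < M) (hyP : P y = [])
    (hv₁ : ∀ z ∈ v₁, z < M ∧ P z ≠ []) (hv₂ : ∀ z ∈ v₂, z < M ∧ P z ≠ []) :
    ReflTransGen (TStep D.ν (wd D.Ol D.E)) (cells D (R * D.E) (v₁ ++ y :: v₂))
      (List.replicate (D.ν - 1) false) := by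
  have hν := F.full.hν
  have hν0 := F.full.νpos
  have hK := F.full.hK
  have hσ := F.σpos
  obtain ⟨k1, hk1⟩ := h1
  obtain ⟨k2, hk2⟩ := h2
  have h3 : k1 + 1 ≤ k2 := by
    by_contra hcon
    have : σ * k2 ≤ σ * k1 := Nat.mul_le_mul_left _ (by omega)
    omega
  obtain ⟨k3, rfl⟩ : ∃ k3, k2 = k1 + 1 + k3 := ⟨k2 - k1 - 1, by omega⟩
  have h4 : 1 + v₂.length = σ + σ * k3 := by
    have : σ * (k1 + 1 + k3) = σ * k1 + σ + σ * k3 := by ring
    omega
  obtain ⟨l, v₃, rfl, hl⟩ : ∃ l v₃ : List ℕ, v₂ = l ++ v₃ ∧ l.length + 1 = σ :=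
    ⟨v₂.take (σ - 1), v₂.drop (σ - 1), (List.take_append_drop _ _).symm, by
      rw [List.length_take]; omega⟩
  have h5 : v₃.length = σ * k3 := by rw [List.length_append] at h4; omega
  have hvl : ∀ z ∈ l, z < M ∧ P z ≠ [] := fun z hz => hv₂ z (by simp [hz])
  have hv3 : ∀ z ∈ v₃, z < M ∧ P z ≠ [] := fun z hz => hv₂ z (by simp [hz])
  obtain ⟨a1, _, a3⟩ := F.cycle k1 v₁ hk1 hv₁
  obtain ⟨b1, _, b3⟩ := F.cycle k3 v₃ h5 hv3
  obtain ⟨z1, z2, q, hq, z3⟩ := F.kill_group hl hy hyP hvl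
  have hsplit : cells D (R * D.E) (v₁ ++ y :: (l ++ v₃)) =
      cells D (R * D.E) v₁ ++ (cells D (R * D.E) (y :: l) ++ cells D (R * D.E) v₃) := by
    rw [← cells_append, ← cells_append]
    rfl
  have hlen := F.cells_length (l := v₁ ++ y :: (l ++ v₃)) (by
    intro z hz
    rw [List.mem_append, List.mem_cons, List.mem_append] at hz
    rcases hz with hz | rfl | hz | hz
    · exact (hv₁ z hz).1
    · exact hy
    · exact (hvl z hz).1
    · exact (hv3 z hz).1)
  obtain ⟨A, hA⟩ : ∃ A, A = cells D (R * D.E) v₁ := ⟨_, rfl⟩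
  obtain ⟨B, hB⟩ : ∃ B, B = cells D (R * D.E) v₃ := ⟨_, rfl⟩
  obtain ⟨Z, hZ⟩ : ∃ Z, Z = cells D (R * D.E) (y :: l) := ⟨_, rfl⟩
  rw [← hA] at a1 a3
  rw [← hB] at b1 b3
  rw [← hZ] at z1 z2 z3
  have hA0 : D.ν ∣ A.length := a1 0 (by omega)
  have hA1 : D.ν ∣ (D.pass A).length := a1 1 (by omega)
  have hA2 : D.ν ∣ (D.pass (D.pass A)).length := a1 2 (by omega)
  have hA3 : D.ν ∣ (D.pass (D.pass (D.pass A))).length := a1 3 (by omega)
  have hB0 : D.ν ∣ B.length := b1 0 (by omega)
  have hB1 : D.ν ∣ (D.pass B).length := b1 1 (by omega)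
  have hB2 : D.ν ∣ (D.pass (D.pass B)).length := b1 2 (by omega)
  have hpass : ∀ u w : List Bool, D.ν ∣ u.length → D.pass (u ++ w) = D.pass u ++ D.pass w :=
    fun u w hu => rd_append_aligned hν0 _ _ hu
  -- two passes
  have r1 : ReflTransGen (TStep D.ν (wd D.Ol D.E)) (A ++ (Z ++ B))
      (D.pass A ++ (D.pass Z ++ D.pass B)) := by
    have := reach_rd hν0 (wd D.Ol D.E) (u := A ++ (Z ++ B)) (by
      rw [List.length_append, List.length_append]
      exact Dvd.dvd.add hA0 (Dvd.dvd.add z1 hB0))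
    have e : D.pass (A ++ (Z ++ B)) = D.pass A ++ (D.pass Z ++ D.pass B) := by
      rw [hpass _ _ hA0, hpass _ _ z1]
    rw [← e]
    exact this
  have r2 : ReflTransGen (TStep D.ν (wd D.Ol D.E)) (D.pass A ++ (D.pass Z ++ D.pass B))
      (D.pass (D.pass A) ++ (D.pass (D.pass Z) ++ D.pass (D.pass B))) := by
    have := reach_rd hν0 (wd D.Ol D.E) (u := D.pass A ++ (D.pass Z ++ D.pass B)) (by
      rw [List.length_append, List.length_append]
      exact Dvd.dvd.add hA1 (Dvd.dvd.add z2 hB1))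
    have e : D.pass (D.pass A ++ (D.pass Z ++ D.pass B)) =
        D.pass (D.pass A) ++ (D.pass (D.pass Z) ++ D.pass (D.pass B)) := by
      rw [hpass _ _ hA1, hpass _ _ z2]
    rw [← e]
    exact this
  obtain ⟨k4, hk4⟩ := hA2
  have r3 := reach_prefix hν0 (wd D.Ol D.E) k4 (D.pass (D.pass A))
    (D.pass (D.pass Z) ++ D.pass (D.pass B)) hk4
  have e3 : rd D.ν (wd D.Ol D.E) 0 (D.pass (D.pass A)) = D.pass (D.pass (D.pass A)) := rfl
  rw [e3, List.append_assoc, z3] at r3
  rw [z3] at r2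
  obtain ⟨kb, hkb⟩ := hB2
  obtain ⟨ka, hka⟩ := hA3
  have hZ1 : Z1 D (D.pass (D.pass B) ++ D.pass (D.pass (D.pass A))) :=
    Z1_append (b3 2 le_rfl (by norm_num)) (a3 3 (by norm_num) le_rfl) ⟨kb, hkb⟩
  have r4 := end_run (D := D) hν (q := q + kb + ka) (by omega)
    (S := List.replicate (D.ν * q + (D.ν - 1)) false ++
      (D.pass (D.pass B) ++ D.pass (D.pass (D.pass A)))) (by
      rw [List.length_append, List.length_append, List.length_replicate, hkb, hka]
      ring) (by
      intro i hi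
      by_cases hlt : i < D.ν * q + (D.ν - 1)
      · rw [List.getElem?_append_left (by simpa using hlt)]
        rw [List.getElem?_replicate]
        split_ifs <;> simp
      · rw [List.getElem?_append_right (by simpa using hlt), List.length_replicate]
        apply hZ1
        obtain ⟨j, rfl⟩ : ∃ j, i = D.ν * q + (D.ν - 1) + j := ⟨i - (D.ν * q + (D.ν - 1)), by omega⟩
        rw [Nat.add_sub_cancel_left]
        have e1 : (D.ν * q + (D.ν - 1) + j) % D.ν = (D.ν - 1 + j) % D.ν := by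
          rw [Nat.add_assoc, Nat.mul_add_mod]
        rw [e1] at hi
        obtain ⟨x, hx⟩ := Nat.dvd_of_mod_eq_zero hi
        obtain ⟨x, rfl⟩ : ∃ x', x = x' + 1 := ⟨x - 1, by
          rcases x with _ | x
          · rw [Nat.mul_zero] at hx; omega
          · omega⟩
        have hj : j = D.ν * x + 1 := by rw [Nat.mul_succ] at hx; omega
        rw [hj, Nat.mul_add_mod]
        exact Nat.mod_eq_of_lt (by omega))
  obtain ⟨r, hr1, hr2, r5⟩ := zeros_end (D := D) (by omega) (q + kb + ka) (by omega)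
  have rall : ReflTransGen (TStep D.ν (wd D.Ol D.E)) (A ++ (Z ++ B)) (List.replicate r false) :=
    (((r1.trans r2).trans r3).trans r4).trans r5
  have hmod := length_mod (by omega) F.full.dvdE rall
  rw [hsplit, ← hA, ← hB, ← hZ] at hlen
  rw [hlen, List.length_replicate] at hmod
  have h6 : R * D.E * (v₁ ++ y :: (l ++ v₃)).length % (D.ν - 1) = 0 := by
    apply Nat.mod_eq_zero_of_dvd
    exact Dvd.dvd.mul_right (Dvd.dvd.mul_left F.full.dvdE _) _
  rw [h6] at hmod
  have h7 : r = D.ν - 1 := by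
    have h8 := Nat.le_of_dvd (by omega) (Nat.dvd_of_mod_eq_zero hmod.symm)
    omega
  rw [hsplit, ← hA, ← hB, ← hZ, ← h7]
  exact rall

end Setup

/-! ### Runs which do not end -/

theorem acc_of_reach {α : Type*} {r : α → α → Prop} (det : ∀ a b c, r a b → r a c → b = c)
    {T : α} (hT : ∀ b, ¬ r T b) {a : α} (h : ReflTransGen r a T) : Acc (fun x y => r y x) a := by
  induction h using ReflTransGen.head_induction_on with
  | refl => exact Acc.intro _ (fun b hb => absurd hb (hT b))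
  | head hab _ ih =>
    refine Acc.intro _ (fun c hc => ?_)
    rw [det _ _ _ hc hab]
    exact ih

/-- A deterministic run which returns again and again to an invariant never ends. -/
theorem no_term {α : Type*} {r : α → α → Prop} (det : ∀ a b c, r a b → r a c → b = c)
    {I : α → Prop} (hI : ∀ a, I a → ∃ b, I b ∧ TransGen r a b) {T : α} (hT : ∀ b, ¬ r T b)
    {a : α} (ha : I a) : ¬ ReflTransGen r a T := by
  intro h
  have hacc := (acc_of_reach det hT h).transGen
  clear h
  induction hacc with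
  | intro x _ ih =>
    obtain ⟨b, hb, hxb⟩ := hI x ha
    exact ih b (by
      rw [← Relation.transGen_swap] at hxb
      exact hxb) hb

end Pool.Agent.H97.Tag
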