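import Pool.Agent.H97.Tag.Dyn

/-!
# Choosing the lives of the blocks of a batch
-/

set_option autoImplicit false

namespace Pool.Agent.H97.Tag

open Finset

theorem Wf_add (ν a b : ℕ) : Wf ν (a + b) = Wf ν a + ν ^ a * Wf ν b := by
  induction b with
  | zero => simp
  | succ b ih => rw [← Nat.add_assoc, Wf_succ, ih, Wf_succ, pow_add]; ring

theorem Wf_one (ν : ℕ) : Wf ν 1 = 1 := by simp [Wf]

theorem Wf_succ' (ν n : ℕ) : Wf ν (n + 1) = 1 + ν * Wf ν n := by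
  rw [Nat.add_comm, Wf_add, Wf_one, pow_one]

theorem Wf_geom {ν : ℕ} (hν : 1 ≤ ν) (n : ℕ) : (ν - 1) * Wf ν n + 1 = ν ^ n := by
  obtain ⟨k, rfl⟩ : ∃ k, ν = k + 1 := ⟨ν - 1, by omega⟩
  induction n with
  | zero => simp
  | succ n ih =>
    rw [Wf_succ, Nat.mul_add, Nat.add_sub_cancel] at *
    rw [pow_succ]
    nlinarith [ih]

theorem Wf_mono (ν : ℕ) {a b : ℕ} (h : a ≤ b) : Wf ν a ≤ Wf ν b := by
  obtain ⟨k, rfl⟩ := Nat.exists_eq_add_of_le h
  rw [Wf_add]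
  omega

theorem Wf_dvd {ν t f : ℕ} (h : t ≤ f) : ∃ z, Wf ν f = Wf ν t + ν ^ t * z := by
  obtain ⟨k, rfl⟩ := Nat.exists_eq_add_of_le h
  exact ⟨_, Wf_add ν t k⟩

theorem pow_le_Wf (ν J : ℕ) : ν ^ J ≤ Wf ν (J + 1) := by
  rw [Wf_succ]; omega

/-- Every number up to `(s - ν J) W_J` is a sum of `s` numbers `W_i`, `i ≤ J`. -/
theorem rep {ν : ℕ} (J : ℕ) : ∀ s Y : ℕ, ν * J ≤ s → Y ≤ (s - ν * J) * Wf ν J →
    ∃ f : ℕ → ℕ, (∀ i, f i ≤ J) ∧ ∑ i ∈ range s, Wf ν (f i) = Y := by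
  induction J with
  | zero =>
    intro s Y _ hY
    simp only [Wf_zero, Nat.mul_zero, Nat.le_zero] at hY
    exact ⟨fun _ => 0, fun _ => le_rfl, by simp [hY]⟩
  | succ J ih =>
    intro s Y hs hY
    have hpos : 0 < Wf ν (J + 1) := by rw [Wf_succ']; omega
    have hq : Y / Wf ν (J + 1) ≤ s - ν * (J + 1) := by
      apply Nat.div_le_of_le_mul
      rw [Nat.mul_comm]
      exact hY
    have hr : Y % Wf ν (J + 1) < Wf ν (J + 1) := Nat.mod_lt _ hpos
    have hYe : Wf ν (J + 1) * (Y / Wf ν (J + 1)) + Y % Wf ν (J + 1) = Y := Nat.div_add_mod _ _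
    generalize Y / Wf ν (J + 1) = q at *
    generalize Y % Wf ν (J + 1) = r at *
    rw [Nat.mul_succ] at hs hq
    obtain ⟨f, hf1, hf2⟩ := ih (s - q) r (by omega) (by
      rw [Wf_succ'] at hr
      calc r ≤ ν * Wf ν J := by omega
        _ ≤ (s - q - ν * J) * Wf ν J := Nat.mul_le_mul_right _ (by omega))
    refine ⟨fun i => if i < q then J + 1 else f (i - q), ?_, ?_⟩
    · intro i
      dsimp only
      split_ifs
      · exact le_rfl
      · exact (hf1 _).trans (Nat.le_succ _)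
    · obtain ⟨s', rfl⟩ : ∃ s', s = q + s' := ⟨s - q, by omega⟩
      rw [Finset.sum_range_add]
      rw [Nat.add_sub_cancel_left] at hf2
      have h1 : ∑ i ∈ range q, Wf ν (if i < q then J + 1 else f (i - q)) = q * Wf ν (J + 1) := by
        rw [Finset.sum_congr rfl (g := fun _ => Wf ν (J + 1))]
        · simp
        · intro i hi
          rw [Finset.mem_range] at hi
          rw [if_pos hi]
      have h2 : ∑ i ∈ range s', Wf ν (if q + i < q then J + 1 else f (q + i - q)) = r := by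
        rw [← hf2]
        apply Finset.sum_congr rfl
        intro i _
        rw [if_neg (by omega), Nat.add_sub_cancel_left]
      rw [h1, h2, ← hYe, Nat.mul_comm]

/-- The lives of the blocks of a batch. -/
theorem batch {ν θ J K s n2 pre own : ℕ} (hK : K = θ + 2 + J)
    (hpre : ν ^ (θ + 1) ∣ pre) (hs : ν ^ (θ + 1) ∣ s) (hN : ν ^ (θ + 1) ∣ s + 1 + n2)
    (hown : ν ^ (θ + 1) ∣ own) (hX : 0 < ν ^ (θ + 1))
    (h1 : s * Wf ν (θ + 1) ≤ pre)
    (h2 : pre ≤ ν ^ (θ + 1) * ((s - ν * J) * Wf ν J)) (hsJ : ν * J ≤ s)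
    (h3 : Wf ν K + pre + n2 * Wf ν (θ + 1) ≤ own)
    (h4 : own ≤ ν ^ (θ + 1) * ((n2 - ν * J) * Wf ν J)) (hnJ : ν * J ≤ n2) :
    ∃ f : ℕ → ℕ, (∀ i, θ + 1 ≤ f i) ∧ (∀ i, i ≠ s → f i < K) ∧ f s = K ∧
      ∑ i ∈ range s, Wf ν (f i) = pre ∧ ∑ i ∈ range (s + 1 + n2), Wf ν (f i) = own := by
  obtain ⟨Y1, hY1⟩ : ∃ Y1, pre = s * Wf ν (θ + 1) + ν ^ (θ + 1) * Y1 := by
    have : ν ^ (θ + 1) ∣ pre - s * Wf ν (θ + 1) := Nat.dvd_sub hpre (Dvd.dvd.mul_right hs _)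
    obtain ⟨z, hz⟩ := this
    exact ⟨z, by omega⟩
  have hWK : Wf ν K = Wf ν (θ + 1) + ν ^ (θ + 1) * Wf ν (J + 1) := by
    rw [← Wf_add, hK]; congr 1; ring
  obtain ⟨Y2, hY2⟩ : ∃ Y2, own = Wf ν K + pre + n2 * Wf ν (θ + 1) + ν ^ (θ + 1) * Y2 := by
    have e : own - (Wf ν K + pre + n2 * Wf ν (θ + 1)) =
        own - (ν ^ (θ + 1) * Wf ν (J + 1) + (s * Wf ν (θ + 1) + ν ^ (θ + 1) * Y1) +
          (1 + n2) * Wf ν (θ + 1)) := by
      rw [hWK, hY1, Nat.add_mul]; congr 1; ring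
    have e2 : ν ^ (θ + 1) * Wf ν (J + 1) + (s * Wf ν (θ + 1) + ν ^ (θ + 1) * Y1) +
          (1 + n2) * Wf ν (θ + 1) = ν ^ (θ + 1) * (Wf ν (J + 1) + Y1) +
          (s + 1 + n2) * Wf ν (θ + 1) := by ring
    have : ν ^ (θ + 1) ∣ own - (Wf ν K + pre + n2 * Wf ν (θ + 1)) := by
      rw [e, e2]
      exact Nat.dvd_sub hown (Dvd.dvd.add (Dvd.intro _ rfl) (Dvd.dvd.mul_right hN _))
    obtain ⟨z, hz⟩ := this
    exact ⟨z, by omega⟩
  obtain ⟨f1, hf1, hf1s⟩ := rep J s Y1 hsJ (by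
    have : ν ^ (θ + 1) * Y1 ≤ ν ^ (θ + 1) * ((s - ν * J) * Wf ν J) := by omega
    exact Nat.le_of_mul_le_mul_left this hX)
  obtain ⟨f2, hf2, hf2s⟩ := rep J n2 Y2 hnJ (by
    have : ν ^ (θ + 1) * Y2 ≤ ν ^ (θ + 1) * ((n2 - ν * J) * Wf ν J) := by omega
    exact Nat.le_of_mul_le_mul_left this hX)
  have key : ∀ (n Y : ℕ) (f : ℕ → ℕ), ∑ i ∈ range n, Wf ν (f i) = Y →
      ∑ i ∈ range n, Wf ν (θ + 1 + f i) = n * Wf ν (θ + 1) + ν ^ (θ + 1) * Y := by
    intro n Y f h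
    simp only [Wf_add]
    rw [Finset.sum_add_distrib, ← Finset.mul_sum, h]
    simp
  refine ⟨fun i => if i < s then θ + 1 + f1 i else if i = s then K else θ + 1 + f2 (i - s - 1),
    ?_, ?_, ?_, ?_, ?_⟩
  · intro i
    dsimp only
    split_ifs <;> omega
  · intro i hi
    have := hf1 i
    have := hf2 (i - s - 1)
    dsimp only
    split_ifs <;> omega
  · simp
  · rw [hY1, ← key s Y1 f1 hf1s]
    apply Finset.sum_congr rfl
    intro i hi
    rw [Finset.mem_range] at hi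
    dsimp only
    rw [if_pos hi]
  · rw [Finset.sum_range_add, Finset.sum_range_succ]
    have a1 : ∑ i ∈ range s, Wf ν (if i < s then θ + 1 + f1 i else if i = s then K
        else θ + 1 + f2 (i - s - 1)) = pre := by
      rw [hY1, ← key s Y1 f1 hf1s]
      apply Finset.sum_congr rfl
      intro i hi
      rw [Finset.mem_range] at hi
      rw [if_pos hi]
    have a2 : ∑ i ∈ range n2, Wf ν (if s + 1 + i < s then θ + 1 + f1 (s + 1 + i)
        else if s + 1 + i = s then K else θ + 1 + f2 (s + 1 + i - s - 1)) =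
        n2 * Wf ν (θ + 1) + ν ^ (θ + 1) * Y2 := by
      rw [← key n2 Y2 f2 hf2s]
      apply Finset.sum_congr rfl
      intro i hi
      rw [if_neg (by omega), if_neg (by omega)]
      congr 2
      congr 1
      omega
    rw [a1, a2]
    simp only [lt_irrefl, if_false, if_true]
    omega

end Pool.Agent.H97.Tag
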