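import Pool.Agent.H97.Tag.Delta2

/-!
# The conditions on the blocks hold
-/

set_option autoImplicit false

namespace Pool.Agent.H97.Tag

open Finset

/-- All properties of the data which are used below. -/
structure Full (D : Dat) (R M N s : ℕ) (T : List (ℕ × ℕ)) (h : ℕ → ℕ) : Prop where
  hν : 3 ≤ D.ν
  hK : lam M + 8 ≤ D.K
  hN : D.ν ^ (lam M + 1) ∣ N
  hN0 : 0 < N
  hs : s < N
  hm : D.m = N * T.length + Wf D.ν (lam M + 1)
  hcl : ∀ j, D.cl j = if j < N * T.length then clT T (j / N) else M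
  hT : ∀ r < T.length, clT T r < M
  life_ge : ∀ j, lam M + 1 ≤ D.life j
  life_le : ∀ j, D.life j ≤ D.K
  life_eq : ∀ j, D.life j = D.K ↔ j < N * T.length ∧ j % N = s
  pw_real : ∀ r < T.length, D.pw (clT T r) (N * r + s) =
    R * D.ν ^ (D.K - 1) * cnt T (clT T r) r + D.ν ^ (D.K - 4)
  pw_total : ∀ a < M, 0 < cnt T a T.length →
    D.pw a D.m + (D.ν - 1) * Wf D.ν (lam M + 1) ^ 3 = R * D.ν ^ (D.K - 1) * cnt T a T.length
  c_cls : ∀ j, D.c (D.cl j) = D.ν ^ D.K * h (D.cl j) + D.ν ^ lam (D.cl j)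
  off : D.Off
  Epos : 0 < D.E
  dvdE : (D.ν - 1) ∣ D.E
  Emod : ∃ z, D.E = D.ν ^ 2 * z + D.ν + 1
  cell : ∀ y < M, D.c y + D.E + 1 ≤ R * D.E
  real : ∀ j < D.m, D.life j = D.K → D.c (D.cl j) / D.ν + D.δ j + Wf D.ν (D.K - 1) +
    D.ν ^ (D.K - 4) * D.E = D.ν ^ (D.K - 1) * D.c (tgT T (j / N))
  dummy : ∀ j < D.m, D.life j < D.K → D.ν ^ D.life j ∣ D.c (D.cl j) / D.ν + D.δ j +
    Wf D.ν (D.life j) + D.E * D.pw (D.cl j) j + D.ν ^ (D.life j - 1)

theorem Full.mk' {ν R M : ℕ} (hν : 3 ≤ ν) {T : List (ℕ × ℕ)} (hT1 : ∀ r < T.length, clT T r < M)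
    {K N s : ℕ} {life : ℕ → ℕ} (hp : IsPlan ν R M T K N s life) {tl h : ℕ → ℕ}
    (htla : ∀ r < T.length, tl (clT T r) = ν ^ lam (clT T r)) (htlM : tl M = ν ^ lam M)
    {E : ℕ} {δ : ℕ → ℕ}
    (hd : IsDat ν R M K N T tl h (pdat ν K N M T life E (fun x => ν ^ K * h x + tl x) δ)) :
    Full (pdat ν K N M T life E (fun x => ν ^ K * h x + tl x) δ) R M N s T h where
  hν := hν
  hK := hp.hK
  hN := hp.hN
  hN0 := hp.hN0
  hs := hp.hs
  hm := rfl
  hcl := fun _ => rfl
  hT := hT1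
  life_ge := hp.life_ge
  life_le := hp.life_le
  life_eq := hp.life_eq
  pw_real := fun r hr => hp.pw_real _ _ _ r hr
  pw_total := fun a ha h => hp.pw_total _ _ _ a ha h
  c_cls := by
    intro j
    show ν ^ K * h (if j < N * T.length then clT T (j / N) else M) +
      tl (if j < N * T.length then clT T (j / N) else M) =
      ν ^ K * h (if j < N * T.length then clT T (j / N) else M) +
      ν ^ lam (if j < N * T.length then clT T (j / N) else M)
    split_ifs with h1
    · rw [htla _ (Nat.div_lt_of_lt_mul h1)]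
    · rw [htlM]
  off := hd.off
  Epos := hd.Epos
  dvdE := hd.dvdE
  Emod := hd.Emod
  cell := hd.cell
  real := hd.real
  dummy := hd.dummy

namespace Full

variable {D : Dat} {R M N s : ℕ} {T : List (ℕ × ℕ)} {h : ℕ → ℕ}

theorem cl_le (F : Full D R M N s T h) (j : ℕ) : D.cl j ≤ M := by
  rw [F.hcl]
  split_ifs with h1
  · exact (F.hT _ (Nat.div_lt_of_lt_mul h1)).le
  · exact le_rfl

theorem νpos (F : Full D R M N s T h) : 0 < D.ν := by have := F.hν; omega

/-- The code of a class divided by `ν`. -/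
theorem c_div (F : Full D R M N s T h) (j : ℕ) : D.c (D.cl j) / D.ν =
    D.ν ^ (D.K - 1) * h (D.cl j) + D.ν ^ (lam (D.cl j) - 1) := by
  have hK := F.hK
  have e : D.c (D.cl j) = D.ν * (D.ν ^ (D.K - 1) * h (D.cl j) + D.ν ^ (lam (D.cl j) - 1)) := by
    rw [F.c_cls]
    have e1 : D.ν ^ D.K = D.ν * D.ν ^ (D.K - 1) := by
      rw [← pow_succ']; congr 1; omega
    have e2 : D.ν ^ lam (D.cl j) = D.ν * D.ν ^ (lam (D.cl j) - 1) := by
      rw [← pow_succ']; congr 1
    rw [e1, e2]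
    ring
  rw [e, Nat.mul_div_cancel_left _ F.νpos]

theorem Q_trunc (b j : ℕ) {t f : ℕ} (htf : t ≤ f) (htK : t ≤ D.K) :
    ∃ z, D.c b / D.ν + D.δ j + Wf D.ν f + D.E * D.pw b j = D.Q b t j + D.ν ^ t * z := by
  obtain ⟨z1, h1⟩ := Wf_dvd (ν := D.ν) htf
  obtain ⟨z2, h2⟩ := Dat.pw_trunc (D := D) b j htK
  refine ⟨z1 + D.E * z2, ?_⟩
  rw [h1, h2]
  unfold Dat.Q
  ring

/-- The conditions for the own class, before the death. -/
theorem own_persist (F : Full D R M N s T h) {j t : ℕ} (hj : j < D.m) (h1 : t < D.life j)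
    (h2 : t < D.K) : D.ν ^ t ∣ D.Q (D.cl j) t j := by
  have hK := F.hK
  rcases (F.life_le j).lt_or_eq with hlt | heq
  · have hd := (pow_dvd_pow D.ν h1.le).trans (F.dummy j hj hlt)
    obtain ⟨z, hz⟩ := Q_trunc (D := D) (D.cl j) j (t := t) (f := D.life j) h1.le h2.le
    rw [hz] at hd
    have e : D.ν ^ (D.life j - 1) = D.ν ^ t * D.ν ^ (D.life j - 1 - t) := by
      rw [← pow_add]; congr 1; omega
    rw [e, Nat.add_assoc, ← Nat.mul_add] at hd
    exact (Nat.dvd_add_left (Dvd.intro _ rfl)).1 hd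
  · have hr := F.real j hj heq
    obtain ⟨hjN, hjs⟩ := (F.life_eq j).1 heq
    have hrT : j / N < T.length := Nat.div_lt_of_lt_mul hjN
    have hpw := F.pw_real _ hrT
    have hj2 : N * (j / N) + s = j := by rw [← hjs]; exact Nat.div_add_mod j N
    have hcl : D.cl j = clT T (j / N) := by rw [F.hcl, if_pos hjN]
    rw [hj2, ← hcl] at hpw
    obtain ⟨z, hz⟩ := Q_trunc (D := D) (D.cl j) j (t := t) (f := D.K - 1) (by omega) h2.le
    rw [hpw] at hz
    have e : D.ν ^ (D.K - 1) * (D.c (tgT T (j / N)) + D.E * R * cnt T (D.cl j) (j / N)) =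
        D.Q (D.cl j) t j + D.ν ^ t * z := by
      rw [← hz, Nat.mul_add, ← hr]
      ring
    have hd : D.ν ^ t ∣ D.Q (D.cl j) t j + D.ν ^ t * z := by
      rw [← e]
      exact Dvd.dvd.mul_right (pow_dvd_pow _ (by omega)) _
    exact (Nat.dvd_add_left (Dvd.intro _ rfl)).1 hd

/-- The condition for the own class at the death. -/
theorem own_die (F : Full D R M N s T h) {j : ℕ} (hj : j < D.m) (h1 : D.life j < D.K) :
    D.ν ^ D.life j ∣ D.Q (D.cl j) (D.life j) j + D.ν ^ (D.life j - 1) := by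
  have hd := F.dummy j hj h1
  obtain ⟨z, hz⟩ := Q_trunc (D := D) (D.cl j) j (t := D.life j) (f := D.life j) le_rfl h1.le
  rw [hz] at hd
  have e : D.Q (D.cl j) (D.life j) j + D.ν ^ D.life j * z + D.ν ^ (D.life j - 1) =
      D.Q (D.cl j) (D.life j) j + D.ν ^ (D.life j - 1) + D.ν ^ D.life j * z := by ring
  rw [e] at hd
  exact (Nat.dvd_add_left (Dvd.intro _ rfl)).1 hd

/-- At low levels the counts do not depend on the group. -/
theorem rdn_low (F : Full D R M N s T h) {a b u : ℕ} (ha : a ≤ M) (hb : b ≤ M) (hu : u < lam a)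
    (hu' : u < lam b) (i : ℕ) : D.rdn a i u = D.rdn b i u := by
  have h1 := F.life_ge i
  unfold Dat.rdn Dat.dt
  unfold lam at *
  split_ifs <;> omega

theorem Iu_low (F : Full D R M N s T h) {a b u : ℕ} (ha : a ≤ M) (hb : b ≤ M) (hu : u < lam a)
    (hu' : u < lam b) (j : ℕ) : D.Iu a u j = D.Iu b u j := by
  unfold Dat.Iu
  exact Finset.sum_congr rfl (fun i _ => F.rdn_low ha hb hu hu' i)

theorem Q_low (F : Full D R M N s T h) {a b t : ℕ} (ha : a ≤ M) (hb : b ≤ M) (hu : t ≤ lam a)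
    (hu' : t ≤ lam b) (j : ℕ) : D.Q a t j + D.c b / D.ν = D.Q b t j + D.c a / D.ν := by
  unfold Dat.Q
  have : ∑ u ∈ range t, D.Iu a u j * D.ν ^ u = ∑ u ∈ range t, D.Iu b u j * D.ν ^ u := by
    apply Finset.sum_congr rfl
    intro u hu2
    rw [Finset.mem_range] at hu2
    rw [F.Iu_low ha hb (by omega) (by omega)]
  rw [this]
  ring

/-- The residues of the offsets. -/
theorem δ_mod (F : Full D R M N s T h) {i : ℕ} (hi : i < D.m) : D.ν ∣ D.δ i + D.E * i + 1 := by
  have hK := F.hK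
  have h1 := F.own_persist (t := 1) hi (by have := F.life_ge i; unfold lam at this; omega)
    (by omega)
  unfold Dat.Q at h1
  rw [Finset.sum_range_one, pow_one, pow_zero, Nat.mul_one, Wf_one, F.c_div] at h1
  have h2 : D.Iu (D.cl i) 0 i = i := by
    unfold Dat.Iu
    rw [Finset.sum_congr rfl (g := fun _ => 1)]
    · simp
    · intro k _
      have := F.life_ge k
      unfold Dat.rdn Dat.dt
      unfold lam at *
      split_ifs <;> omega
  rw [h2] at h1
  have h3 : D.ν ∣ D.ν ^ (D.K - 1) * h (D.cl i) + D.ν ^ (lam (D.cl i) - 1) := by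
    apply Dvd.dvd.add
    · exact Dvd.dvd.mul_right (dvd_pow_self _ (by omega)) _
    · exact dvd_pow_self _ (by unfold lam; omega)
  have e : D.ν ^ (D.K - 1) * h (D.cl i) + D.ν ^ (lam (D.cl i) - 1) + D.δ i + 1 + D.E * i =
      (D.δ i + D.E * i + 1) + (D.ν ^ (D.K - 1) * h (D.cl i) + D.ν ^ (lam (D.cl i) - 1)) := by ring
  rw [e] at h1
  exact (Nat.dvd_add_left h3).1 h1

theorem ν_dvd_N (F : Full D R M N s T h) : D.ν ^ 2 ∣ N :=
  (pow_dvd_pow _ (by unfold lam; omega)).trans F.hN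

theorem m_mod (F : Full D R M N s T h) : ∃ z, D.m = D.ν ^ 2 * z + D.ν + 1 := by
  obtain ⟨y, hy⟩ := F.ν_dvd_N
  refine ⟨y * T.length + Wf D.ν (lam M - 1), ?_⟩
  have h1 : Wf D.ν (lam M + 1) = D.ν ^ 2 * Wf D.ν (lam M - 1) + D.ν + 1 := by
    have : lam M + 1 = 2 + (lam M - 1) := by unfold lam; omega
    rw [this, Wf_add]
    have : Wf D.ν 2 = 1 + D.ν := by simp [Wf, Finset.sum_range_succ]
    rw [this]
    have : 2 + (lam M - 1) - 1 - 1 = lam M - 1 := by omega
    ring
  rw [F.hm, h1]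
  conv_lhs => rw [hy]
  ring

/-- The number of blocks of class `a` before `j`. -/
def nc (D : Dat) (a j : ℕ) : ℕ := ∑ i ∈ range j, if D.cl i = a then 1 else 0

theorem cl_batch (F : Full D R M N s T h) {r : ℕ} (hr : r < T.length) {k : ℕ} (hk : k < N) :
    D.cl (N * r + k) = clT T r := by
  have h1 : N * r + k < N * T.length := by
    calc N * r + k < N * r + N := by omega
      _ = N * (r + 1) := by ring
      _ ≤ _ := Nat.mul_le_mul_left _ hr
  rw [F.hcl, if_pos h1, Nat.mul_add_div F.hN0, Nat.div_eq_of_lt hk, Nat.add_zero]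

theorem cl_last (F : Full D R M N s T h) (k : ℕ) : D.cl (N * T.length + k) = M := by
  rw [F.hcl, if_neg (by omega)]

theorem nc_batch (F : Full D R M N s T h) {a : ℕ} {r : ℕ} (hr : r < T.length)
    {i : ℕ} (hi : i ≤ N) : nc D a (N * r + i) = nc D a (N * r) + if clT T r = a then i else 0 := by
  unfold nc
  rw [Finset.sum_range_add]
  congr 1
  rw [Finset.sum_congr rfl (g := fun _ => if clT T r = a then 1 else 0)]
  · split_ifs <;> simp
  · intro k hk
    rw [Finset.mem_range] at hk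
    rw [F.cl_batch hr (show k < N by omega)]

theorem nc_full (F : Full D R M N s T h) (a : ℕ) : ∀ r, r ≤ T.length →
    N ∣ nc D a (N * r) := by
  intro r
  induction r with
  | zero => intro _; simp [nc]
  | succ r ih =>
    intro hr
    rw [Nat.mul_succ, F.nc_batch (by omega) le_rfl]
    apply Dvd.dvd.add (ih (by omega))
    split_ifs
    · exact dvd_rfl
    · exact dvd_zero _

theorem nc_dvd (F : Full D R M N s T h) {a j : ℕ} (ha : a < M) (hj : D.cl j ≠ a) :
    N ∣ nc D a j := by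
  by_cases h1 : j < N * T.length
  · have hr : j / N < T.length := Nat.div_lt_of_lt_mul h1
    rw [F.hcl, if_pos h1] at hj
    rw [← Nat.div_add_mod j N, F.nc_batch hr (Nat.mod_lt _ F.hN0).le, if_neg hj, Nat.add_zero]
    exact F.nc_full a _ hr.le
  · obtain ⟨k, rfl⟩ : ∃ k, j = N * T.length + k := ⟨j - N * T.length, by omega⟩
    unfold nc
    rw [Finset.sum_range_add, Finset.sum_eq_zero (s := range k), Nat.add_zero]
    · exact F.nc_full a _ le_rfl
    · intro i _
      rw [F.cl_last, if_neg (by omega)]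

/-- The difference of the counts at the level of the smaller class. -/
theorem Iu_diff (F : Full D R M N s T h) {a b : ℕ} (hab : a < b) (hb : b ≤ M) (j : ℕ) :
    D.Iu a (lam a) j + (∑ i ∈ range j, if a < D.cl i then 1 else 0) = D.Iu b (lam a) j +
      nc D a j + D.m * (∑ i ∈ range j, if a < D.cl i then 1 else 0) := by
  unfold Dat.Iu nc
  rw [Finset.mul_sum, ← Finset.sum_add_distrib, ← Finset.sum_add_distrib,
    ← Finset.sum_add_distrib]
  apply Finset.sum_congr rfl
  intro i _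
  have h1 := F.life_ge i
  unfold Dat.rdn Dat.dt
  unfold lam at *
  split_ifs <;> omega

end Full

end Pool.Agent.H97.Tag
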