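import Pool.Agent.H97.Tag.Verify

/-!
# The conditions on the blocks hold (continued)
-/

set_option autoImplicit false

namespace Pool.Agent.H97.Tag

open Finset

namespace Full

variable {D : Dat} {R M N s : ℕ} {T : List (ℕ × ℕ)} {h : ℕ → ℕ}

theorem exists_cl (F : Full D R M N s T h) {a : ℕ} (ha : ∃ r < T.length, clT T r = a) :
    ∃ j, D.cl j = a := by
  obtain ⟨r, hr, rfl⟩ := ha
  exact ⟨N * r + 0, F.cl_batch hr F.hN0⟩

theorem c_div' (F : Full D R M N s T h) {a : ℕ} (ha : ∃ r < T.length, clT T r = a) :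
    D.c a / D.ν = D.ν ^ (D.K - 1) * h a + D.ν ^ (lam a - 1) := by
  obtain ⟨j, rfl⟩ := F.exists_cl ha
  exact F.c_div j

theorem cond (F : Full D R M N s T h) {a : ℕ} (ha : a < M) (haT : ∃ r < T.length, clT T r = a) :
    D.Cond a := by
  have hK := F.hK
  have hν := F.hν
  have hca := F.c_div' haT
  have hpow : ∀ x t, t ≤ x → D.ν ^ t ∣ D.ν ^ x := fun x t hxt => pow_dvd_pow _ hxt
  have hcad : ∀ t, t < lam a → D.ν ^ t ∣ D.c a / D.ν := by
    intro t ht
    rw [hca]
    apply Dvd.dvd.add
    · exact Dvd.dvd.mul_right (hpow _ _ (by unfold lam at *; omega)) _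
    · exact hpow _ _ (by omega)
  have hcbd : ∀ j t, t < lam (D.cl j) → D.ν ^ t ∣ D.c (D.cl j) / D.ν := by
    intro j t ht
    rw [F.c_div]
    have := F.cl_le j
    apply Dvd.dvd.add
    · exact Dvd.dvd.mul_right (hpow _ _ (by unfold lam at *; omega)) _
    · exact hpow _ _ (by omega)
  refine ⟨?_, ?_, ?_, ?_, ?_⟩
  · -- persist
    intro j hj t h1 h2 h3
    have hlj := F.life_ge j
    have hcM := F.cl_le j
    by_cases hb : D.cl j = a
    · have hdt : D.dt a j = D.life j := by unfold Dat.dt; rw [if_pos hb]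
      have := F.own_persist hj (by omega) h3
      rw [hb] at this
      exact this
    · have ht : t < lam a ∧ t < lam (D.cl j) := by
        unfold Dat.dt at h2
        rw [if_neg hb] at h2
        unfold lam at *
        split_ifs at h2 <;> omega
      have hq := F.Q_low ha.le hcM ht.1.le ht.2.le j
      have h4 := F.own_persist hj (t := t) (by unfold lam at *; omega) h3
      have h5 : D.ν ^ t ∣ D.Q a t j + D.c (D.cl j) / D.ν := by
        rw [hq]; exact Dvd.dvd.add h4 (hcad t ht.1)
      exact (Nat.dvd_add_left (hcbd j t ht.2)).1 h5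
  · -- die
    intro j hj hcl t h1 h2 h3
    have hlj := F.life_ge j
    have hcM := F.cl_le j
    by_cases hb : D.cl j = a
    · have hdt : D.dt a j = D.life j := by unfold Dat.dt; rw [if_pos hb]
      have := F.own_die hj (by omega)
      rw [hb] at this
      rw [h2, hdt]
      exact this
    · have hlt : D.cl j < a := by omega
      have hdt : D.dt a j = lam (D.cl j) := by unfold Dat.dt; rw [if_neg hb, if_pos hlt]
      rw [hdt] at h2
      have hll : lam (D.cl j) + 2 ≤ lam a := by unfold lam; omega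
      have hq := F.Q_low (t := t) ha.le hcM (by omega) (by omega) j
      have h4 := F.own_persist hj (t := t) (by unfold lam at *; omega) h3
      rw [F.c_div, ← h2] at hq
      have h5 : D.ν ^ t ∣ D.Q a t j + D.ν ^ (t - 1) + D.ν ^ (D.K - 1) * h (D.cl j) := by
        have e : D.Q a t j + D.ν ^ (t - 1) + D.ν ^ (D.K - 1) * h (D.cl j) =
            D.Q (D.cl j) t j + D.c a / D.ν := by rw [← hq]; ring
        rw [e]
        exact Dvd.dvd.add h4 (hcad t (by omega))
      exact (Nat.dvd_add_left (Dvd.dvd.mul_right (hpow _ _ (by omega)) _)).1 h5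
  · -- multiply
    intro j hj hcl t h1 h2
    have hlj := F.life_ge j
    have hcM := F.cl_le j
    have hdt : D.dt a j = lam a := by
      unfold Dat.dt; rw [if_neg (by omega), if_neg (by omega)]
    rw [hdt] at h2
    obtain ⟨b, hb⟩ : ∃ b, b = D.cl j := ⟨_, rfl⟩
    have hll : lam a + 2 ≤ lam b := by unfold lam; omega
    have hlb : lam b ≤ lam M := by unfold lam; omega
    have htK : t + 2 ≤ D.K := by omega
    have hq := F.Q_low (b := b) (t := t) ha.le (by omega) (by omega) (by omega) j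
    have h4 := F.own_persist hj (t := t) (by omega) (by omega)
    have h5 := F.own_persist hj (t := t + 1) (by omega) (by omega)
    rw [← hb] at h4 h5
    obtain ⟨y, hy⟩ := h4
    -- the next position in the own group
    have h6 : D.ν ∣ y + D.E * D.Iu b t j + 1 := by
      have h7 : D.ν ^ t * (y + D.E * D.Iu b t j + 1) = D.Q b (t + 1) j := by
        rw [Dat.Q_succ, hy]; ring
      rw [← h7, pow_succ] at h5
      exact Nat.dvd_of_mul_dvd_mul_left (pow_pos (by omega) t) h5
    have hcb : D.c b / D.ν = D.ν ^ (D.K - 1) * h b + D.ν ^ (lam b - 1) := by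
      rw [hb]; exact F.c_div j
    rw [hcb, hca, hy, ← h2] at hq
    -- the integer quotient
    obtain ⟨z, hz⟩ : ∃ z : ℤ, z = (y : ℤ) + D.ν ^ (D.K - 1 - t) * h a -
      D.ν ^ (D.K - 1 - t) * h b - D.ν ^ (lam b - 1 - t) := ⟨_, rfl⟩
    have e1 : D.ν ^ t = D.ν ^ (t - 1) * D.ν := by rw [← pow_succ]; congr 1; omega
    have e2 : D.ν ^ (D.K - 1) = D.ν ^ (t - 1) * D.ν * D.ν ^ (D.K - 1 - t) := by
      rw [← e1, ← pow_add]; congr 1; omega
    have e3 : D.ν ^ (lam b - 1) = D.ν ^ (t - 1) * D.ν * D.ν ^ (lam b - 1 - t) := by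
      rw [← e1, ← pow_add]; congr 1; omega
    have hQz : (D.Q a t j : ℤ) = D.ν ^ (t - 1) * (1 + D.ν * z) := by
      rw [e1, e2, e3] at hq
      have hq' : ((D.Q a t j + (D.ν ^ (t - 1) * D.ν * D.ν ^ (D.K - 1 - t) * h b +
          D.ν ^ (t - 1) * D.ν * D.ν ^ (lam b - 1 - t)) : ℕ) : ℤ) =
          ((D.ν ^ (t - 1) * D.ν * y + (D.ν ^ (t - 1) * D.ν * D.ν ^ (D.K - 1 - t) * h a +
            D.ν ^ (t - 1)) : ℕ) : ℤ) := by exact_mod_cast hq
      push_cast at hq'
      rw [hz]
      linear_combination hq'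
    have hz0 : 0 ≤ z := by
      by_contra hneg
      have h8 : (1 : ℤ) + D.ν * z < 0 := by
        have : (3 : ℤ) ≤ D.ν := by exact_mod_cast hν
        nlinarith
      have h9 : (0 : ℤ) < D.ν ^ (t - 1) := by
        have : (0 : ℤ) < D.ν := by exact_mod_cast F.νpos
        positivity
      have h10 : (D.Q a t j : ℤ) < 0 := by rw [hQz]; exact mul_neg_of_pos_of_neg h9 h8
      have : (0 : ℤ) ≤ D.Q a t j := by positivity
      omega
    obtain ⟨w, rfl⟩ := Int.eq_ofNat_of_zero_le hz0
    refine ⟨w, by exact_mod_cast hQz, ?_⟩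
    intro i hi
    have h8 := F.δ_mod hi
    have h9 := F.Iu_diff (a := a) (b := b) (by omega) (by omega) j
    rw [← h2] at h9
    obtain ⟨n1, hn1⟩ := F.nc_dvd (a := a) (j := j) ha (by omega)
    obtain ⟨n2, hn2⟩ := F.ν_dvd_N
    obtain ⟨mz, hmz⟩ := F.m_mod
    obtain ⟨ez, hez⟩ := F.Emod
    generalize (∑ i ∈ range j, if a < D.cl i then 1 else 0) = S at h9
    have hS : (D.ν : ℤ) ∣ (D.Iu a t j : ℤ) - D.Iu b t j := by
      have h9' : ((D.Iu a t j + S : ℕ) : ℤ) = ((D.Iu b t j + nc D a j + D.m * S : ℕ) : ℤ) := by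
        rw [h9]
      push_cast at h9'
      refine ⟨(D.ν : ℤ) * n2 * n1 + ((D.ν : ℤ) * mz + 1) * S, ?_⟩
      have h10 : (nc D a j : ℤ) = (D.ν : ℤ) ^ 2 * n2 * n1 := by
        rw [hn1, hn2]; push_cast; ring
      have h11 : (D.m : ℤ) = (D.ν : ℤ) ^ 2 * mz + D.ν + 1 := by rw [hmz]; push_cast; ring
      rw [h10, h11] at h9'
      linear_combination h9'
    have hzz : (D.ν : ℤ) ∣ (w : ℤ) - y := by
      have g1 : (D.ν : ℤ) ∣ (D.ν : ℤ) ^ (D.K - 1 - t) := dvd_pow_self _ (by omega)
      have g2 : (D.ν : ℤ) ∣ (D.ν : ℤ) ^ (lam b - 1 - t) := dvd_pow_self _ (by omega)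
      have : (w : ℤ) - y = (D.ν : ℤ) ^ (D.K - 1 - t) * h a -
        (D.ν : ℤ) ^ (D.K - 1 - t) * h b - (D.ν : ℤ) ^ (lam b - 1 - t) := by
        have hz' : (w : ℤ) = (y : ℤ) + D.ν ^ (D.K - 1 - t) * h a -
          D.ν ^ (D.K - 1 - t) * h b - D.ν ^ (lam b - 1 - t) := hz
        rw [hz']; ring
      rw [this]
      exact Dvd.dvd.sub (Dvd.dvd.sub (Dvd.dvd.mul_right g1 _) (Dvd.dvd.mul_right g1 _)) g2
    have hmain : (D.ν : ℤ) ∣ ((w + D.δ i + D.E * (D.Iu a t j + i) + 2 : ℕ) : ℤ) := by
      have g1 : (D.ν : ℤ) ∣ ((y + D.E * D.Iu b t j + 1 : ℕ) : ℤ) := by exact_mod_cast h6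
      have g2 : (D.ν : ℤ) ∣ ((D.δ i + D.E * i + 1 : ℕ) : ℤ) := by exact_mod_cast h8
      have e : ((w + D.δ i + D.E * (D.Iu a t j + i) + 2 : ℕ) : ℤ) =
          ((y + D.E * D.Iu b t j + 1 : ℕ) : ℤ) + ((D.δ i + D.E * i + 1 : ℕ) : ℤ) +
          D.E * ((D.Iu a t j : ℤ) - D.Iu b t j) + ((w : ℤ) - y) := by
        push_cast; ring
      rw [e]
      exact Dvd.dvd.add (Dvd.dvd.add (Dvd.dvd.add g1 g2) (Dvd.dvd.mul_left hS _)) hzz
    have hmain' : D.ν ∣ w + D.δ i + D.E * (D.Iu a t j + i) + 2 := by exact_mod_cast hmain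
    generalize w + D.δ i + D.E * (D.Iu a t j + i) = p at hmain'
    constructor
    · intro hp
      have := Nat.le_of_dvd (by norm_num) ((Nat.dvd_add_right hp).1 hmain')
      omega
    · intro hp
      have h12 : D.ν ∣ p + 1 + 1 := hmain'
      have := Nat.le_of_dvd (by norm_num) ((Nat.dvd_add_right hp).1 h12)
      omega
  · -- four
    intro j _
    have := F.life_ge j
    unfold Dat.dt
    unfold lam at *
    split_ifs <;> omega
  · -- small
    intro j _ hcl
    have : D.dt a j = lam a := by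
      unfold Dat.dt; rw [if_neg (by omega), if_neg (by omega)]
    rw [this]
    unfold lam at *
    omega

/-- The position of a real block at the last stage. -/
theorem X_real (F : Full D R M N s T h) {r : ℕ} (hr : r < T.length) :
    D.X (clT T r) (D.K - 1) (N * r + s) =
      D.c (tgT T r) + R * D.E * cnt T (clT T r) r := by
  have hK := F.hK
  have hjN : N * r + s < N * T.length := by
    have := F.hs
    calc N * r + s < N * r + N := by omega
      _ = N * (r + 1) := by ring
      _ ≤ _ := Nat.mul_le_mul_left _ hr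
  have hjm : N * r + s < D.m := by rw [F.hm]; omega
  have hdiv : (N * r + s) / N = r := by
    rw [Nat.mul_add_div F.hN0, Nat.div_eq_of_lt F.hs, Nat.add_zero]
  have hmod : (N * r + s) % N = s := by rw [Nat.mul_add_mod, Nat.mod_eq_of_lt F.hs]
  have hlife : D.life (N * r + s) = D.K := (F.life_eq _).2 ⟨hjN, hmod⟩
  have hcl : D.cl (N * r + s) = clT T r := F.cl_batch hr F.hs
  have h1 := F.real _ hjm hlife
  have h2 := F.pw_real r hr
  have h3 := F.own_persist hjm (t := D.K - 1) (by omega) (by omega)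
  rw [hcl] at h1 h3
  rw [hdiv] at h1
  obtain ⟨y, hy⟩ := h3
  have h4 : D.pw (clT T r) (N * r + s) =
      ∑ u ∈ range (D.K - 1), D.Iu (clT T r) u (N * r + s) * D.ν ^ u +
      D.Iu (clT T r) (D.K - 1) (N * r + s) * D.ν ^ (D.K - 1) := by
    rw [← Dat.pw_eq]
    have : D.K = D.K - 1 + 1 := by omega
    conv_lhs => rw [this]
    rw [Finset.sum_range_succ]
  have h5 : D.ν ^ (D.K - 1) * (y + D.E * D.Iu (clT T r) (D.K - 1) (N * r + s)) =
      D.ν ^ (D.K - 1) * (D.c (tgT T r) + R * D.E * cnt T (clT T r) r) := by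
    have e1 : D.ν ^ (D.K - 1) * (y + D.E * D.Iu (clT T r) (D.K - 1) (N * r + s)) =
        D.c (clT T r) / D.ν + D.δ (N * r + s) + Wf D.ν (D.K - 1) +
          D.E * D.pw (clT T r) (N * r + s) := by
      rw [h4, Nat.mul_add, ← hy]
      unfold Dat.Q
      ring
    rw [e1, h2, Nat.mul_add (D.ν ^ (D.K - 1)), ← h1]
    ring
  have h6 := Nat.eq_of_mul_eq_mul_left (pow_pos F.νpos _) h5
  unfold Dat.X
  rw [hy, Nat.mul_div_cancel_left _ (pow_pos F.νpos _)]
  exact h6

theorem flatMap_single {α : Type*} (x : α) (n s : ℕ) :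
    (List.range n).flatMap (fun i => if i = s then [x] else []) = if s < n then [x] else [] := by
  induction n with
  | zero => simp
  | succ n ih =>
    rw [List.range_succ, List.flatMap_append, ih]
    simp only [List.flatMap_cons, List.flatMap_nil, List.append_nil]
    split_ifs <;> first | rfl | omega

/-- Which blocks remain at the last stage. -/
theorem AS_last (F : Full D R M N s T h) {a j : ℕ} (ha : a < M) :
    D.AS a D.K j = if D.cl j = a ∧ D.life j = D.K then [D.X a (D.K - 1) j] else [] := by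
  have hK := F.hK
  have h1 := F.life_le j
  have h2 := F.cl_le j
  have h3 := F.life_ge j
  by_cases hcl : D.cl j = a
  · have hdt : D.dt a j = D.life j := by unfold Dat.dt; rw [if_pos hcl]
    by_cases hl : D.life j = D.K
    · rw [if_pos ⟨hcl, hl⟩]
      unfold Dat.AS
      rw [if_pos (by omega)]
    · rw [if_neg (by rintro ⟨_, h⟩; exact hl h)]
      unfold Dat.AS
      rw [if_neg (by omega), if_neg (by rintro ⟨_, h⟩; omega)]
  · have hdt : D.dt a j ≤ lam M := by
      unfold Dat.dt
      rw [if_neg hcl]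
      unfold lam
      split_ifs <;> omega
    rw [if_neg (by rintro ⟨h, _⟩; exact hcl h)]
    unfold Dat.AS
    rw [if_neg (by omega), if_neg (by rintro ⟨h, _⟩; omega)]

/-- The final positions. -/
theorem final (F : Full D R M N s T h) {a : ℕ} (ha : a < M) : ∀ r, r ≤ T.length →
    (List.range (N * r)).flatMap (D.AS a D.K) =
      ixs (R * D.E) 0 (((T.take r).filter (fun p => decide (p.2 = a))).map
        (fun p => D.c p.1)) := by
  intro r
  induction r with
  | zero => intro _; simp
  | succ r ih =>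
    intro hr
    have hr' : r < T.length := by omega
    rw [Nat.mul_succ, List.range_add, List.flatMap_append, ih (by omega),
      List.take_succ_eq_append_getElem hr', List.filter_append, List.map_append, ixs_append,
      List.flatMap_map]
    congr 1
    have hcT : clT T r = T[r].2 := by unfold clT; rw [List.getD_eq_getElem _ _ hr']
    have htT : tgT T r = T[r].1 := by unfold tgT; rw [List.getD_eq_getElem _ _ hr']
    by_cases h1 : clT T r = a
    · have e1 : (List.range N).flatMap (fun i => D.AS a D.K (N * r + i)) =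
          (List.range N).flatMap (fun i => if i = s then [D.X a (D.K - 1) (N * r + s)] else []) := by
        apply List.flatMap_congr
        intro i hi
        rw [List.mem_range] at hi
        rw [F.AS_last ha, F.cl_batch hr' hi]
        have hjN : N * r + i < N * T.length := by
          calc N * r + i < N * r + N := by omega
            _ = N * (r + 1) := by ring
            _ ≤ _ := Nat.mul_le_mul_left _ hr
        by_cases his : i = s
        · rw [if_pos his, if_pos, his]
          refine ⟨h1, (F.life_eq _).2 ⟨hjN, ?_⟩⟩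
          rw [Nat.mul_add_mod, Nat.mod_eq_of_lt hi, his]
        · rw [if_neg his, if_neg]
          rintro ⟨_, h2⟩
          have := ((F.life_eq _).1 h2).2
          rw [Nat.mul_add_mod, Nat.mod_eq_of_lt hi] at this
          exact his this
      rw [e1, flatMap_single, if_pos F.hs]
      have e2 : List.filter (fun p : ℕ × ℕ => decide (p.2 = a)) [T[r]] = [T[r]] := by
        rw [hcT] at h1
        simp [h1]
      rw [e2]
      simp only [List.map_cons, List.map_nil, ixs_cons, ixs_nil, List.length_map, Nat.zero_add]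
      have h2 := F.X_real hr'
      rw [h1] at h2
      rw [h2, htT]
      rfl
    · have e1 : (List.range N).flatMap (fun i => D.AS a D.K (N * r + i)) = [] := by
        rw [List.flatMap_eq_nil_iff]
        intro i hi
        rw [List.mem_range] at hi
        rw [F.AS_last ha, F.cl_batch hr' hi, if_neg (by rintro ⟨h, _⟩; exact h1 h)]
      rw [e1]
      have e2 : List.filter (fun p : ℕ × ℕ => decide (p.2 = a)) [T[r]] = [] := by
        rw [hcT] at h1
        simp [h1]
      rw [e2]
      simp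

theorem final' (F : Full D R M N s T h) {a : ℕ} (ha : a < M) :
    (List.range D.m).flatMap (D.AS a D.K) =
      ixs (R * D.E) 0 ((T.filter (fun p => decide (p.2 = a))).map (fun p => D.c p.1)) := by
  have h1 := F.final ha T.length le_rfl
  rw [List.take_length] at h1
  rw [F.hm, List.range_add, List.flatMap_append, h1, List.flatMap_map]
  have e1 : (List.range (Wf D.ν (lam M + 1))).flatMap
      (fun i => D.AS a D.K (N * T.length + i)) = [] := by
    rw [List.flatMap_eq_nil_iff]
    intro i _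
    rw [F.AS_last ha, F.cl_last, if_neg (by rintro ⟨h, _⟩; omega)]
  rw [e1, List.append_nil]

/-- The lengths. -/
theorem Sm_dvd (F : Full D R M N s T h) {a : ℕ} (ha : a < M) (hpos : 0 < cnt T a T.length)
    {t : ℕ} (ht : t < D.K) :
    D.ν ^ t ∣ D.Sm a (D.E * ((D.ν - 1) * Wf D.ν (lam M + 1) ^ 3)) t := by
  obtain ⟨z, hz⟩ := Dat.pw_trunc (D := D) a D.m ht.le
  have h1 := F.pw_total a ha hpos
  have h2 : D.Sm a (D.E * ((D.ν - 1) * Wf D.ν (lam M + 1) ^ 3)) t + D.ν ^ t * (D.E * z) =
      D.ν ^ (D.K - 1) * (D.E * R * cnt T a T.length) := by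
    have e : D.ν ^ (D.K - 1) * (D.E * R * cnt T a T.length) =
        D.E * (R * D.ν ^ (D.K - 1) * cnt T a T.length) := by ring
    rw [e, ← h1, hz]
    unfold Dat.Sm
    ring
  have h3 : D.ν ^ t ∣ D.Sm a (D.E * ((D.ν - 1) * Wf D.ν (lam M + 1) ^ 3)) t +
      D.ν ^ t * (D.E * z) := by
    rw [h2]
    exact Dvd.dvd.mul_right (pow_dvd_pow _ (by omega)) _
  exact (Nat.dvd_add_left (Dvd.intro _ rfl)).1 h3

theorem Ls_last (F : Full D R M N s T h) {a : ℕ} (ha : a < M) (hpos : 0 < cnt T a T.length) :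
    D.Ls a (D.E * ((D.ν - 1) * Wf D.ν (lam M + 1) ^ 3)) D.K =
      R * D.E * cnt T a T.length := by
  have h1 := F.pw_total a ha hpos
  have h2 : D.Sm a (D.E * ((D.ν - 1) * Wf D.ν (lam M + 1) ^ 3)) D.K =
      D.ν ^ (D.K - 1) * (R * D.E * cnt T a T.length) := by
    have e : D.ν ^ (D.K - 1) * (R * D.E * cnt T a T.length) =
        D.E * (R * D.ν ^ (D.K - 1) * cnt T a T.length) := by ring
    rw [e, ← h1]
    unfold Dat.Sm
    rw [Dat.pw_eq]
    ring
  unfold Dat.Ls
  rw [h2, Nat.mul_div_cancel_left _ (pow_pos F.νpos _)]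

end Full

end Pool.Agent.H97.Tag
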