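import Pool.Agent.H97.Tag.Tune

/-!
# Weights of the blocks
-/

set_option autoImplicit false

namespace Pool.Agent.H97.Tag

open Finset

theorem sum_lt_pow (ν d t : ℕ) (h : d ≤ t) :
    ∑ u ∈ range t, (if u < d then 1 else 0) * ν ^ u = Wf ν d := by
  obtain ⟨k, rfl⟩ := Nat.exists_eq_add_of_le h
  rw [Finset.sum_range_add, Finset.sum_eq_zero (s := range k), Nat.add_zero]
  · unfold Wf
    apply Finset.sum_congr rfl
    intro i hi
    rw [Finset.mem_range] at hi
    rw [if_pos hi, Nat.one_mul]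
  · intro i _
    rw [if_neg (by omega), Nat.zero_mul]

namespace Dat

variable (D : Dat)

/-- The weight of the block `i` in the group of `a`. -/
def wt (a i : ℕ) : ℕ := ∑ u ∈ range D.K, D.rdn a i u * D.ν ^ u

/-- The weight of the blocks before `j`. -/
def pw (a j : ℕ) : ℕ := ∑ i ∈ range j, D.wt a i

/-- The weight of a block of class `b ≠ a` in the group of `a`. -/
def fw (b a : ℕ) : ℕ := if b < a then Wf D.ν (lam b) else Wf D.ν (lam a) + D.m * D.ν ^ lam a

variable {D}

theorem sum_Iu (a j t : ℕ) :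
    ∑ u ∈ range t, D.Iu a u j * D.ν ^ u = ∑ i ∈ range j, ∑ u ∈ range t, D.rdn a i u * D.ν ^ u := by
  unfold Iu
  rw [Finset.sum_comm]
  apply Finset.sum_congr rfl
  intro u _
  rw [Finset.sum_mul]

theorem pw_eq (a j : ℕ) : ∑ u ∈ range D.K, D.Iu a u j * D.ν ^ u = D.pw a j := sum_Iu a j D.K

/-- The truncated sum agrees with the full one modulo `ν ^ t`. -/
theorem pw_trunc (a j : ℕ) {t : ℕ} (ht : t ≤ D.K) :
    ∃ z, D.pw a j = ∑ u ∈ range t, D.Iu a u j * D.ν ^ u + D.ν ^ t * z := by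
  rw [← pw_eq]
  obtain ⟨k, hk⟩ := Nat.exists_eq_add_of_le ht
  rw [hk, Finset.sum_range_add]
  refine ⟨∑ x ∈ range k, D.Iu a (t + x) j * D.ν ^ x, ?_⟩
  rw [Finset.mul_sum]
  congr 1
  apply Finset.sum_congr rfl
  intro x _
  rw [pow_add]
  ring

theorem wt_plain {a i : ℕ} (h : ¬ a < D.cl i) (hK : D.dt a i ≤ D.K) :
    D.wt a i = Wf D.ν (D.dt a i) := by
  rw [← sum_lt_pow D.ν _ _ hK]
  unfold wt
  apply Finset.sum_congr rfl
  intro u _
  unfold rdn
  congr 1
  split_ifs with h1 h2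
  · rfl
  · exact absurd h2.2 h
  · rfl

theorem wt_mult {a i : ℕ} (h : a < D.cl i) (hK : D.dt a i < D.K) :
    D.wt a i = Wf D.ν (D.dt a i) + D.m * D.ν ^ D.dt a i := by
  rw [← sum_lt_pow D.ν _ _ hK.le]
  have : D.m * D.ν ^ D.dt a i =
      ∑ u ∈ range D.K, (if u = D.dt a i then D.m else 0) * D.ν ^ u := by
    rw [Finset.sum_eq_single (D.dt a i)]
    · simp
    · intro u _ hu
      rw [if_neg hu, Nat.zero_mul]
    · intro hu
      rw [Finset.mem_range] at hu
      exact absurd hK hu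
  rw [this, ← Finset.sum_add_distrib]
  unfold wt
  apply Finset.sum_congr rfl
  intro u _
  unfold rdn
  rw [← Nat.add_mul]
  congr 1
  by_cases h1 : u < D.dt a i
  · rw [if_pos h1, if_pos h1, if_neg (by omega)]
  · rw [if_neg h1, if_neg h1]
    by_cases h2 : u = D.dt a i
    · rw [if_pos ⟨h2, h⟩, if_pos h2, Nat.zero_add]
    · rw [if_neg (by rintro ⟨h3, _⟩; exact h2 h3), if_neg h2]

/-- The weight of a block of its own class. -/
theorem wt_own {a i : ℕ} (h : D.cl i = a) (hK : D.life i ≤ D.K) : D.wt a i = Wf D.ν (D.life i) := by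
  have e : D.dt a i = D.life i := by unfold dt; rw [if_pos h]
  rw [wt_plain (by omega) (by omega), e]

/-- The weight of a foreign block. -/
theorem wt_foreign {a i : ℕ} (h : D.cl i ≠ a) (h1 : lam a < D.K) (h2 : lam (D.cl i) ≤ D.K ∨ a < D.cl i) :
    D.wt a i = D.fw (D.cl i) a := by
  unfold fw
  by_cases hlt : D.cl i < a
  · have e : D.dt a i = lam (D.cl i) := by unfold dt; rw [if_neg h, if_pos hlt]
    rw [if_pos hlt, wt_plain (by omega) (by omega), e]
  · have e : D.dt a i = lam a := by unfold dt; rw [if_neg h, if_neg hlt]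
    rw [if_neg hlt, wt_mult (by omega) (by omega), e]

end Dat

end Pool.Agent.H97.Tag
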